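import Mathlib
import Pool.Agent.Work.MP_992d6e_an.Persist

/-!
MP_992d6e_an, folder CC: MANY WELL CONDITIONED EQUILIBRIA.

GOAL. For every `n ≥ 1` there are `n` nonzero charges at distinct points, all of whose equilibria
are nondegenerate, with at least `2 (n - 16)^3 / 243` equilibria of condition number at most
`3 * 10^8 * n^4` (`PC992WC.CondLE`). The existing construction (`Model`, `Chain`, `Final`) gives
`2 (n - 16)^3 / 243` nondegenerate equilibria; here we follow it, and carry the open condition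
`CD` below (a robust form of: condition number at most `M`) through all the perturbations.

This file: the condition `CD` and the bound `Bd`.
-/

namespace PC992CC

open Filter Topology PC992

noncomputable section

/-- Strict (open) form of: the critical point `x` of `V` has condition number at most `M` relative
to the distance `R`. The derivative `fderiv ℝ (fderiv ℝ V) x` is the Hessian. -/
def CD (V : E → ℝ) (x : E) (R M : ℝ) : Prop :=
  ∃ σ σ' κ ρ τ : ℝ, 0 < σ ∧ σ < σ' ∧ 1 ≤ κ ∧ 0 < ρ ∧ ρ < 1 ∧ κ < M * ρ ∧ τ < σ / 4 ∧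
    (∀ v : E, σ' * ‖v‖ ≤ ‖fderiv ℝ (fderiv ℝ V) x v‖) ∧
    ‖fderiv ℝ (fderiv ℝ V) x‖ < κ * σ ∧
    ∀ y : E, ‖y - x‖ ≤ ρ * R → ContDiffAt ℝ 2 V y ∧
      ‖fderiv ℝ (fderiv ℝ V) y - fderiv ℝ (fderiv ℝ V) x‖ ≤ τ

/-- The bound for the condition number at level `a`. -/
def Bd (a : ℕ) : ℝ := 3 * 10 ^ 8 * ((a : ℝ) + 2) ^ 4

theorem Bd_mono {a b : ℕ} (h : a ≤ b) : Bd a ≤ Bd b := by
  unfold Bd
  have : (a : ℝ) ≤ b := by exact_mod_cast h
  gcongr

theorem Bd_le {a n : ℕ} (h : a + 2 ≤ n) : Bd a ≤ 3 * 10 ^ 8 * (n : ℝ) ^ 4 := by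
  unfold Bd
  have : (a : ℝ) + 2 ≤ n := by exact_mod_cast h
  gcongr

theorem CD.mono {V : E → ℝ} {x : E} {R R' M M' : ℝ} (h : CD V x R M) (hR : R' ≤ R)
    (hM : M ≤ M') : CD V x R' M' := by
  obtain ⟨σ, σ', κ, ρ, τ, h1, h2, h3, h4, h5, h6, h7, h8, h9, h10⟩ := h
  refine ⟨σ, σ', κ, ρ, τ, h1, h2, h3, h4, h5, ?_, h7, h8, h9, fun y hy => h10 y ?_⟩
  · exact h6.trans_le (mul_le_mul_of_nonneg_right hM h4.le)
  · exact hy.trans (mul_le_mul_of_nonneg_left hR h4.le)

end

end PC992CC
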