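import Mathlib
import Pool.Agent.Work.MP_992d6e_an.WC.Defs
import Pool.Agent.Work.MP_992d6e_an.CC.Defs

/-!
MP_992d6e_an, CC/CleC: `CD` relative to the distance to the nearest charge implies the condition
`PC992WC.CondLE` of the main theorem.

PROOF. Let `(σ, σ', κ, ρ, τ)` be a witness of `CD`; `(σ, κ, ρ)` is a witness of `CondLE`. Put
`V = potential q a`; `hess V y v w = iteratedFDeriv ℝ 2 V y ![v, w] =
fderiv ℝ (fderiv ℝ V) y v w` (`iteratedFDeriv_two_apply`, `simp`). `κ ≤ M ρ` from `κ < M ρ`.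
* for every `v` there is `w` with `‖w‖ ≤ 1` and `σ ‖v‖ ≤ |D²V(x) v w|`: if `v = 0` take `w = 0`;
otherwise `σ ‖v‖ < σ' ‖v‖ ≤ ‖D²V(x) v‖`; if `|D²V(x) v w| < σ ‖v‖` for all `‖w‖ ≤ 1`, then by
scaling `|D²V(x) v w| ≤ σ ‖v‖ ‖w‖` for all `w` and `‖D²V(x) v‖ ≤ σ ‖v‖`
(`ContinuousLinearMap.opNorm_le_bound`), a contradiction.
* `|D²V(x) v w| ≤ ‖D²V(x)‖ ‖v‖ ‖w‖ ≤ κ σ ‖v‖ ‖w‖` (`ContinuousLinearMap.le_opNorm₂`).
* if `dist y x ≤ ρ * dist x (a j)` for all `j` then `‖y - x‖ ≤ ρ * infDist x (range a)`, because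
`infDist x (range a) = dist x (a j)` for some `j` (finite nonempty set, `n > 0`:
`IsCompact.exists_infDist_eq_dist`); so `‖D²V(y) - D²V(x)‖ ≤ τ ≤ σ / 4` and `le_opNorm₂`.
-/

namespace PC992CC

open Filter Topology PC992 N62f3cee0

theorem condLE_of_cd {n : ℕ} (hn : 0 < n) (q : Fin n → ℝ) (a : Fin n → E) {x : E} {M : ℝ}
    (h : CD (potential q a) x (Metric.infDist x (Set.range a)) M) : PC992WC.CondLE q a M x := by
  obtain ⟨σ, σ', κ, ρ, τ, h1, h2, h3, h4, h5, h6, h7, h8, h9, h10⟩ := h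
  have he : ∀ y v w : E, PC992WC.hess (potential q a) y v w =
      fderiv ℝ (fderiv ℝ (potential q a)) y v w := by
    intro y v w
    unfold PC992WC.hess
    rw [iteratedFDeriv_two_apply]
    simp
  refine ⟨σ, κ, ρ, h1, h3, h4, h5, h6.le, fun v => ?_, fun v w => ?_, fun y hy v w => ?_⟩
  · by_contra hcon
    push Not at hcon
    rcases eq_or_ne v 0 with rfl | hv
    · have h11 := hcon 0 (by simp)
      rw [norm_zero, mul_zero] at h11
      exact absurd h11 (not_lt.2 (abs_nonneg _))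
    · have hv' : 0 < ‖v‖ := norm_pos_iff.2 hv
      have hle : ‖fderiv ℝ (fderiv ℝ (potential q a)) x v‖ ≤ σ * ‖v‖ := by
        refine ContinuousLinearMap.opNorm_le_bound _ (by positivity) fun w => ?_
        rcases eq_or_ne w 0 with rfl | hw
        · simp
        · have hw' : 0 < ‖w‖ := norm_pos_iff.2 hw
          have h11 := hcon (‖w‖⁻¹ • w) (by
            rw [norm_smul, norm_inv, norm_norm, inv_mul_cancel₀ hw'.ne'])
          rw [he, map_smul, smul_eq_mul, abs_mul, abs_inv, abs_norm, inv_mul_lt_iff₀ hw'] at h11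
          rw [Real.norm_eq_abs]
          exact h11.le.trans_eq (mul_comm _ _)
      have h12 := h8 v
      have h13 : σ * ‖v‖ < σ' * ‖v‖ := mul_lt_mul_of_pos_right h2 hv'
      linarith
  · rw [he, ← Real.norm_eq_abs]
    refine (ContinuousLinearMap.le_opNorm₂ _ v w).trans ?_
    have h11 := h9.le
    gcongr
  · have hne : (Set.range a).Nonempty := ⟨a ⟨0, hn⟩, ⟨0, hn⟩, rfl⟩
    obtain ⟨p, ⟨j, rfl⟩, hj⟩ := (Set.finite_range a).isCompact.exists_infDist_eq_dist hne x
    have h11 : ‖y - x‖ ≤ ρ * Metric.infDist x (Set.range a) := by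
      rw [hj, ← dist_eq_norm]
      exact hy j
    have h12 := (h10 y h11).2
    rw [he, he, ← Real.norm_eq_abs]
    have h13 : fderiv ℝ (fderiv ℝ (potential q a)) y v w -
        fderiv ℝ (fderiv ℝ (potential q a)) x v w =
        (fderiv ℝ (fderiv ℝ (potential q a)) y - fderiv ℝ (fderiv ℝ (potential q a)) x) v w := rfl
    rw [h13]
    refine (ContinuousLinearMap.le_opNorm₂ _ v w).trans ?_
    have h14 := h12.trans h7.le
    gcongr

end PC992CC
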