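import Mathlib
import Pool.Agent.Work.MP_992d6e_an.CC.Defs

/-!
MP_992d6e_an, CC/PstA: persistence of the condition `CD` under perturbations that are small in
`C^2` on the ball of radius `R` around the critical point. `R₁` does not depend on `U` or `i`.

PROOF. Let `(σ, σ', κ, ρ, τ)` be a witness of `hcd`. `M > 0` because `0 < 1 ≤ κ < M * ρ`, `0 < ρ`.
Put `ρ₁ = (ρ + κ / M) / 2`, so `κ < M * ρ₁`, `0 < ρ₁ < ρ < 1`; `R₁ = R * (ρ₁ + ρ) / (2 * ρ₁) > R`,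
so that `ρ₁ * R₁ = R * (ρ₁ + ρ) / 2 < ρ * R`; put `η = ρ * R - ρ₁ * R₁ > 0`. The compact set
`Kc = Metric.closedBall x (ρ * R)` is contained in `{y | ‖y - x‖ < R}` as `ρ < 1`.
Choose `ε > 0` with `2 * ε < σ' - σ`, `‖D²V(x)‖ + 2 * ε < κ * σ`, `τ + 3 * ε < σ / 4`.
(a) For every `z ∈ Kc`, `TC2 l F V z` gives: eventually for `p` in `l ×ˢ 𝓝 z`,
`ContDiffAt ℝ 2 (F p.1) p.2` and `‖D²(F p.1)(p.2) - D²V(p.2)‖ < ε` (`D²(F p.1)(p.2) → D²V(z)` and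
`D²V(p.2) → D²V(z)` by `PC992.cda_cont2`, and `Tendsto.sub`). By compactness
(`IsCompact.mem_prod_nhdsSet_of_forall`, or `IsCompact.induction_on`): eventually for `i` in `l`,
for all `z ∈ Kc`, `ContDiffAt ℝ 2 (F i) z` and `‖D²(F i)(z) - D²V(z)‖ < ε`.
(b) `U' = U ∩ ball x η ∩ {y | ‖D²V(y) - D²V(x)‖ < ε} ∩ ball x (ρ * R)` is a neighbourhood of `x`
(`PC992.cda_cont2`), and `PC992.TC2.persist` gives, eventually, `y ∈ U'` with `y ∈ NDC (F i)`.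
(c) For `i` as in (a) and (b): `‖D²(F i)(y) - D²V(x)‖ < 2 * ε`. So `(σ, σ' - 2 * ε, κ, ρ₁, τ + 3ε)`
is a witness for `CD (F i) y R₁ M`: `‖D²(F i)(y) v‖ ≥ ‖D²V(x) v‖ - 2 * ε * ‖v‖`,
`‖D²(F i)(y)‖ ≤ ‖D²V(x)‖ + 2 * ε < κ * σ`; if `‖z - y‖ ≤ ρ₁ * R₁` then
`‖z - x‖ ≤ ρ₁ * R₁ + η = ρ * R`, so `z ∈ Kc` and `‖D²(F i)(z) - D²(F i)(y)‖ ≤
‖D²(F i)(z) - D²V(z)‖ + ‖D²V(z) - D²V(x)‖ + ‖D²V(x) - D²(F i)(y)‖ ≤ ε + τ + 2 * ε`.
-/

namespace PC992CC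

open Filter Topology PC992

private lemma tnorm992 {α : Type*} {L : Filter α} {f : α → (E →L[ℝ] (E →L[ℝ] ℝ))}
    {A : E →L[ℝ] (E →L[ℝ] ℝ)} (hf : Tendsto f L (𝓝 A)) : Tendsto (fun p => ‖f p - A‖) L (𝓝 0) :=
  tendsto_iff_norm_sub_tendsto_zero.1 (show @Tendsto _ (E →L[ℝ] (E →L[ℝ] ℝ)) f L
    (@nhds _ PseudoMetricSpace.toUniformSpace.toTopologicalSpace A) from hf)

theorem CD.persist {ι : Type*} {l : Filter ι} {F : ι → E → ℝ} {V : E → ℝ} {x : E} {R M : ℝ}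
    (hR : 0 < R) (hx : x ∈ NDC V) (hcd : CD V x R M)
    (hF : ∀ y : E, ‖y - x‖ < R → TC2 l F V y) :
    ∃ R₁ > R, ∀ U ∈ 𝓝 x, ∀ᶠ i in l, ∃ y ∈ U, y ∈ NDC (F i) ∧ CD (F i) y R₁ M := by
  obtain ⟨σ, σ', κ, ρ, τ, h1, h2, h3, h4, h5, h6, h7, h8, h9, h10⟩ := hcd
  have hVx : ContDiffAt ℝ 2 V x := hx.1
  have hM : 0 < M := by
    by_contra hM
    push Not at hM
    have := mul_nonpos_of_nonpos_of_nonneg hM h4.le
    linarith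
  have hκM : κ / M < ρ := by
    rw [div_lt_iff₀ hM]; linarith [mul_comm M ρ]
  have hκM0 : 0 < κ / M := div_pos (by linarith) hM
  obtain ⟨ρ₁, hρ₁⟩ : ∃ ρ₁ : ℝ, ρ₁ = (ρ + κ / M) / 2 := ⟨_, rfl⟩
  have hρ1 : κ / M < ρ₁ := by linarith
  have hρ2 : ρ₁ < ρ := by linarith
  have hρ0 : 0 < ρ₁ := by linarith
  have hκρ : κ < M * ρ₁ := by
    have := (div_lt_iff₀ hM).1 hρ1
    linarith [mul_comm M ρ₁]
  obtain ⟨R₁, hR₁⟩ : ∃ R₁ : ℝ, R₁ = R * (ρ₁ + ρ) / (2 * ρ₁) := ⟨_, rfl⟩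
  have hρR : ρ₁ * R₁ = R * (ρ₁ + ρ) / 2 := by
    rw [hR₁]; field_simp
  have hRR : R < R₁ := by
    rw [hR₁, lt_div_iff₀ (by positivity)]
    nlinarith
  obtain ⟨η, hη⟩ : ∃ η : ℝ, η = ρ * R - ρ₁ * R₁ := ⟨_, rfl⟩
  have hη0 : 0 < η := by
    rw [hη, hρR]
    have := mul_pos hR (sub_pos.2 hρ2)
    nlinarith
  obtain ⟨ε, hε0, hε1, hε2, hε3⟩ : ∃ ε : ℝ, 0 < ε ∧ 2 * ε < σ' - σ ∧
      ‖fderiv ℝ (fderiv ℝ V) x‖ + 2 * ε < κ * σ ∧ τ + 3 * ε < σ / 4 := by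
    have e1 : 0 < (σ' - σ) / 3 := by linarith
    have e2 : 0 < (κ * σ - ‖fderiv ℝ (fderiv ℝ V) x‖) / 3 := by linarith
    have e3 : 0 < (σ / 4 - τ) / 4 := by linarith
    refine ⟨min ((σ' - σ) / 3) (min ((κ * σ - ‖fderiv ℝ (fderiv ℝ V) x‖) / 3) ((σ / 4 - τ) / 4)),
      lt_min e1 (lt_min e2 e3), ?_, ?_, ?_⟩
    · have := min_le_left ((σ' - σ) / 3)
        (min ((κ * σ - ‖fderiv ℝ (fderiv ℝ V) x‖) / 3) ((σ / 4 - τ) / 4))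
      linarith
    · have := (min_le_right ((σ' - σ) / 3)
        (min ((κ * σ - ‖fderiv ℝ (fderiv ℝ V) x‖) / 3) ((σ / 4 - τ) / 4))).trans (min_le_left _ _)
      linarith
    · have := (min_le_right ((σ' - σ) / 3)
        (min ((κ * σ - ‖fderiv ℝ (fderiv ℝ V) x‖) / 3) ((σ / 4 - τ) / 4))).trans (min_le_right _ _)
      linarith
  refine ⟨R₁, hRR, fun U hU => ?_⟩
  -- (a)
  have hKc : ∀ z ∈ Metric.closedBall x (ρ * R), ‖z - x‖ < R := by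
    intro z hz
    rw [mem_closedBall_iff_norm] at hz
    have : ρ * R < R := by nlinarith
    linarith
  have hnorm : ∀ (f : ι × E → (E →L[ℝ] (E →L[ℝ] ℝ))) (g : ι × E → (E →L[ℝ] (E →L[ℝ] ℝ)))
      (L : Filter (ι × E)) (A : E →L[ℝ] (E →L[ℝ] ℝ)), Tendsto f L (𝓝 A) → Tendsto g L (𝓝 A) →
      ∀ᶠ p in L, ‖f p - g p‖ < ε := by
    intro f g L A hf hg
    filter_upwards [(tnorm992 hf).eventually_lt_const (half_pos hε0),
      (tnorm992 hg).eventually_lt_const (half_pos hε0)] with p hp1 hp2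
    have e1 : f p - g p = (f p - A) - (g p - A) := by abel
    have e2 := norm_sub_le (f p - A) (g p - A)
    rw [e1]
    linarith
  have ha : ∀ᶠ i in l, ∀ z ∈ Metric.closedBall x (ρ * R), ContDiffAt ℝ 2 (F i) z ∧
      ‖fderiv ℝ (fderiv ℝ (F i)) z - fderiv ℝ (fderiv ℝ V) z‖ < ε := by
    have hs : {p : ι × E | ContDiffAt ℝ 2 (F p.1) p.2 ∧
        ‖fderiv ℝ (fderiv ℝ (F p.1)) p.2 - fderiv ℝ (fderiv ℝ V) p.2‖ < ε} ∈
        l ×ˢ 𝓝ˢ (Metric.closedBall x (ρ * R)) := by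
      refine IsCompact.mem_prod_nhdsSet_of_forall (isCompact_closedBall x (ρ * R)) ?_
      intro z hz
      obtain ⟨a1, a2, a3, a4⟩ := hF z (hKc z hz)
      have hg : Tendsto (fun p : ι × E => fderiv ℝ (fderiv ℝ V) p.2) (l ×ˢ 𝓝 z)
          (𝓝 (fderiv ℝ (fderiv ℝ V) z)) := (cda_cont2 a1).tendsto.comp tendsto_snd
      exact a2.and (hnorm _ _ _ _ a4 hg)
    obtain ⟨t1, ht1, t2, ht2, hsub⟩ := mem_prod_iff.1 hs
    filter_upwards [ht1] with i hi z hz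
    exact hsub (Set.mk_mem_prod hi (subset_of_mem_nhdsSet ht2 hz))
  -- (b)
  have hcont : ∀ᶠ y in 𝓝 x, ‖fderiv ℝ (fderiv ℝ V) y - fderiv ℝ (fderiv ℝ V) x‖ < ε :=
    (tnorm992 (cda_cont2 hVx).tendsto).eventually_lt_const hε0
  have hU' : U ∩ (Metric.ball x η ∩ ({y | ‖fderiv ℝ (fderiv ℝ V) y - fderiv ℝ (fderiv ℝ V) x‖ < ε}
      ∩ Metric.ball x (ρ * R))) ∈ 𝓝 x := by
    refine inter_mem hU (inter_mem (Metric.ball_mem_nhds x hη0) (inter_mem hcont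
      (Metric.ball_mem_nhds x (mul_pos h4 hR))))
  have hb := (hF x (by simpa using hR)).persist hx hU'
  filter_upwards [ha, hb] with i hai hbi
  obtain ⟨y, ⟨hyU, hyη, hyc, hyR⟩, hyN⟩ := hbi
  rw [Metric.mem_ball, dist_eq_norm] at hyη
  have hyc' : ‖fderiv ℝ (fderiv ℝ V) y - fderiv ℝ (fderiv ℝ V) x‖ < ε := hyc
  have hyK : y ∈ Metric.closedBall x (ρ * R) := Metric.ball_subset_closedBall hyR
  have hyd : ‖fderiv ℝ (fderiv ℝ (F i)) y - fderiv ℝ (fderiv ℝ V) x‖ < 2 * ε := by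
    have e1 : fderiv ℝ (fderiv ℝ (F i)) y - fderiv ℝ (fderiv ℝ V) x
        = (fderiv ℝ (fderiv ℝ (F i)) y - fderiv ℝ (fderiv ℝ V) y)
          + (fderiv ℝ (fderiv ℝ V) y - fderiv ℝ (fderiv ℝ V) x) := by abel
    rw [e1]
    have := norm_add_le (fderiv ℝ (fderiv ℝ (F i)) y - fderiv ℝ (fderiv ℝ V) y)
      (fderiv ℝ (fderiv ℝ V) y - fderiv ℝ (fderiv ℝ V) x)
    have h' := (hai y hyK).2
    linarith
  refine ⟨y, hyU, hyN, σ, σ' - 2 * ε, κ, ρ₁, τ + 3 * ε, h1, by linarith, h3, hρ0,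
    by linarith, hκρ, hε3, ?_, ?_, ?_⟩
  · intro v
    have e1 : ‖fderiv ℝ (fderiv ℝ V) x v‖ ≤ ‖fderiv ℝ (fderiv ℝ (F i)) y v‖
        + ‖(fderiv ℝ (fderiv ℝ (F i)) y - fderiv ℝ (fderiv ℝ V) x) v‖ := by
      have : fderiv ℝ (fderiv ℝ V) x v = fderiv ℝ (fderiv ℝ (F i)) y v
          - (fderiv ℝ (fderiv ℝ (F i)) y - fderiv ℝ (fderiv ℝ V) x) v := by
        rw [sub_apply]; abel
      rw [this]
      exact norm_sub_le _ _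
    have e2 : ‖(fderiv ℝ (fderiv ℝ (F i)) y - fderiv ℝ (fderiv ℝ V) x) v‖ ≤ 2 * ε * ‖v‖ :=
      (ContinuousLinearMap.le_opNorm _ v).trans
        (mul_le_mul_of_nonneg_right hyd.le (norm_nonneg v))
    have e3 := h8 v
    linarith [sub_mul σ' (2 * ε) ‖v‖]
  · have e1 := norm_le_norm_add_norm_sub' (fderiv ℝ (fderiv ℝ (F i)) y) (fderiv ℝ (fderiv ℝ V) x)
    linarith
  · intro z hz
    have hzx : ‖z - x‖ ≤ ρ * R := by
      have e1 : z - x = (z - y) + (y - x) := by abel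
      rw [e1]
      have := norm_add_le (z - y) (y - x)
      linarith
    have hzK : z ∈ Metric.closedBall x (ρ * R) := by
      rw [mem_closedBall_iff_norm]; exact hzx
    obtain ⟨b1, b2⟩ := hai z hzK
    refine ⟨b1, ?_⟩
    have e1 : fderiv ℝ (fderiv ℝ (F i)) z - fderiv ℝ (fderiv ℝ (F i)) y
        = (fderiv ℝ (fderiv ℝ (F i)) z - fderiv ℝ (fderiv ℝ V) z)
          + (fderiv ℝ (fderiv ℝ V) z - fderiv ℝ (fderiv ℝ V) x)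
          - (fderiv ℝ (fderiv ℝ (F i)) y - fderiv ℝ (fderiv ℝ V) x) := by abel
    rw [e1]
    have f1 := norm_sub_le ((fderiv ℝ (fderiv ℝ (F i)) z - fderiv ℝ (fderiv ℝ V) z)
          + (fderiv ℝ (fderiv ℝ V) z - fderiv ℝ (fderiv ℝ V) x))
          (fderiv ℝ (fderiv ℝ (F i)) y - fderiv ℝ (fderiv ℝ V) x)
    have f2 := norm_add_le (fderiv ℝ (fderiv ℝ (F i)) z - fderiv ℝ (fderiv ℝ V) z)
          (fderiv ℝ (fderiv ℝ V) z - fderiv ℝ (fderiv ℝ V) x)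
    have f3 := (h10 z hzx).2
    linarith

end PC992CC
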