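import Mathlib
import Pool.Agent.Work.MP_992d6e_an.CC.PstA

/-!
MP_992d6e_an, CC/PstB: the finite-set version of `CD.persist` (cf. `PC992.persist_finset`, whose
proof is to be followed).

PROOF. `S` is finite: take pairwise disjoint open `U x` for `x ∈ S` (`Set.Finite.t2_separation`).
For `x ∈ S` let `R₁ x > R x` be the number of `CD.persist`. By the last hypothesis with `R₁ x` and
`eventually_prod_iff` there are `pa`, `pb` with `∀ᶠ i in l, pa i`, `∀ᶠ y in 𝓝 x, pb y` and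
`pa i → pb y → r i y ≤ R₁ x`. Apply `CD.persist` with the neighbourhood
`U x ∩ Ω ∩ {y | pb y}`: eventually there is `y` in it with `y ∈ NDC (F i)` and
`CD (F i) y (R₁ x) M`, hence (`CD.mono`) `CD (F i) y (r i y) M`. Use `Filter.eventually_all_finset`
and `choose!`, and take `T` to be the image of `S`, of the same cardinality because the `U x` are
disjoint.
-/

namespace PC992CC

open Filter Topology PC992

theorem persist_finset_cd {ι : Type*} {l : Filter ι} {F : ι → E → ℝ} {V : E → ℝ}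
    (S : Finset E) (Ω : Set E) (R : E → ℝ) (r : ι → E → ℝ) {M : ℝ}
    (hS : ∀ x ∈ S, 0 < R x ∧ x ∈ NDC V ∧ CD V x (R x) M ∧
      (∀ y : E, ‖y - x‖ < R x → TC2 l F V y) ∧ Ω ∈ 𝓝 x ∧
      ∀ R₁ > R x, ∀ᶠ p : ι × E in l ×ˢ 𝓝 x, r p.1 p.2 ≤ R₁) :
    ∀ᶠ i in l, ∃ T : Finset E, T.card = S.card ∧
      ∀ y ∈ T, y ∈ Ω ∧ y ∈ NDC (F i) ∧ CD (F i) y (r i y) M := by
  classical
  obtain ⟨U, hU, hdisj⟩ := (S.finite_toSet).t2_separation
  have hev : ∀ᶠ i in l, ∀ x ∈ S, ∃ y ∈ U x ∩ Ω, y ∈ NDC (F i) ∧ CD (F i) y (r i y) M := by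
    rw [Filter.eventually_all_finset]
    intro x hx
    obtain ⟨hx1, hx2, hx3, hx4, hx5, hx6⟩ := hS x hx
    obtain ⟨R₁, hR₁, hp⟩ := CD.persist hx1 hx2 hx3 hx4
    obtain ⟨pa, hpa, pb, hpb, hab⟩ := eventually_prod_iff.1 (hx6 R₁ hR₁)
    have hN : (U x ∩ Ω) ∩ {y | pb y} ∈ 𝓝 x :=
      inter_mem (inter_mem ((hU x).2.mem_nhds (hU x).1) hx5) hpb
    filter_upwards [hp _ hN, hpa] with i hi hpi
    obtain ⟨y, hy, hy1, hy2⟩ := hi
    exact ⟨y, hy.1, hy1, hy2.mono (hab hpi hy.2) le_rfl⟩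
  filter_upwards [hev] with i hi
  choose! g hg1 hg2 using hi
  refine ⟨S.image g, ?_, ?_⟩
  · apply Finset.card_image_of_injOn
    intro x hx y hy hxy
    by_contra hne
    have hd := hdisj (Finset.mem_coe.1 hx) (Finset.mem_coe.1 hy) hne
    have h1 := (hg1 x hx).1
    have h2 := (hg1 y hy).1
    have hxy' : g x = g y := hxy
    rw [hxy'] at h1
    exact Set.disjoint_left.1 hd h1 h2
  · intro y hy
    obtain ⟨x, hx, rfl⟩ := Finset.mem_image.1 hy
    exact ⟨(hg1 x hx).2, hg2 x hx⟩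

end PC992CC
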