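import Mathlib
import Pool.Agent.Work.MP_992d6e_an.Final
import Pool.Agent.Work.MP_992d6e_an.CC.PstB

/-!
MP_992d6e_an, CC/LsC: adding one small charge at a generic place far away and perturbing all the
strengths, with `CD`.

PROOF. Copy the proof of `PC992.last_step` (`Final.lean`) with the following changes.
* The base point `b0` of the last charge is far away: let `R₀ > 0` with `‖x‖ < R₀` for all
`x ∈ S` (`PC992.exists_big S`); let `a0 = a ⟨0, hn⟩` and let `b0` be a point with
`‖b0‖ > 2 * R₀ + ‖a0‖` that is not in `S ∪ range a` (e.g. outside a large ball; or take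
`‖b0‖ > 2 * R₀ + ∑ j, ‖a j‖`). For `x ∈ S` and `ϱ x = Metric.infDist x (Set.range a)`:
`ϱ x ≤ dist x a0 ≤ R₀ + ‖a0‖` and `dist x b0 ≥ ‖b0‖ - ‖x‖ > R₀ + ‖a0‖ ≥ ϱ x`.
`ϱ x > 0` as `x ∉ range a`, `range a` is closed and nonempty
(`IsClosed.notMem_iff_infDist_pos`).
* Use `persist_finset_cd` with `R = ϱ` and `r p y = Metric.infDist y (Set.range a)`. If
`‖y - x‖ < ϱ x` then `y ∉ range a` and `y ≠ b0` (`dist y x < dist b0 x`), and the old proof of `TC2`
applies at `y`. For `R₁ > ϱ x`, eventually `infDist p.2 (range a) ≤ R₁`, by continuity of `infDist`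
(`Metric.continuous_infDist_pt`) and `Filter.Eventually.prod_inr`.
* The new points `x ∈ T` have `CD (F (η, b)) x (infDist x (range a)) B`, and
`infDist x (range a') ≤ infDist x (range a)` because `range a ⊆ range a'`
(`Metric.infDist_le_infDist_of_subset`, `range a` nonempty), so `CD.mono` applies. The points are in
`equilibria q' a'` by the last part of the old proof.
-/

namespace PC992CC

open Filter Topology Polynomial PC992 N62f3cee0 MeasureTheory

theorem last_step_cd {n : ℕ} (hn : 0 < n) (q : Fin n → ℝ) (a : Fin n → E)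
    (ha : Function.Injective a) {B : ℝ}
    (S : Finset E) (hS : ∀ x ∈ S, x ∈ NDC (potential q a) ∧ x ∉ Set.range a ∧
      CD (potential q a) x (Metric.infDist x (Set.range a)) B) :
    ∃ (q' : Fin (n + 1) → ℝ) (a' : Fin (n + 1) → E), Function.Injective a' ∧ (∀ j, q' j ≠ 0) ∧
      (∀ x ∈ equilibria q' a', HasNondegenerateHessianAt (potential q' a') x) ∧
      ∃ T : Finset E, T.card = S.card ∧ ∀ x ∈ T, x ∈ equilibria q' a' ∧
        CD (potential q' a') x (Metric.infDist x (Set.range a')) B := by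
  classical
  obtain ⟨R₀, hR₀, hR₀S⟩ := exists_big S
  have hrne : (Set.range a).Nonempty := ⟨a ⟨0, hn⟩, ⟨0, hn⟩, rfl⟩
  -- a base point for the last charge, far away
  obtain ⟨b0, hb0n⟩ : ∃ b0 : E, 2 * R₀ + ∑ j, ‖a j‖ < ‖b0‖ := by
    obtain ⟨e, he⟩ := exists_ne (0 : E)
    have he' : 0 < ‖e‖ := norm_pos_iff.mpr he
    have hsum : 0 ≤ ∑ j, ‖a j‖ := Finset.sum_nonneg fun j _ => norm_nonneg _
    refine ⟨((2 * R₀ + ∑ j, ‖a j‖ + 1) / ‖e‖) • e, ?_⟩
    rw [norm_smul, Real.norm_of_nonneg (by positivity), div_mul_cancel₀ _ he'.ne']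
    linarith
  have hsum1 : ∀ j, ‖a j‖ ≤ ∑ i, ‖a i‖ := fun j =>
    Finset.single_le_sum (f := fun i => ‖a i‖) (fun i _ => norm_nonneg _) (Finset.mem_univ j)
  have hb0a : b0 ∉ Set.range a := by
    rintro ⟨j, rfl⟩
    have := hsum1 j
    linarith
  have hfar : ∀ x ∈ S, Metric.infDist x (Set.range a) < dist x b0 := by
    intro x hx
    have h1 : Metric.infDist x (Set.range a) ≤ dist x (a ⟨0, hn⟩) :=
      Metric.infDist_le_dist_of_mem ⟨⟨0, hn⟩, rfl⟩
    have h2 : dist x (a ⟨0, hn⟩) ≤ ‖x‖ + ‖a ⟨0, hn⟩‖ := by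
      rw [dist_eq_norm]
      exact norm_sub_le _ _
    have h3 : ‖b0‖ - ‖x‖ ≤ dist x b0 := by
      rw [dist_comm, dist_eq_norm]
      exact norm_sub_norm_le _ _
    have h4 := hsum1 ⟨0, hn⟩
    have h5 := hR₀S x hx
    linarith
  have hrange : IsClosed (Set.range a) := (Set.finite_range a).isClosed
  have hpos : ∀ x ∈ S, 0 < Metric.infDist x (Set.range a) := fun x hx =>
    (hrange.notMem_iff_infDist_pos hrne).mp (hS x hx).2.1
  have hb0S : ∀ x ∈ S, x ≠ b0 := by
    rintro x hx rfl
    have h1 := hfar x hx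
    rw [dist_self] at h1
    exact absurd h1 (not_lt.mpr Metric.infDist_nonneg)
  obtain ⟨r, hr, hrS⟩ : ∃ r : ℝ, 0 < r ∧ ∀ x ∈ S, r < dist x b0 := by
    obtain ⟨δ, hδ, h⟩ := exists_small (S.image (fun x => x - b0)) (by
      intro x hx
      obtain ⟨y, hy, rfl⟩ := Finset.mem_image.mp hx
      exact sub_ne_zero.mpr (hb0S y hy))
    refine ⟨δ, hδ, fun x hx => ?_⟩
    rw [dist_eq_norm]
    exact h _ (Finset.mem_image_of_mem _ hx)
  let Ω : Set E := {x | x ∉ Set.range a ∧ r < dist x b0}
  have hΩ : IsOpen Ω := hrange.isOpen_compl.inter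
    (isOpen_lt continuous_const (continuous_id.dist continuous_const))
  let F : ℝ × E → E → ℝ := fun p x =>
    (potential q a x + p.1 * ∑ j, ‖x - a j‖⁻¹) + p.1 * ‖x - p.2‖⁻¹
  let l : Filter (ℝ × E) := 𝓝[>] (0 : ℝ) ×ˢ 𝓝 b0
  have hη : Tendsto (fun p : ℝ × E => p.1) l (𝓝 0) :=
    tendsto_fst.mono_right nhdsWithin_le_nhds
  have hFy : ∀ y : E, y ∉ Set.range a → y ≠ b0 → TC2 l F (potential q a) y := by
    intro y h2 h3
    have t1 : TC2 l (fun _ => potential q a) (potential q a) y :=
      TC2.const (potential_contDiffAt q a h2)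
    have t2 : TC2 l (fun _ x => ∑ j, ‖x - a j‖⁻¹) (fun x => ∑ j, ‖x - a j‖⁻¹) y :=
      TC2.const (ContDiffAt.sum fun j _ =>
        inv_dist_contDiffAt (fun h => h2 ⟨j, h.symm⟩))
    have t3 : TC2 l (fun (p : ℝ × E) x => ‖x - p.2‖⁻¹) (fun x => ‖x - b0‖⁻¹) y :=
      TC2.translate (f := fun y => ‖y‖⁻¹) tendsto_snd
        (inv_norm_contDiffAt (sub_ne_zero.mpr h3))
    have t4 := (t1.add (t2.mul hη)).add (t3.mul hη)
    have t5 : (fun x => potential q a x + 0 * ∑ j, ‖x - a j‖⁻¹ + 0 * ‖x - b0‖⁻¹) =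
        potential q a := by
      funext y
      ring
    rw [t5] at t4
    exact t4
  have hF : ∀ x ∈ S, 0 < Metric.infDist x (Set.range a) ∧ x ∈ NDC (potential q a) ∧
      CD (potential q a) x (Metric.infDist x (Set.range a)) B ∧
      (∀ y : E, ‖y - x‖ < Metric.infDist x (Set.range a) → TC2 l F (potential q a) y) ∧
      Ω ∈ 𝓝 x ∧
      ∀ R₁ > Metric.infDist x (Set.range a), ∀ᶠ p : (ℝ × E) × E in l ×ˢ 𝓝 x,
        Metric.infDist p.2 (Set.range a) ≤ R₁ := by
    intro x hx
    obtain ⟨h1, h2, h3⟩ := hS x hx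
    refine ⟨hpos x hx, h1, h3, ?_, hΩ.mem_nhds ⟨h2, hrS x hx⟩, ?_⟩
    · intro y hy
      apply hFy
      · intro hya
        have h4 := Metric.infDist_le_dist_of_mem (x := x) hya
        rw [dist_comm, dist_eq_norm] at h4
        linarith
      · rintro rfl
        have h4 := hfar x hx
        rw [dist_comm, dist_eq_norm] at h4
        linarith
    · intro R₁ hR₁
      have hc : Continuous fun y : E => Metric.infDist y (Set.range a) :=
        Metric.continuous_infDist_pt _
      have h4 : ∀ᶠ y : E in 𝓝 x, Metric.infDist y (Set.range a) < R₁ :=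
        hc.continuousAt.eventually_lt_const hR₁
      exact (h4.mono fun y hy => hy.le).prod_inr l
  have ev1 := (persist_finset_cd S Ω (fun x => Metric.infDist x (Set.range a))
    (fun _ y => Metric.infDist y (Set.range a)) hF).curry
  have ev2 : ∀ᶠ η : ℝ in 𝓝[>] (0 : ℝ), 0 < η := eventually_mem_nhdsWithin
  have ev3 : ∀ᶠ η : ℝ in 𝓝[>] (0 : ℝ), ∀ j, q j + η ≠ 0 := by
    rw [eventually_all]
    intro j
    by_cases hj : q j = 0
    · filter_upwards [ev2] with η h
      rw [hj, zero_add]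
      exact h.ne'
    · have : ∀ᶠ η : ℝ in 𝓝 (0 : ℝ), q j + η ≠ 0 := by
        have hc : ContinuousAt (fun η : ℝ => q j + η) 0 := by fun_prop
        exact hc.eventually_ne (by simpa using hj)
      exact mem_nhdsWithin_of_mem_nhds this
  obtain ⟨η, hev, hη0, hqη⟩ := (ev1.and (ev2.and ev3)).exists
  let V1 : E → ℝ := fun x => potential q a x + η * ∑ j, ‖x - a j‖⁻¹
  have hV1 : ∀ x ∈ (Set.range a)ᶜ, ContDiffAt ℝ 2 V1 x := by
    intro x hx
    exact (potential_contDiffAt q a hx).add (contDiffAt_const.mul (ContDiffAt.sum fun j _ =>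
        inv_dist_contDiffAt (fun h => hx ⟨j, h.symm⟩)))
  have hsard := sard_last (Set.range a)ᶜ hrange.isOpen_compl V1 hV1 η hη0.ne'
  have hdense := MeasureTheory.Measure.dense_of_ae hsard
  have ev4 : ∀ᶠ b : E in 𝓝 b0, b ∉ Set.range a ∧ dist b b0 < r :=
    ((hrange.isOpen_compl.inter (isOpen_lt (continuous_id.dist continuous_const)
      continuous_const)).mem_nhds ⟨hb0a, by simpa using hr⟩)
  obtain ⟨b, hbs, hbe, hba, hbr⟩ :
      ∃ b : E, (∀ x ∈ (Set.range a)ᶜ, x ≠ b →
        fderiv ℝ (fun y => V1 y + η / dist y b) x = 0 →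
        ∀ v, fderiv ℝ (fderiv ℝ (fun y => V1 y + η / dist y b)) x v = 0 → v = 0) ∧
        (∃ T : Finset E, T.card = S.card ∧ ∀ x ∈ T, x ∈ Ω ∧ x ∈ NDC (F (η, b)) ∧
          CD (F (η, b)) x (Metric.infDist x (Set.range a)) B) ∧
        b ∉ Set.range a ∧ dist b b0 < r := by
    have hmem := hev.and ev4
    obtain ⟨b, hb1, hb2⟩ := hdense.inter_nhds_nonempty hmem
    exact ⟨b, hb1, hb2⟩
  obtain ⟨T, hTc, hT⟩ := hbe
  let q' : Fin (n + 1) → ℝ := Fin.snoc (fun j => q j + η) η
  let a' : Fin (n + 1) → E := Fin.snoc a b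
  have hpot : potential q' a' = fun y => V1 y + η / dist y b := by
    funext y
    simp only [potential, V1, q', a', Fin.sum_univ_castSucc, Fin.snoc_castSucc, Fin.snoc_last]
    congr 1
    rw [Finset.mul_sum, ← Finset.sum_add_distrib]
    apply Finset.sum_congr rfl
    intro j _
    rw [dist_eq_norm]
    ring
  have hpotF : potential q' a' = F (η, b) := by
    rw [hpot]
    funext y
    simp only [F, V1]
    rw [dist_eq_norm]
    ring
  have hrange' : ∀ x : E, x ∉ Set.range a' ↔ x ∉ Set.range a ∧ x ≠ b := by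
    intro x
    constructor
    · intro h
      refine ⟨?_, ?_⟩
      · rintro ⟨j, rfl⟩
        exact h ⟨Fin.castSucc j, by simp [a']⟩
      · rintro rfl
        exact h ⟨Fin.last n, by simp [a']⟩
    · rintro ⟨h1, h2⟩ ⟨j, hj⟩
      induction j using Fin.lastCases with
      | last => exact h2 (by simpa [a'] using hj.symm)
      | cast j => exact h1 ⟨j, by simpa [a'] using hj⟩
  have hsub : Set.range a ⊆ Set.range a' := by
    rintro x ⟨j, rfl⟩
    exact ⟨Fin.castSucc j, by simp [a']⟩
  refine ⟨q', a', ?_, ?_, ?_, T, hTc, ?_⟩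
  · intro i j hij
    induction i using Fin.lastCases with
    | last =>
      induction j using Fin.lastCases with
      | last => rfl
      | cast j =>
        exfalso
        apply hba
        exact ⟨j, by simpa [a'] using hij.symm⟩
    | cast i =>
      induction j using Fin.lastCases with
      | last =>
        exfalso
        apply hba
        exact ⟨i, by simpa [a'] using hij⟩
      | cast j =>
        have : a i = a j := by simpa [a'] using hij
        rw [ha this]
  · intro j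
    induction j using Fin.lastCases with
    | last => simpa [q'] using hη0.ne'
    | cast j => simpa [q'] using hqη j
  · rintro x ⟨hx1, hx2⟩
    rw [hrange'] at hx1
    rw [gradient_eq_zero_iff, hpot] at hx2
    intro v hv
    by_contra hcon
    push Not at hcon
    apply hv
    apply hbs x hx1.1 hx1.2 hx2 v
    ext w
    have := hcon w
    rw [hpot, iteratedFDeriv_two_apply] at this
    simpa using this
  · intro x hx
    obtain ⟨⟨hx1, hx2⟩, hx3, hx4⟩ := hT x hx
    refine ⟨⟨?_, ?_⟩, ?_⟩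
    · rw [hrange']
      refine ⟨hx1, ?_⟩
      rintro rfl
      linarith
    · rw [gradient_eq_zero_iff, hpotF]
      exact hx3.2.1
    · rw [hpotF]
      exact hx4.mono (Metric.infDist_le_infDist_of_subset hsub hrne) le_rfl

end PC992CC
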