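import Mathlib
import Pool.Agent.Work.MP_992d6e_an.Model

/-!
MP_992d6e_an, CC/HessU: the Hessian of the two-term model at a unit critical point
`ω = u e + v f + y g`.

PROOF. As in the proof of `PC992.model_point` (with `t = 1`; copy the facts `‖ω‖ = 1`,
`<e,ω> = u`, `<f,ω> = v` and the use of `PC992.fderiv2_comb`, `PC992.Ek_eq_Phi`,
`PC992.Phi_fderiv2_crit` with `t = 1`, `one_smul`): the Hessian is
`α (-(a+1) P_a(u) (<z,w> - (a+3) <ω,z><ω,w>) + P_a''(u) (<e,z> - u<ω,z>)(<e,w> - u<ω,w>))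
+ σ (-(a+2) P_(a+1)(v) (<z,w> - (a+4) <ω,z><ω,w>) + P_(a+1)''(v) (<f,z> - v<ω,z>)(<f,w> - v<ω,w>))`.
With `lam = -(α (a+1) P_a(u)) = σ (a+2) P_(a+1)(v)` (`hrel`) the first parts of the two lines add up
to `lam (<z,w> - (a+3)<ω,z><ω,w>) - lam (<z,w> - (a+4)<ω,z><ω,w>) = lam <ω,z><ω,w>`; and by
`PC992.P_ode_eval` at the critical points `u`, `v`:
`(1-u²) P_a''(u) = -a(a+1) P_a(u)`, so `α P_a''(u) = lam a / (1-u²)`; and
`(1-v²) P_(a+1)''(v) = -(a+1)(a+2) P_(a+1)(v)`, so `σ P_(a+1)''(v) = -(a+1) lam / (1-v²)`.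
-/

namespace PC992CC

open Polynomial PC992

theorem hess_model (a : ℕ) {e f g : E} (hfr : Frame e f g) {α σ u v y : ℝ}
    (hu7 : |u| ≤ 7 / 10) (hv7 : |v| ≤ 7 / 10)
    (hu : (derivative (P a)).eval u = 0) (hv : (derivative (P (a + 1))).eval v = 0)
    (hy : u ^ 2 + v ^ 2 + y ^ 2 = 1)
    (hrel : α * (a + 1) * (P a).eval u + σ * (a + 2) * (P (a + 1)).eval v = 0)
    {ω : E} (hω : ω = u • e + v • f + y • g) (z w : E) :
    fderiv ℝ (fderiv ℝ (fun x => α * Ek a e x + σ * Ek (a + 1) f x)) ω z w =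
      -(α * (a + 1) * (P a).eval u) * (inner ℝ ω z * inner ℝ ω w
        + a / (1 - u ^ 2) * (inner ℝ e z - u * inner ℝ ω z) * (inner ℝ e w - u * inner ℝ ω w)
        - (a + 1) / (1 - v ^ 2) * (inner ℝ f z - v * inner ℝ ω z) *
          (inner ℝ f w - v * inner ℝ ω w)) := by
  obtain ⟨he, hf, hg, hef, heg, hfg, hspan⟩ := hfr
  have hfe : inner ℝ f e = (0 : ℝ) := by rw [real_inner_comm, hef]
  have hge : inner ℝ g e = (0 : ℝ) := by rw [real_inner_comm, heg]
  have hgf : inner ℝ g f = (0 : ℝ) := by rw [real_inner_comm, hfg]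
  have hωω : inner ℝ ω ω = (1 : ℝ) := by
    simp only [hω, inner_add_left, inner_add_right, real_inner_smul_left,
      real_inner_smul_right, he, hf, hg, hef, heg, hfg, hfe, hge, hgf]
    linarith [hy]
  have hω1 : ‖ω‖ = 1 := by
    have : ‖ω‖ ^ 2 = 1 := by rw [← real_inner_self_eq_norm_sq, hωω]
    nlinarith [norm_nonneg ω]
  have heω : inner ℝ e ω = u := by
    simp only [hω, inner_add_right, real_inner_smul_right, he, hef, heg]
    ring
  have hfω : inner ℝ f ω = v := by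
    simp only [hω, inner_add_right, real_inner_smul_right, hf, hfe, hfg]
    ring
  have hω0 : ω ≠ 0 := by
    rintro h
    rw [h] at hω1
    simp at hω1
  have hF : ContDiffAt ℝ 2 (Ek a e) ω := Ek_contDiffAt a e hω0 2
  have hG : ContDiffAt ℝ 2 (Ek (a + 1) f) ω := Ek_contDiffAt (a + 1) f hω0 2
  have h1 := Phi_fderiv2_crit (a + 1) (P a) e hω1 one_pos (by rw [heω]; exact hu) z w
  have h2 := Phi_fderiv2_crit (a + 1 + 1) (P (a + 1)) f hω1 one_pos
    (by rw [hfω]; exact hv) z w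
  rw [heω] at h1
  rw [hfω] at h2
  rw [one_smul] at h1 h2
  rw [fderiv2_comb hF hG, Ek_eq_Phi, Ek_eq_Phi, _root_.add_apply, _root_.add_apply,
    _root_.smul_apply, _root_.smul_apply, _root_.smul_apply, _root_.smul_apply, h1, h2,
    smul_eq_mul, smul_eq_mul]
  have hode1 := congrArg (Polynomial.eval u) (P_ode a)
  have hode2 := congrArg (Polynomial.eval v) (P_ode (a + 1))
  simp [hu] at hode1
  simp [hv] at hode2
  have hu1 : (1 : ℝ) - u ^ 2 ≠ 0 := by
    have := abs_le.mp hu7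
    nlinarith [this.1, this.2]
  have hv1 : (1 : ℝ) - v ^ 2 ≠ 0 := by
    have := abs_le.mp hv7
    nlinarith [this.1, this.2]
  set p := (P a).eval u with hp
  set q := (P (a + 1)).eval v with hq
  set p2 := (derivative (derivative (P a))).eval u with hp2
  set q2 := (derivative (derivative (P (a + 1)))).eval v with hq2
  set A := inner ℝ ω z with hA
  set B := inner ℝ ω w with hB
  set C := inner ℝ z w with hC
  set X := (inner ℝ e z - u * A) * (inner ℝ e w - u * B) with hX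
  set Y := (inner ℝ f z - v * A) * (inner ℝ f w - v * B) with hY
  have e1 : α * p2 = -(α * (a + 1) * p) * (a / (1 - u ^ 2)) := by
    have hh : p2 * (1 - u ^ 2) = -(a * (a + 1) * p) := by linarith [hode1]
    rw [show -(α * (a + 1) * p) * (a / (1 - u ^ 2)) = α * (-(a * (a + 1) * p)) / (1 - u ^ 2) by
      ring, ← hh]
    field_simp
  have e2 : σ * q2 = -(α * (a + 1) * p) * (-((a + 1) / (1 - v ^ 2))) := by
    have hh : q2 * (1 - v ^ 2) = -((a + 1) * (a + 2) * q) := by linarith [hode2]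
    have hh2 : -(α * (a + 1) * p) = σ * (a + 2) * q := by linarith
    rw [hh2, show σ * (a + 2) * q * (-((a + 1) / (1 - v ^ 2))) =
      σ * (-((a + 1) * (a + 2) * q)) / (1 - v ^ 2) by ring, ← hh]
    field_simp
  push_cast
  simp only [one_pow, inv_one, one_mul]
  linear_combination ((inner ℝ e z - u * A) * (inner ℝ e w - u * B)) * e1 +
    ((inner ℝ f z - v * A) * (inner ℝ f w - v * B)) * e2 - (C - (a + 4) * A * B) * hrel

end PC992CC
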