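import Mathlib
import Pool.Agent.Work.MP_992d6e_an.CC.HessU

/-!
MP_992d6e_an, CC/HessN: bounds for the bilinear form of `HessU`.

Let `A : E →L[ℝ] E →L[ℝ] ℝ` be given by the formula of `hess_model` with `lam` in front.
UPPER BOUND. `<e,z> - u<ω,z> = <e - u ω, z>` and `‖e - u ω‖² = 1 - u²`, so
`|<e,z> - u<ω,z>| |<e,w> - u<ω,w>| ≤ (1-u²) ‖z‖ ‖w‖`; the same for `f`, `v`. So
`|A z w| ≤ |lam| (1 + a + (a+1)) ‖z‖ ‖w‖`.
LOWER BOUND. Put `η = ‖A z‖ / |lam|` (so `|A z w| ≤ |lam| η ‖w‖` for all `w`). Here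
`<ω,ω> = 1`, `<e,ω> = u`, `<f,ω> = v`, `y² = 1 - u² - v² ≥ 1 - 0.98 = 0.02`, so `|y| ≥ 0.1414`.
(1) `w = ω`: `A z ω = lam <ω,z>`, so `|<ω,z>| ≤ η`.
(2) `w = y e - u g`: `<ω,w> = u y - u y = 0`, `<e,w> = y`, `<f,w> = 0`, `‖w‖² = y² + u² ≤ 1`; so
`A z w = lam * a / (1-u²) * (<e,z> - u<ω,z>) * y`, hence `|<e,z> - u<ω,z>| * |y| ≤ (1-u²) η / a ≤ η`
(as `a ≥ 1`).
(3) `w = y f - v g`: in the same way `|<f,z> - v<ω,z>| * |y| ≤ η / (a+1) ≤ η / 2`.
(4) `|<e,z>| ≤ |u| |<ω,z>| + η/|y| ≤ (0.7 + 7.08) η ≤ 7.78 η`; `|<f,z>| ≤ (0.7 + 3.54) η ≤ 4.24 η`.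
(5) `<ω,z> = u<e,z> + v<f,z> + y<g,z>`, so `y<g,z> = y²<ω,z> - u(<e,z> - u<ω,z>) - v(<f,z> - v<ω,z>)`
and, multiplying by `|y|`: `y² |<g,z>| ≤ |y|^3 η + 0.7 η + 0.35 η`, so
`|<g,z>| ≤ η + 1.05 η / 0.02 = 53.5 η`.
(6) `z = <e,z> e + <f,z> f + <g,z> g` (the difference is orthogonal to `e`, `f`, `g`: `Frame.span`),
so `‖z‖ ≤ |<e,z>| + |<f,z>| + |<g,z>| ≤ 66 η ≤ 70 η`.
-/

namespace PC992CC

open Polynomial PC992

private theorem fr_basic {e f g : E} (hfr : Frame e f g) {u v y : ℝ}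
    (hy : u ^ 2 + v ^ 2 + y ^ 2 = 1) {ω : E} (hω : ω = u • e + v • f + y • g) :
    inner ℝ ω ω = (1 : ℝ) ∧ inner ℝ e ω = u ∧ inner ℝ f ω = v ∧ inner ℝ g ω = y := by
  obtain ⟨he, hf, hg, hef, heg, hfg, hspan⟩ := hfr
  have hfe : inner ℝ f e = (0 : ℝ) := by rw [real_inner_comm, hef]
  have hge : inner ℝ g e = (0 : ℝ) := by rw [real_inner_comm, heg]
  have hgf : inner ℝ g f = (0 : ℝ) := by rw [real_inner_comm, hfg]
  refine ⟨?_, ?_, ?_, ?_⟩
  · simp only [hω, inner_add_left, inner_add_right, real_inner_smul_left,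
      real_inner_smul_right, he, hf, hg, hef, heg, hfg, hfe, hge, hgf]
    linarith [hy]
  · simp only [hω, inner_add_right, real_inner_smul_right, he, hef, heg]
    ring
  · simp only [hω, inner_add_right, real_inner_smul_right, hf, hfe, hfg]
    ring
  · simp only [hω, inner_add_right, real_inner_smul_right, hg, hge, hgf]
    ring

private theorem norm_one_of {x : E} (h : inner ℝ x x = (1 : ℝ)) : ‖x‖ = 1 := by
  have : ‖x‖ ^ 2 = 1 := by rw [← real_inner_self_eq_norm_sq, h]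
  nlinarith [norm_nonneg x]

/-- product of two projections -/
private theorem proj_prod {e ω : E} {u : ℝ} (he : inner ℝ e e = (1 : ℝ)) (hω : inner ℝ ω ω = (1 : ℝ))
    (hu : inner ℝ e ω = u) (z w : E) :
    |(inner ℝ e z - u * inner ℝ ω z) * (inner ℝ e w - u * inner ℝ ω w)| ≤
      (1 - u ^ 2) * (‖z‖ * ‖w‖) := by
  have h1 : ∀ z : E, inner ℝ e z - u * inner ℝ ω z = inner ℝ (e - u • ω) z := fun z => by
    rw [inner_sub_left, real_inner_smul_left]
  have h2 : ‖e - u • ω‖ ^ 2 = 1 - u ^ 2 := by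
    rw [← real_inner_self_eq_norm_sq]
    simp only [inner_sub_left, inner_sub_right, real_inner_smul_left, real_inner_smul_right, he, hω,
      real_inner_comm e ω, hu]
    ring
  rw [h1, h1, abs_mul]
  have h3 := abs_real_inner_le_norm (e - u • ω) z
  have h4 := abs_real_inner_le_norm (e - u • ω) w
  calc |inner ℝ (e - u • ω) z| * |inner ℝ (e - u • ω) w| ≤
      (‖e - u • ω‖ * ‖z‖) * (‖e - u • ω‖ * ‖w‖) :=
        mul_le_mul h3 h4 (abs_nonneg _) (by positivity)
    _ = ‖e - u • ω‖ ^ 2 * (‖z‖ * ‖w‖) := by ring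
    _ = (1 - u ^ 2) * (‖z‖ * ‖w‖) := by rw [h2]

theorem form_upper (a : ℕ) {e f g : E} (hfr : Frame e f g) {lam u v y : ℝ}
    (hu7 : |u| ≤ 7 / 10) (hv7 : |v| ≤ 7 / 10) (hy : u ^ 2 + v ^ 2 + y ^ 2 = 1)
    {ω : E} (hω : ω = u • e + v • f + y • g) (A : E →L[ℝ] E →L[ℝ] ℝ)
    (hA : ∀ z w : E, A z w = lam * (inner ℝ ω z * inner ℝ ω w
        + a / (1 - u ^ 2) * (inner ℝ e z - u * inner ℝ ω z) * (inner ℝ e w - u * inner ℝ ω w)
        - (a + 1) / (1 - v ^ 2) * (inner ℝ f z - v * inner ℝ ω z) *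
          (inner ℝ f w - v * inner ℝ ω w))) :
    ‖A‖ ≤ (2 * a + 2) * |lam| := by
  obtain ⟨h1, h2, h3, h4⟩ := fr_basic hfr hy hω
  have hω1 := norm_one_of h1
  have hu1 : 0 < 1 - u ^ 2 := by nlinarith [sq_abs u, abs_nonneg u]
  have hv1 : 0 < 1 - v ^ 2 := by nlinarith [sq_abs v, abs_nonneg v]
  have ha : (0 : ℝ) ≤ a := Nat.cast_nonneg a
  refine ContinuousLinearMap.opNorm_le_bound₂ _ (by positivity) fun z w => ?_
  rw [hA, Real.norm_eq_abs, abs_mul]
  have b1 : |inner ℝ ω z * inner ℝ ω w| ≤ ‖z‖ * ‖w‖ := by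
    rw [abs_mul]
    have h5 := abs_real_inner_le_norm ω z
    have h6 := abs_real_inner_le_norm ω w
    rw [hω1, one_mul] at h5 h6
    exact mul_le_mul h5 h6 (abs_nonneg _) (norm_nonneg _)
  have b2 : |a / (1 - u ^ 2) * (inner ℝ e z - u * inner ℝ ω z) * (inner ℝ e w - u * inner ℝ ω w)| ≤
      a * (‖z‖ * ‖w‖) := by
    rw [mul_assoc, abs_mul, abs_of_nonneg (by positivity : (0 : ℝ) ≤ a / (1 - u ^ 2))]
    calc a / (1 - u ^ 2) * |(inner ℝ e z - u * inner ℝ ω z) * (inner ℝ e w - u * inner ℝ ω w)| ≤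
        a / (1 - u ^ 2) * ((1 - u ^ 2) * (‖z‖ * ‖w‖)) :=
          mul_le_mul_of_nonneg_left (proj_prod hfr.he h1 h2 z w) (by positivity)
      _ = a * (‖z‖ * ‖w‖) := by field_simp
  have b3 : |(a + 1) / (1 - v ^ 2) * (inner ℝ f z - v * inner ℝ ω z) *
      (inner ℝ f w - v * inner ℝ ω w)| ≤ (a + 1) * (‖z‖ * ‖w‖) := by
    rw [mul_assoc, abs_mul, abs_of_nonneg (by positivity : (0 : ℝ) ≤ (a + 1) / (1 - v ^ 2))]
    calc (a + 1) / (1 - v ^ 2) * |(inner ℝ f z - v * inner ℝ ω z) * (inner ℝ f w - v * inner ℝ ω w)| ≤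
        (a + 1) / (1 - v ^ 2) * ((1 - v ^ 2) * (‖z‖ * ‖w‖)) :=
          mul_le_mul_of_nonneg_left (proj_prod hfr.hf h1 h3 z w) (by positivity)
      _ = (a + 1) * (‖z‖ * ‖w‖) := by field_simp
  have b4 : |inner ℝ ω z * inner ℝ ω w
        + a / (1 - u ^ 2) * (inner ℝ e z - u * inner ℝ ω z) * (inner ℝ e w - u * inner ℝ ω w)
        - (a + 1) / (1 - v ^ 2) * (inner ℝ f z - v * inner ℝ ω z) *
          (inner ℝ f w - v * inner ℝ ω w)| ≤ (2 * a + 2) * (‖z‖ * ‖w‖) := by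
    refine (abs_sub _ _).trans ?_
    have := abs_add_le (inner ℝ ω z * inner ℝ ω w)
      (a / (1 - u ^ 2) * (inner ℝ e z - u * inner ℝ ω z) * (inner ℝ e w - u * inner ℝ ω w))
    linarith
  calc |lam| * _ ≤ |lam| * ((2 * a + 2) * (‖z‖ * ‖w‖)) :=
        mul_le_mul_of_nonneg_left b4 (abs_nonneg _)
    _ = (2 * a + 2) * |lam| * ‖z‖ * ‖w‖ := by ring

theorem form_lower (a : ℕ) (ha : 1 ≤ a) {e f g : E} (hfr : Frame e f g) {lam u v y : ℝ}
    (hu7 : |u| ≤ 7 / 10) (hv7 : |v| ≤ 7 / 10) (hy : u ^ 2 + v ^ 2 + y ^ 2 = 1)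
    {ω : E} (hω : ω = u • e + v • f + y • g) (A : E →L[ℝ] E →L[ℝ] ℝ)
    (hA : ∀ z w : E, A z w = lam * (inner ℝ ω z * inner ℝ ω w
        + a / (1 - u ^ 2) * (inner ℝ e z - u * inner ℝ ω z) * (inner ℝ e w - u * inner ℝ ω w)
        - (a + 1) / (1 - v ^ 2) * (inner ℝ f z - v * inner ℝ ω z) *
          (inner ℝ f w - v * inner ℝ ω w))) (z : E) :
    |lam| / 70 * ‖z‖ ≤ ‖A z‖ := by
  obtain ⟨h1, h2, h3, h4⟩ := fr_basic hfr hy hω
  obtain ⟨he, hf, hg, hef, heg, hfg, hspan⟩ := hfr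
  have hfe : inner ℝ f e = (0 : ℝ) := by rw [real_inner_comm, hef]
  have hge : inner ℝ g e = (0 : ℝ) := by rw [real_inner_comm, heg]
  have hgf : inner ℝ g f = (0 : ℝ) := by rw [real_inner_comm, hfg]
  have h2' : inner ℝ ω e = u := by rw [real_inner_comm, h2]
  have h3' : inner ℝ ω f = v := by rw [real_inner_comm, h3]
  have h4' : inner ℝ ω g = y := by rw [real_inner_comm, h4]
  have hω1 := norm_one_of h1
  have hu2 : u ^ 2 ≤ 49 / 100 := by nlinarith [sq_abs u, abs_nonneg u]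
  have hv2 : v ^ 2 ≤ 49 / 100 := by nlinarith [sq_abs v, abs_nonneg v]
  have hu1 : 0 < 1 - u ^ 2 := by linarith
  have hv1 : 0 < 1 - v ^ 2 := by linarith
  have ha1 : (1 : ℝ) ≤ a := by exact_mod_cast ha
  set I : ℝ := inner ℝ ω z with hI
  set Ie : ℝ := inner ℝ e z with hIe
  set If : ℝ := inner ℝ f z with hIf
  set Ig : ℝ := inner ℝ g z with hIg
  set p : ℝ := Ie - u * I with hp
  set q : ℝ := If - v * I with hq
  set N : ℝ := ‖A z‖ with hN
  set L : ℝ := |lam| with hL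
  have hL0 : 0 ≤ L := abs_nonneg _
  have hN0 : 0 ≤ N := norm_nonneg _
  have hop : ∀ w : E, ‖w‖ ≤ 1 → |A z w| ≤ N := by
    intro w hw
    have h5 := (A z).le_opNorm w
    rw [Real.norm_eq_abs] at h5
    exact h5.trans (mul_le_of_le_one_right hN0 hw)
  have hIexp : I = u * Ie + v * If + y * Ig := by
    rw [hI, hω]
    simp only [inner_add_left, real_inner_smul_left]
    rfl
  -- (1)
  have s1 : L * |I| ≤ N := by
    have h5 := hop ω hω1.le
    rw [hA, h1, h2, h3] at h5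
    have h6 : lam * (I * 1 + a / (1 - u ^ 2) * (Ie - u * I) * (u - u * 1) -
        (a + 1) / (1 - v ^ 2) * (If - v * I) * (v - v * 1)) = lam * I := by ring
    rw [h6, abs_mul] at h5
    exact h5
  -- (2)
  have s2 : L * |p| * |y| ≤ N := by
    have w1 : inner ℝ ω (y • e - u • g) = (0 : ℝ) := by
      simp only [inner_sub_right, real_inner_smul_right, h2', h4']
      ring
    have w2 : inner ℝ e (y • e - u • g) = y := by
      simp only [inner_sub_right, real_inner_smul_right, he, heg]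
      ring
    have w3 : inner ℝ f (y • e - u • g) = (0 : ℝ) := by
      simp only [inner_sub_right, real_inner_smul_right, hfe, hfg]
      ring
    have w4 : ‖y • e - u • g‖ ≤ 1 := by
      have : ‖y • e - u • g‖ ^ 2 = y ^ 2 + u ^ 2 := by
        rw [← real_inner_self_eq_norm_sq]
        simp only [inner_sub_left, inner_sub_right, real_inner_smul_left, real_inner_smul_right, he, hg,
          heg, hge]
        ring
      nlinarith [norm_nonneg (y • e - u • g), sq_nonneg v]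
    have h5 := hop _ w4
    rw [hA, w1, w2, w3] at h5
    have h6 : lam * (I * 0 + a / (1 - u ^ 2) * (Ie - u * I) * (y - u * 0) -
        (a + 1) / (1 - v ^ 2) * (If - v * I) * (0 - v * 0)) = a / (1 - u ^ 2) * (lam * p * y) := by
      rw [hp]
      ring
    rw [h6, abs_mul, abs_mul, abs_mul, abs_of_nonneg (by positivity : (0 : ℝ) ≤ a / (1 - u ^ 2))] at h5
    have h7 : 1 ≤ a / (1 - u ^ 2) := by
      rw [le_div_iff₀ hu1]
      nlinarith [sq_nonneg u]
    exact (le_mul_of_one_le_left (by positivity) h7).trans h5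
  -- (3)
  have s3 : L * |q| * |y| ≤ N / 2 := by
    have w1 : inner ℝ ω (y • f - v • g) = (0 : ℝ) := by
      simp only [inner_sub_right, real_inner_smul_right, h3', h4']
      ring
    have w2 : inner ℝ e (y • f - v • g) = (0 : ℝ) := by
      simp only [inner_sub_right, real_inner_smul_right, hef, heg]
      ring
    have w3 : inner ℝ f (y • f - v • g) = y := by
      simp only [inner_sub_right, real_inner_smul_right, hf, hfg]
      ring
    have w4 : ‖y • f - v • g‖ ≤ 1 := by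
      have : ‖y • f - v • g‖ ^ 2 = y ^ 2 + v ^ 2 := by
        rw [← real_inner_self_eq_norm_sq]
        simp only [inner_sub_left, inner_sub_right, real_inner_smul_left, real_inner_smul_right, hf, hg,
          hfg, hgf]
        ring
      nlinarith [norm_nonneg (y • f - v • g), sq_nonneg u]
    have h5 := hop _ w4
    rw [hA, w1, w2, w3] at h5
    have h6 : lam * (I * 0 + a / (1 - u ^ 2) * (Ie - u * I) * (0 - u * 0) -
        (a + 1) / (1 - v ^ 2) * (If - v * I) * (y - v * 0)) = -((a + 1) / (1 - v ^ 2) * (lam * q * y)) := by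
      rw [hq]
      ring
    rw [h6, abs_neg, abs_mul, abs_mul, abs_mul,
      abs_of_nonneg (by positivity : (0 : ℝ) ≤ (a + 1) / (1 - v ^ 2))] at h5
    have h7 : 2 ≤ (a + 1) / (1 - v ^ 2) := by
      rw [le_div_iff₀ hv1]
      nlinarith [sq_nonneg v]
    have h8 : 2 * (L * |q| * |y|) ≤ (a + 1) / (1 - v ^ 2) * (|lam| * |q| * |y|) :=
      mul_le_mul_of_nonneg_right h7 (by positivity)
    linarith
  -- (4)
  have hy2 : 1 / 50 ≤ y ^ 2 := by linarith
  have hy1 : 1414 / 10000 ≤ |y| := by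
    by_contra h5
    push Not at h5
    nlinarith [sq_abs y, abs_nonneg y]
  have hyle : |y| ≤ 1 := by
    nlinarith [sq_abs y, abs_nonneg y, sq_nonneg u, sq_nonneg v]
  have t2 : L * |p| ≤ 708 / 100 * N := by
    have h5 : L * |p| * (1414 / 10000) ≤ N :=
      (mul_le_mul_of_nonneg_left hy1 (by positivity)).trans s2
    linarith
  have t3 : L * |q| ≤ 354 / 100 * N := by
    have h5 : L * |q| * (1414 / 10000) ≤ N / 2 :=
      (mul_le_mul_of_nonneg_left hy1 (by positivity)).trans s3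
    linarith
  have r1 : L * |Ie| ≤ 778 / 100 * N := by
    have h5 : |Ie| ≤ |p| + 7 / 10 * |I| := by
      have h6 : Ie = p + u * I := by rw [hp]; ring
      rw [h6]
      refine (abs_add_le _ _).trans ?_
      rw [abs_mul]
      have := mul_le_mul_of_nonneg_right hu7 (abs_nonneg I)
      linarith
    have h7 := mul_le_mul_of_nonneg_left h5 hL0
    linarith
  have r2 : L * |If| ≤ 424 / 100 * N := by
    have h5 : |If| ≤ |q| + 7 / 10 * |I| := by
      have h6 : If = q + v * I := by rw [hq]; ring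
      rw [h6]
      refine (abs_add_le _ _).trans ?_
      rw [abs_mul]
      have := mul_le_mul_of_nonneg_right hv7 (abs_nonneg I)
      linarith
    have h7 := mul_le_mul_of_nonneg_left h5 hL0
    linarith
  have r3 : L * |Ig| ≤ 5350 / 100 * N := by
    have h5 : y * Ig = y ^ 2 * I - u * p - v * q := by
      have h6 : y ^ 2 = 1 - u ^ 2 - v ^ 2 := by linarith
      rw [h6, hp, hq]
      linear_combination (-1 : ℝ) * hIexp
    have h6 : |y| * |Ig| ≤ y ^ 2 * |I| + 7 / 10 * |p| + 7 / 10 * |q| := by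
      rw [← abs_mul, h5]
      refine (abs_sub _ _).trans ?_
      have h7 := abs_sub (y ^ 2 * I) (u * p)
      have h8 : |y ^ 2 * I| = y ^ 2 * |I| := by rw [abs_mul, abs_of_nonneg (sq_nonneg y)]
      have h9 : |u * p| ≤ 7 / 10 * |p| := by
        rw [abs_mul]
        exact mul_le_mul_of_nonneg_right hu7 (abs_nonneg _)
      have h10 : |v * q| ≤ 7 / 10 * |q| := by
        rw [abs_mul]
        exact mul_le_mul_of_nonneg_right hv7 (abs_nonneg _)
      linarith
    have hsq : |y| * |y| = y ^ 2 := by rw [← sq_abs]; ring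
    have h7 : y ^ 2 * (L * |Ig|) ≤ y ^ 2 * (|y| * (L * |I|)) + 7 / 10 * (L * |p| * |y|) +
        7 / 10 * (L * |q| * |y|) := by
      have h8 := mul_le_mul_of_nonneg_left h6 (mul_nonneg hL0 (abs_nonneg y))
      have e1 : L * |y| * (|y| * |Ig|) = y ^ 2 * (L * |Ig|) := by
        rw [← hsq]
        ring
      have e2 : L * |y| * (y ^ 2 * |I| + 7 / 10 * |p| + 7 / 10 * |q|) =
          y ^ 2 * (|y| * (L * |I|)) + 7 / 10 * (L * |p| * |y|) + 7 / 10 * (L * |q| * |y|) := by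
        ring
      rw [e1, e2] at h8
      exact h8
    have h8 : |y| * (L * |I|) ≤ N := by
      have : |y| * (L * |I|) ≤ 1 * (L * |I|) := mul_le_mul_of_nonneg_right hyle (by positivity)
      linarith
    have h9 : y ^ 2 * (|y| * (L * |I|)) ≤ y ^ 2 * N := mul_le_mul_of_nonneg_left h8 (sq_nonneg y)
    have h10 : y ^ 2 * (L * |Ig|) ≤ y ^ 2 * N + 105 / 100 * N := by linarith
    have h11 : 105 / 100 * N ≤ y ^ 2 * (5250 / 100 * N) := by
      have := mul_le_mul_of_nonneg_right hy2 (by positivity : (0 : ℝ) ≤ 5250 / 100 * N)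
      linarith
    have h12 : y ^ 2 * (L * |Ig|) ≤ y ^ 2 * (5350 / 100 * N) := by
      have : y ^ 2 * (5350 / 100 * N) = y ^ 2 * N + y ^ 2 * (5250 / 100 * N) := by ring
      rw [this]
      linarith
    exact le_of_mul_le_mul_left h12 (by linarith)
  -- (6)
  have hz : z = Ie • e + If • f + Ig • g := by
    have h5 := hspan (z - (Ie • e + If • f + Ig • g)) (by
        simp only [inner_sub_right, inner_add_right, real_inner_smul_right, he, hef, heg]
        rw [← hIe]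
        ring) (by
        simp only [inner_sub_right, inner_add_right, real_inner_smul_right, hf, hfe, hfg]
        rw [← hIf]
        ring) (by
        simp only [inner_sub_right, inner_add_right, real_inner_smul_right, hg, hge, hgf]
        rw [← hIg]
        ring)
    exact sub_eq_zero.1 h5
  have hn : ‖z‖ ≤ |Ie| + |If| + |Ig| := by
    have n1 := norm_one_of he
    have n2 := norm_one_of hf
    have n3 := norm_one_of hg
    calc ‖z‖ = ‖Ie • e + If • f + Ig • g‖ := by rw [← hz]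
      _ ≤ ‖Ie • e‖ + ‖If • f‖ + ‖Ig • g‖ := norm_add₃_le
      _ = |Ie| + |If| + |Ig| := by
        rw [norm_smul, norm_smul, norm_smul, n1, n2, n3, mul_one, mul_one, mul_one, Real.norm_eq_abs,
          Real.norm_eq_abs, Real.norm_eq_abs]
  have h5 : L * ‖z‖ ≤ 70 * N := by
    have := mul_le_mul_of_nonneg_left hn hL0
    have e1 : L * (|Ie| + |If| + |Ig|) = L * |Ie| + L * |If| + L * |Ig| := by ring
    rw [e1] at this
    linarith
  linarith

end PC992CC
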