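import Mathlib
import Pool.Agent.Work.MP_992d6e_an.Sturm

/-!
MP_992d6e_an, CC/LegA: bounds for the polynomials `P k` (`(-1)^k k!` times the Legendre polynomial)
on `[-1, 1]`.

PROOF. Write `p = P k`. The function `g(x) = k(k+1) p(x)^2 + (1 - x^2) p'(x)^2` has
`g'(x) = 2 k(k+1) p p' - 2 x p'^2 + 2 (1 - x^2) p' p'' = 2 x p'(x)^2` by the differential equation
`PC992.P_ode_eval`: `(1 - x^2) p'' = 2 x p' - k(k+1) p`. So `g` is monotone on `[0, 1]` and antitone
on `[-1, 0]` (`monotoneOn_of_deriv_nonneg`, `antitoneOn_of_deriv_nonpos`; `g` is a polynomial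
function). By `PC992.P_succ`: `P (k+1)` at `1` is `-(k+1) * P k` at `1`, and at `-1` it is
`(k+1) * P k` at `-1`; so by induction `(P k).eval 1 ^ 2 = (P k).eval (-1) ^ 2 = (k!)^2`.
Hence for `|x| ≤ 1`: `g(x) ≤ max (g 1) (g (-1)) = k(k+1) (k!)^2`. This is `P_deriv_bound` because
`k(k+1) p(x)^2 ≥ 0`; and `P_bound` because `(1 - x^2) p'(x)^2 ≥ 0`: for `k ≥ 1` divide by `k(k+1)`,
for `k = 0` `p = 1`. At a critical point `u`, `g(u) = k(k+1) p(u)^2 ≥ g(0)`, which is
`P_crit_lower`.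
-/

namespace PC992CC

open Polynomial PC992

private noncomputable def gg (k : ℕ) (x : ℝ) : ℝ :=
  (k : ℝ) * (k + 1) * (P k).eval x ^ 2 + (1 - x ^ 2) * (derivative (P k)).eval x ^ 2

private theorem gg_deriv (k : ℕ) (x : ℝ) : HasDerivAt (gg k) (2 * x * (derivative (P k)).eval x ^ 2) x := by
  have h1 := (P k).hasDerivAt x
  have h2 := (derivative (P k)).hasDerivAt x
  have h3 : HasDerivAt (fun y : ℝ => 1 - y ^ 2) (-(2 * x)) x := by
    have := ((hasDerivAt_id x).pow 2).const_sub 1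
    refine this.congr_deriv ?_
    simp
  have h4 := ((h1.pow 2).const_mul ((k : ℝ) * (k + 1))).add (h3.mul (h2.pow 2))
  refine h4.congr_deriv ?_
  have h5 := P_ode_eval k x
  have h6 : (1 - x ^ 2) * (derivative (derivative (P k))).eval x =
      2 * x * (derivative (P k)).eval x - (k : ℝ) * (k + 1) * (P k).eval x := by linarith
  simp only [Pi.pow_apply, Nat.cast_ofNat, Nat.add_one_sub_one, pow_one]
  linear_combination (2 * (derivative (P k)).eval x) * h6

private theorem gg_mono (k : ℕ) : MonotoneOn (gg k) (Set.Icc 0 1) := by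
  refine monotoneOn_of_deriv_nonneg (convex_Icc 0 1)
    (fun x _ => (gg_deriv k x).continuousAt.continuousWithinAt)
    (fun x _ => (gg_deriv k x).differentiableAt.differentiableWithinAt) ?_
  intro x hx
  rw [interior_Icc] at hx
  rw [(gg_deriv k x).deriv]
  have := hx.1
  positivity

private theorem gg_anti (k : ℕ) : AntitoneOn (gg k) (Set.Icc (-1) 0) := by
  refine antitoneOn_of_deriv_nonpos (convex_Icc (-1) 0)
    (fun x _ => (gg_deriv k x).continuousAt.continuousWithinAt)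
    (fun x _ => (gg_deriv k x).differentiableAt.differentiableWithinAt) ?_
  intro x hx
  rw [interior_Icc] at hx
  rw [(gg_deriv k x).deriv]
  have h1 := hx.2
  have h2 : 0 ≤ (derivative (P k)).eval x ^ 2 := sq_nonneg _
  nlinarith

private theorem ev_one (k : ℕ) : (P k).eval 1 ^ 2 = (k.factorial : ℝ) ^ 2 := by
  induction k with
  | zero => simp [P]
  | succ k ih =>
    have h : (P (k + 1)).eval 1 = -((k : ℝ) + 1) * (P k).eval 1 := by
      rw [P_succ]
      simp
      ring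
    rw [h, Nat.factorial_succ, Nat.cast_mul, mul_pow, mul_pow, ih]
    push_cast
    ring

private theorem ev_neg_one (k : ℕ) : (P k).eval (-1) ^ 2 = (k.factorial : ℝ) ^ 2 := by
  induction k with
  | zero => simp [P]
  | succ k ih =>
    have h : (P (k + 1)).eval (-1) = ((k : ℝ) + 1) * (P k).eval (-1) := by
      rw [P_succ]
      simp
      ring
    rw [h, Nat.factorial_succ, Nat.cast_mul, mul_pow, mul_pow, ih]
    push_cast
    ring

private theorem gg_le (k : ℕ) {x : ℝ} (hx : |x| ≤ 1) : gg k x ≤ k * (k + 1) * (k.factorial : ℝ) ^ 2 := by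
  obtain ⟨h1, h2⟩ := abs_le.1 hx
  rcases le_total 0 x with h | h
  · have h3 := gg_mono k ⟨h, h2⟩ ⟨zero_le_one, le_rfl⟩ h2
    refine h3.trans (le_of_eq ?_)
    rw [gg, ev_one]
    ring
  · have h3 := gg_anti k ⟨le_rfl, by norm_num⟩ ⟨h1, h⟩ h1
    refine h3.trans (le_of_eq ?_)
    rw [gg, ev_neg_one]
    ring

private theorem gg_ge (k : ℕ) {x : ℝ} (hx : |x| ≤ 1) : gg k 0 ≤ gg k x := by
  obtain ⟨h1, h2⟩ := abs_le.1 hx
  rcases le_total 0 x with h | h
  · exact gg_mono k ⟨le_rfl, zero_le_one⟩ ⟨h, h2⟩ h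
  · exact gg_anti k ⟨h1, h⟩ ⟨by norm_num, le_rfl⟩ h

theorem P_bound (k : ℕ) {x : ℝ} (hx : |x| ≤ 1) : |(P k).eval x| ≤ (k.factorial : ℝ) := by
  have h0 : (0 : ℝ) ≤ (k.factorial : ℝ) := by positivity
  rcases Nat.eq_zero_or_pos k with hk | hk
  · subst hk
    simp [P]
  · have hk' : (0 : ℝ) < (k : ℝ) * (k + 1) := by
      have : (0 : ℝ) < k := by exact_mod_cast hk
      positivity
    have h1 := gg_le k hx
    have h2 : 0 ≤ (1 - x ^ 2) * (derivative (P k)).eval x ^ 2 := by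
      have : x ^ 2 ≤ 1 := (sq_le_one_iff_abs_le_one x).2 hx
      exact mul_nonneg (by linarith) (sq_nonneg _)
    have h3 : (k : ℝ) * (k + 1) * (P k).eval x ^ 2 ≤ k * (k + 1) * (k.factorial : ℝ) ^ 2 := by
      rw [gg] at h1
      linarith
    have h4 : (P k).eval x ^ 2 ≤ (k.factorial : ℝ) ^ 2 := le_of_mul_le_mul_left h3 hk'
    exact abs_le_of_sq_le_sq h4 h0

theorem P_deriv_bound (k : ℕ) {x : ℝ} (hx : |x| ≤ 1) :
    (1 - x ^ 2) * (derivative (P k)).eval x ^ 2 ≤ k * (k + 1) * (k.factorial : ℝ) ^ 2 := by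
  have h1 := gg_le k hx
  have h2 : 0 ≤ (k : ℝ) * (k + 1) * (P k).eval x ^ 2 := by positivity
  rw [gg] at h1
  linarith

theorem P_crit_lower (k : ℕ) {u : ℝ} (hu : |u| ≤ 1) (hd : (derivative (P k)).eval u = 0) :
    k * (k + 1) * (P k).eval 0 ^ 2 + (derivative (P k)).eval 0 ^ 2 ≤
      k * (k + 1) * (P k).eval u ^ 2 := by
  have h1 := gg_ge k hu
  rw [gg, gg, hd] at h1
  have h2 : (1 - (0 : ℝ) ^ 2) = 1 := by norm_num
  rw [h2, one_mul] at h1
  linarith [h1]

end PC992CC
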