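import Mathlib
import Pool.Agent.Work.MP_992d6e_an.Sturm

/-!
MP_992d6e_an, CC/LegB: a lower bound for `P k` and its derivative at `0`.

PROOF. By `PC992.P_succ` and `PC992.P_succ_deriv`: `(P (k+1)).eval 0 = (derivative (P k)).eval 0`
and `(derivative (P (k+1))).eval 0 = -(k+1)^2 * (P k).eval 0`. So
`(P (k+2)).eval 0 = -(k+1)^2 * (P k).eval 0`.
(1) For even `k`: `(k!)^2 ≤ (2k+1) * (P k).eval 0 ^ 2`. Induction in steps of two; `k = 0` is
`1 ≤ 1`. Step: `((k+2)!)^2 = (k+2)^2 (k+1)^2 (k!)^2 ≤ (k+2)^2 (k+1)^2 (2k+1) P_k(0)^2`, and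
`(k+2)^2 (2k+1) = 2k^3+9k^2+12k+4 ≤ 2k^3+9k^2+12k+5 = (2k+5) (k+1)^2`, so it is at most
`(2k+5) (k+1)^4 P_k(0)^2 = (2(k+2)+1) P_(k+2)(0)^2`.
(2) `k` even: multiply (1) by `k(k+1)` and drop the square of the derivative.
(3) `k = m + 1` with `m` even: `(derivative (P k)).eval 0 ^ 2 = (m+1)^4 P_m(0)^2
≥ (m+1)^4 (m!)^2 / (2m+1) = k^2 (k!)^2 / (2k-1)`; and `(2k+1) k^2 / (2k-1) ≥ k (k+1)` because
`(2k+1) k = 2k^2 + k ≥ 2k^2 + k - 1 = (k+1)(2k-1)`.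
-/

namespace PC992CC

open Polynomial PC992

private theorem lb_ev (k : ℕ) : (P (k + 1)).eval 0 = (derivative (P k)).eval 0 := by
  rw [P_succ]
  simp

private theorem lb_dv (k : ℕ) : (derivative (P (k + 1))).eval 0 =
    -((k : ℝ) + 1) ^ 2 * (P k).eval 0 := by
  rw [P_succ_deriv]
  simp
  ring

private theorem lb_two (k : ℕ) : (P (k + 2)).eval 0 = -((k : ℝ) + 1) ^ 2 * (P k).eval 0 := by
  rw [show k + 2 = (k + 1) + 1 from rfl, lb_ev, lb_dv]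

private theorem lb_even (j : ℕ) : (((2 * j).factorial : ℕ) : ℝ) ^ 2 ≤
    (2 * ((2 * j : ℕ) : ℝ) + 1) * (P (2 * j)).eval 0 ^ 2 := by
  induction j with
  | zero => simp [P]
  | succ j ih =>
    have h1 : 2 * (j + 1) = 2 * j + 2 := by ring
    rw [h1, lb_two, Nat.factorial_succ, Nat.factorial_succ]
    set k : ℕ := 2 * j with hk
    set f : ℝ := ((k.factorial : ℕ) : ℝ) with hf
    set q : ℝ := (P k).eval 0 with hq
    push_cast
    set x : ℝ := (k : ℝ) with hx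
    have hx0 : 0 ≤ x := Nat.cast_nonneg k
    have h2 : (x + 1 + 1) ^ 2 * (2 * x + 1) ≤ (2 * (x + 2) + 1) * (x + 1) ^ 2 := by nlinarith
    have h3 : ((x + 1 + 1) * ((x + 1) * f)) ^ 2 ≤
        (x + 1 + 1) ^ 2 * (x + 1) ^ 2 * ((2 * x + 1) * q ^ 2) := by
      have h4 : ((x + 1 + 1) * ((x + 1) * f)) ^ 2 = (x + 1 + 1) ^ 2 * (x + 1) ^ 2 * f ^ 2 := by ring
      rw [h4]
      exact mul_le_mul_of_nonneg_left ih (by positivity)
    refine h3.trans ?_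
    have h5 : (x + 1 + 1) ^ 2 * (x + 1) ^ 2 * ((2 * x + 1) * q ^ 2) =
        ((x + 1 + 1) ^ 2 * (2 * x + 1)) * ((x + 1) ^ 2 * q ^ 2) := by ring
    have h6 : (2 * (x + 2) + 1) * (-(x + 1) ^ 2 * q) ^ 2 =
        ((2 * (x + 2) + 1) * (x + 1) ^ 2) * ((x + 1) ^ 2 * q ^ 2) := by ring
    rw [h5, h6]
    exact mul_le_mul_of_nonneg_right h2 (by positivity)

theorem P_zero_lower (k : ℕ) : (k : ℝ) * (k + 1) * (k.factorial : ℝ) ^ 2 ≤
    (2 * k + 1) * (k * (k + 1) * (P k).eval 0 ^ 2 + (derivative (P k)).eval 0 ^ 2) := by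
  rcases Nat.even_or_odd' k with ⟨j, rfl | rfl⟩
  · have h := lb_even j
    set q : ℝ := (P (2 * j)).eval 0 with hq
    set r : ℝ := (derivative (P (2 * j))).eval 0 with hr
    have hx0 : (0 : ℝ) ≤ ((2 * j : ℕ) : ℝ) := Nat.cast_nonneg _
    set x : ℝ := ((2 * j : ℕ) : ℝ) with hx
    have h1 : x * (x + 1) * (((2 * j).factorial : ℕ) : ℝ) ^ 2 ≤
        x * (x + 1) * ((2 * x + 1) * q ^ 2) := mul_le_mul_of_nonneg_left h (by positivity)
    have h2 : 0 ≤ (2 * x + 1) * r ^ 2 := by positivity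
    calc _ ≤ x * (x + 1) * ((2 * x + 1) * q ^ 2) := h1
      _ ≤ x * (x + 1) * ((2 * x + 1) * q ^ 2) + (2 * x + 1) * r ^ 2 := by linarith
      _ = _ := by ring
  · have h := lb_even j
    rw [lb_dv, Nat.factorial_succ]
    set q0 : ℝ := (P (2 * j + 1)).eval 0 with hq0
    set q : ℝ := (P (2 * j)).eval 0 with hq
    have hx0 : (0 : ℝ) ≤ ((2 * j : ℕ) : ℝ) := Nat.cast_nonneg _
    have hcast : (((2 * j + 1 : ℕ) : ℕ) : ℝ) = ((2 * j : ℕ) : ℝ) + 1 := by push_cast; ring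
    have hcast2 : ((((2 * j + 1) * (2 * j).factorial : ℕ) : ℕ) : ℝ) =
        (((2 * j : ℕ) : ℝ) + 1) * (((2 * j).factorial : ℕ) : ℝ) := by push_cast; ring
    rw [hcast2, hcast]
    set x : ℝ := ((2 * j : ℕ) : ℝ) with hx
    set f : ℝ := (((2 * j).factorial : ℕ) : ℝ) with hf
    -- `k = x + 1`
    have h1 : (x + 1) * (x + 1 + 1) * ((x + 1) * f) ^ 2 ≤
        (x + 1) * (x + 1 + 1) * ((x + 1) ^ 2 * ((2 * x + 1) * q ^ 2)) := by
      have h4 : ((x + 1) * f) ^ 2 = (x + 1) ^ 2 * f ^ 2 := by ring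
      rw [h4]
      exact mul_le_mul_of_nonneg_left (mul_le_mul_of_nonneg_left h (by positivity))
        (by positivity)
    refine h1.trans ?_
    have h2 : (x + 1 + 1) * (2 * x + 1) ≤ (2 * (x + 1) + 1) * (x + 1) := by nlinarith
    have h3 : (x + 1) * (x + 1 + 1) * ((x + 1) ^ 2 * ((2 * x + 1) * q ^ 2)) =
        ((x + 1 + 1) * (2 * x + 1)) * ((x + 1) ^ 3 * q ^ 2) := by ring
    have h5 : (2 * (x + 1) + 1) * (-(x + 1) ^ 2 * q) ^ 2 =
        ((2 * (x + 1) + 1) * (x + 1)) * ((x + 1) ^ 3 * q ^ 2) := by ring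
    rw [h3]
    calc ((x + 1 + 1) * (2 * x + 1)) * ((x + 1) ^ 3 * q ^ 2)
        ≤ ((2 * (x + 1) + 1) * (x + 1)) * ((x + 1) ^ 3 * q ^ 2) :=
          mul_le_mul_of_nonneg_right h2 (by positivity)
      _ = (2 * (x + 1) + 1) * (-(x + 1) ^ 2 * q) ^ 2 := h5.symm
      _ ≤ (2 * (x + 1) + 1) * ((x + 1) * (x + 1 + 1) * q0 ^ 2 + (-(x + 1) ^ 2 * q) ^ 2) := by
          refine mul_le_mul_of_nonneg_left ?_ (by positivity)
          have : 0 ≤ (x + 1) * (x + 1 + 1) * q0 ^ 2 := by positivity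
          linarith

end PC992CC
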