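import Mathlib
import Pool.Agent.Work.MP_992d6e_an.CC.LegA
import Pool.Agent.Work.MP_992d6e_an.CC.LegB

/-!
MP_992d6e_an, CC/LegC: bounds for the derivatives of `P k` on `[-3/4, 3/4]`, and the lower bound at
critical points.

PROOF. Write `p = P k`, `B = k!`, and let `|x| ≤ 3/4`, so `1 - x^2 ≥ 7/16`.
(1) `P_deriv_bound`: `p'(x)^2 ≤ (16/7) k (k+1) B^2 ≤ (2 (k+1) B)^2`, so `|p'(x)| ≤ 2 (k+1) B`
(`abs_le_of_sq_le_sq` or `abs_le_abs`...).
(2) `PC992.P_ode_eval`: `(1 - x^2) p'' = 2 x p' - k(k+1) p`, with `P_bound`: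
`(7/16) |p''| ≤ (3/2) * 2 (k+1) B + k (k+1) B = (k+3)(k+1) B ≤ 3 (k+1)^2 B`, so
`|p''| ≤ (48/7) (k+1)^2 B ≤ 7 (k+1)^2 B`.
(3) The derivative of the polynomial identity `PC992.P_ode`:
`(1 - x^2) p''' = 4 x p'' + (2 - k(k+1)) p'`, so, as `|2 - k(k+1)| ≤ 2 (k+1)^2`,
`(7/16) |p'''| ≤ 3 * 7 (k+1)^2 B + 2 (k+1)^2 * 2 (k+1) B ≤ 25 (k+1)^3 B`, `|p'''| ≤ 58 (k+1)^3 B`.
(4) `P_crit_value`: by `P_zero_lower` and `P_crit_lower`,
`k(k+1) (k!)^2 ≤ (2k+1) * (k(k+1) p(u)^2)`; divide by `k(k+1) > 0`.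
-/

namespace PC992CC

open Polynomial PC992

private theorem one_sub_sq {x : ℝ} (hx : |x| ≤ 3 / 4) : 7 / 16 ≤ 1 - x ^ 2 := by
  have h := abs_le.1 hx
  nlinarith [h.1, h.2]

theorem P_d1 (k : ℕ) {x : ℝ} (hx : |x| ≤ 3 / 4) :
    |(derivative (P k)).eval x| ≤ 2 * ((k : ℝ) + 1) * k.factorial := by
  have h1 := P_deriv_bound k (x := x) (hx.trans (by norm_num))
  have h2 := one_sub_sq hx
  have hk : (0 : ℝ) ≤ k := Nat.cast_nonneg k
  have hB : (0 : ℝ) ≤ (k.factorial : ℝ) ^ 2 := by positivity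
  have h3 : 7 / 16 * (derivative (P k)).eval x ^ 2 ≤
      (1 - x ^ 2) * (derivative (P k)).eval x ^ 2 :=
    mul_le_mul_of_nonneg_right h2 (sq_nonneg _)
  have h4 : (k : ℝ) * (k + 1) * (k.factorial : ℝ) ^ 2 ≤
      ((k : ℝ) + 1) ^ 2 * (k.factorial : ℝ) ^ 2 :=
    mul_le_mul_of_nonneg_right (by nlinarith) hB
  have h5 : 0 ≤ ((k : ℝ) + 1) ^ 2 * (k.factorial : ℝ) ^ 2 := by positivity
  refine abs_le_of_sq_le_sq ?_ (by positivity)
  have e : (2 * ((k : ℝ) + 1) * (k.factorial : ℝ)) ^ 2 =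
      4 * (((k : ℝ) + 1) ^ 2 * (k.factorial : ℝ) ^ 2) := by ring
  rw [e]
  linarith

theorem P_d2 (k : ℕ) {x : ℝ} (hx : |x| ≤ 3 / 4) :
    |(derivative (derivative (P k))).eval x| ≤ 7 * ((k : ℝ) + 1) ^ 2 * k.factorial := by
  have h0 := P_bound k (x := x) (hx.trans (by norm_num))
  have h1 := P_d1 k hx
  have h2 := one_sub_sq hx
  have hk : (0 : ℝ) ≤ k := Nat.cast_nonneg k
  have hB : (0 : ℝ) ≤ (k.factorial : ℝ) := by positivity
  have ho := P_ode_eval k x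
  set B : ℝ := (k.factorial : ℝ) with hBdef
  set d1 := (derivative (P k)).eval x with hd1
  set d2 := (derivative (derivative (P k))).eval x with hd2
  set p := (P k).eval x with hp
  have e : (1 - x ^ 2) * d2 = 2 * x * d1 - (k : ℝ) * (k + 1) * p := by linarith
  have a1 : (1 - x ^ 2) * |d2| = |(1 - x ^ 2) * d2| := by
    rw [abs_mul, abs_of_nonneg (a := 1 - x ^ 2) (by linarith)]
  have a2 : |2 * x * d1| ≤ 3 / 2 * (2 * ((k : ℝ) + 1) * B) := by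
    rw [abs_mul, abs_mul, abs_two]
    exact mul_le_mul (by linarith) h1 (abs_nonneg _) (by norm_num)
  have a3 : |(k : ℝ) * (k + 1) * p| ≤ (k : ℝ) * (k + 1) * B := by
    rw [abs_mul, abs_of_nonneg (a := (k : ℝ) * (k + 1)) (by positivity)]
    exact mul_le_mul_of_nonneg_left h0 (by positivity)
  have a4 : (1 - x ^ 2) * |d2| ≤ 3 / 2 * (2 * ((k : ℝ) + 1) * B) + (k : ℝ) * (k + 1) * B := by
    rw [a1, e]
    exact (abs_sub _ _).trans (add_le_add a2 a3)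
  have a5 : 7 / 16 * |d2| ≤ (1 - x ^ 2) * |d2| :=
    mul_le_mul_of_nonneg_right h2 (abs_nonneg _)
  have a6 : 3 / 2 * (2 * ((k : ℝ) + 1) * B) + (k : ℝ) * (k + 1) * B ≤ 3 * ((k : ℝ) + 1) ^ 2 * B := by
    have : 3 / 2 * (2 * ((k : ℝ) + 1)) + (k : ℝ) * (k + 1) ≤ 3 * ((k : ℝ) + 1) ^ 2 := by nlinarith
    calc _ = (3 / 2 * (2 * ((k : ℝ) + 1)) + (k : ℝ) * (k + 1)) * B := by ring
      _ ≤ 3 * ((k : ℝ) + 1) ^ 2 * B := mul_le_mul_of_nonneg_right this hB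
  have a7 : 0 ≤ ((k : ℝ) + 1) ^ 2 * B := by positivity
  linarith

theorem P_d3 (k : ℕ) {x : ℝ} (hx : |x| ≤ 3 / 4) :
    |(derivative (derivative (derivative (P k)))).eval x| ≤
      58 * ((k : ℝ) + 1) ^ 3 * k.factorial := by
  have h1 := P_d1 k hx
  have h1' := P_d2 k hx
  have h2 := one_sub_sq hx
  have hk : (0 : ℝ) ≤ k := Nat.cast_nonneg k
  have hB : (0 : ℝ) ≤ (k.factorial : ℝ) := by positivity
  have ho : (1 - x ^ 2) * (derivative (derivative (derivative (P k)))).eval x =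
      4 * x * (derivative (derivative (P k))).eval x +
        (2 - (k : ℝ) * (k + 1)) * (derivative (P k)).eval x := by
    have h := congrArg (fun q => Polynomial.eval x (derivative q)) (P_ode k)
    simp only [derivative_add, derivative_sub, derivative_mul, derivative_one, derivative_X_pow,
      derivative_C, derivative_X, derivative_ofNat, derivative_zero, eval_add, eval_sub, eval_mul,
      eval_one, eval_pow, eval_X, eval_C, eval_ofNat, eval_zero, map_ofNat, Nat.cast_ofNat] at h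
    norm_num at h
    linarith
  set B : ℝ := (k.factorial : ℝ) with hBdef
  set d1 := (derivative (P k)).eval x with hd1
  set d2 := (derivative (derivative (P k))).eval x with hd2
  set d3 := (derivative (derivative (derivative (P k)))).eval x with hd3
  have a1 : (1 - x ^ 2) * |d3| = |(1 - x ^ 2) * d3| := by
    rw [abs_mul, abs_of_nonneg (a := 1 - x ^ 2) (by linarith)]
  have a2 : |4 * x * d2| ≤ 3 * (7 * ((k : ℝ) + 1) ^ 2 * B) := by
    rw [abs_mul, abs_mul]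
    refine mul_le_mul ?_ h1' (abs_nonneg _) (by norm_num)
    rw [abs_of_pos (by norm_num : (0 : ℝ) < 4)]
    linarith
  have a3 : |2 - (k : ℝ) * (k + 1)| ≤ 2 * ((k : ℝ) + 1) ^ 2 := by
    rw [abs_le]
    constructor <;> nlinarith
  have a3' : |(2 - (k : ℝ) * (k + 1)) * d1| ≤
      2 * ((k : ℝ) + 1) ^ 2 * (2 * ((k : ℝ) + 1) * B) := by
    rw [abs_mul]
    exact mul_le_mul a3 h1 (abs_nonneg _) (by positivity)
  have a4 : (1 - x ^ 2) * |d3| ≤ 3 * (7 * ((k : ℝ) + 1) ^ 2 * B) +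
      2 * ((k : ℝ) + 1) ^ 2 * (2 * ((k : ℝ) + 1) * B) := by
    rw [a1, ho]
    exact (abs_add_le _ _).trans (add_le_add a2 a3')
  have a5 : 7 / 16 * |d3| ≤ (1 - x ^ 2) * |d3| :=
    mul_le_mul_of_nonneg_right h2 (abs_nonneg _)
  have a6 : 3 * (7 * ((k : ℝ) + 1) ^ 2 * B) +
      2 * ((k : ℝ) + 1) ^ 2 * (2 * ((k : ℝ) + 1) * B) ≤ 25 * (((k : ℝ) + 1) ^ 3 * B) := by
    have : ((k : ℝ) + 1) ^ 2 * B ≤ ((k : ℝ) + 1) ^ 3 * B := by
      refine mul_le_mul_of_nonneg_right ?_ hB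
      exact pow_le_pow_right₀ (by linarith) (by norm_num)
    have e2 : 2 * ((k : ℝ) + 1) ^ 2 * (2 * ((k : ℝ) + 1) * B) = 4 * (((k : ℝ) + 1) ^ 3 * B) := by
      ring
    rw [e2]
    linarith
  have a7 : 0 ≤ ((k : ℝ) + 1) ^ 3 * B := by positivity
  linarith

theorem P_crit_value (k : ℕ) (hk : 1 ≤ k) {u : ℝ} (hu : |u| ≤ 1)
    (hd : (derivative (P k)).eval u = 0) :
    (k.factorial : ℝ) ^ 2 ≤ (2 * k + 1) * (P k).eval u ^ 2 := by
  have h1 := P_zero_lower k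
  have h2 := P_crit_lower k hu hd
  have hk0 : (0 : ℝ) < k := by exact_mod_cast hk
  have hk1 : (0 : ℝ) < k * (k + 1) := by positivity
  have h3 : (2 * (k : ℝ) + 1) * (k * (k + 1) * (P k).eval 0 ^ 2 + (derivative (P k)).eval 0 ^ 2) ≤
      (2 * k + 1) * (k * (k + 1) * (P k).eval u ^ 2) :=
    mul_le_mul_of_nonneg_left h2 (by positivity)
  have h4 : (k : ℝ) * (k + 1) * (k.factorial : ℝ) ^ 2 ≤
      k * (k + 1) * ((2 * k + 1) * (P k).eval u ^ 2) := by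
    calc _ ≤ _ := h1.trans h3
      _ = _ := by ring
  exact le_of_mul_le_mul_left h4 hk1

end PC992CC
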