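import Mathlib
import Pool.Agent.Work.MP_992d6e_an.Mult
import Pool.Agent.Work.MP_992d6e_an.CC.LegC

/-!
MP_992d6e_an, CC/HvP: bounds on `[-3/4, 3/4]` for the polynomials occurring in the second
derivative of `Ek k e = Phi (k+1) (P k) e` (`PC992.Phi_fderiv2`).

Notation: `q = P k`, `m = k + 1`, `N = k + 1` (real), `B = k!`, `|x| ≤ 3/4`; by `LegA`, `LegC`:
`|q| ≤ B`, `|q'| ≤ 2NB`, `|q''| ≤ 7N²B`, `|q'''| ≤ 58N³B`. Recall
`sP m q = -m q - X q'`. With `s = sP m q`: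
`s' = -(m+1) q' - X q''`, `s'' = -(m+2) q'' - X q'''`, so
(1) `|s| ≤ NB + (3/4) 2NB = (5/2) N B`;
(2) `|s'| ≤ (N+1) 2NB + (3/4) 7N²B ≤ 4N²B + (21/4) N²B = (37/4) N²B ≤ 10 N²B` (`N ≥ 1`);
(3) `|s''| ≤ (N+2) 7N²B + (3/4) 58N³B ≤ 21N³B + (87/2) N³B ≤ 65 N³B`;
(4) `r = sP (m+2) s = -(m+2) s - X s'`: `|r| ≤ (N+2)(5/2)NB + (3/4) 10 N²B ≤ 15 N²B`;
(5) `r' = -(m+3) s' - X s''`: `|r'| ≤ (N+3) 10 N²B + (3/4) 65 N³B ≤ 40N³B + 49N³B ≤ 90 N³B`;
(6) `t = sP (m+1) q' = -(m+1) q' - X q''` (`= s'`): `|t| ≤ 10 N²B`, `|t'| ≤ 65 N³B`.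
-/

namespace PC992CC

open Polynomial PC992

private theorem e0 (m : ℕ) (q : Polynomial ℝ) (x : ℝ) :
    (sP m q).eval x = -((m : ℝ) * q.eval x) - x * (derivative q).eval x := by
  simp [sP]

private theorem e1 (m : ℕ) (q : Polynomial ℝ) (x : ℝ) :
    (derivative (sP m q)).eval x =
      -(((m : ℝ) + 1) * (derivative q).eval x) - x * (derivative (derivative q)).eval x := by
  simp only [sP, derivative_sub, derivative_mul, derivative_neg, derivative_C, derivative_X,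
    eval_sub, eval_mul, eval_neg, eval_C, eval_X, eval_add, eval_zero, eval_one, map_neg]
  ring

private theorem e2 (m : ℕ) (q : Polynomial ℝ) (x : ℝ) :
    (derivative (derivative (sP m q))).eval x =
      -(((m : ℝ) + 2) * (derivative (derivative q)).eval x) -
        x * (derivative (derivative (derivative q))).eval x := by
  simp only [sP, derivative_sub, derivative_mul, derivative_neg, derivative_C, derivative_X,
    eval_sub, eval_mul, eval_neg, eval_C, eval_X, eval_add, eval_zero, eval_one, map_neg,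
    derivative_add, derivative_zero, derivative_one]
  ring

/-- the general estimate -/
private theorem est {m a b x A B C : ℝ} (hm : 0 ≤ m) (hx : |x| ≤ 3 / 4) (ha : |a| ≤ A)
    (hb : |b| ≤ B) (hC : m * A + 3 / 4 * B ≤ C) : |-(m * a) - x * b| ≤ C := by
  have h1 : |m * a| ≤ m * A := by
    rw [abs_mul, abs_of_nonneg hm]
    exact mul_le_mul_of_nonneg_left ha hm
  have h2 : |x * b| ≤ 3 / 4 * B := by
    rw [abs_mul]
    exact mul_le_mul hx hb (abs_nonneg _) (by norm_num)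
  have h3 : |-(m * a) - x * b| ≤ |m * a| + |x * b| := by
    refine (abs_sub _ _).trans ?_
    rw [abs_neg]
  linarith

private theorem pw (k : ℕ) : (1 : ℝ) ≤ (k : ℝ) + 1 := by
  have : (0 : ℝ) ≤ k := Nat.cast_nonneg k
  linarith

/-- `N B <= N^2 B <= N^3 B` -/
private theorem pw2 (k : ℕ) : ((k : ℝ) + 1) * k.factorial ≤ ((k : ℝ) + 1) ^ 2 * k.factorial := by
  have := pw k
  exact mul_le_mul_of_nonneg_right (by nlinarith) (by positivity)

private theorem pw3 (k : ℕ) :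
    ((k : ℝ) + 1) ^ 2 * k.factorial ≤ ((k : ℝ) + 1) ^ 3 * k.factorial := by
  have := pw k
  exact mul_le_mul_of_nonneg_right (pow_le_pow_right₀ this (by norm_num)) (by positivity)

theorem sP_0 (k : ℕ) {x : ℝ} (hx : |x| ≤ 3 / 4) :
    |(sP (k + 1) (P k)).eval x| ≤ 5 / 2 * ((k : ℝ) + 1) * k.factorial := by
  rw [e0]
  refine est (by positivity) hx (P_bound k (hx.trans (by norm_num))) (P_d1 k hx) (le_of_eq ?_)
  push_cast
  ring

theorem sP_1 (k : ℕ) {x : ℝ} (hx : |x| ≤ 3 / 4) :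
    |(derivative (sP (k + 1) (P k))).eval x| ≤ 10 * ((k : ℝ) + 1) ^ 2 * k.factorial := by
  rw [e1]
  refine est (by positivity) hx (P_d1 k hx) (P_d2 k hx) ?_
  have h2 := pw2 k
  have h0 : 0 ≤ ((k : ℝ) + 1) ^ 2 * k.factorial := by positivity
  push_cast
  have e : ((k : ℝ) + 1 + 1) * (2 * ((k : ℝ) + 1) * k.factorial) +
      3 / 4 * (7 * ((k : ℝ) + 1) ^ 2 * k.factorial) =
      2 * (((k : ℝ) + 1) * k.factorial) + 29 / 4 * (((k : ℝ) + 1) ^ 2 * k.factorial) := by ring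
  rw [e]
  linarith

theorem sP_2 (k : ℕ) {x : ℝ} (hx : |x| ≤ 3 / 4) :
    |(derivative (derivative (sP (k + 1) (P k)))).eval x| ≤
      65 * ((k : ℝ) + 1) ^ 3 * k.factorial := by
  rw [e2]
  refine est (by positivity) hx (P_d2 k hx) (P_d3 k hx) ?_
  have h2 := pw3 k
  have h0 : 0 ≤ ((k : ℝ) + 1) ^ 3 * k.factorial := by positivity
  push_cast
  have e : ((k : ℝ) + 1 + 2) * (7 * ((k : ℝ) + 1) ^ 2 * k.factorial) +
      3 / 4 * (58 * ((k : ℝ) + 1) ^ 3 * k.factorial) =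
      14 * (((k : ℝ) + 1) ^ 2 * k.factorial) + 101 / 2 * (((k : ℝ) + 1) ^ 3 * k.factorial) := by
    ring
  rw [e]
  linarith

theorem sPP_0 (k : ℕ) {x : ℝ} (hx : |x| ≤ 3 / 4) :
    |(sP (k + 1 + 2) (sP (k + 1) (P k))).eval x| ≤ 15 * ((k : ℝ) + 1) ^ 2 * k.factorial := by
  rw [e0]
  refine est (by positivity) hx (sP_0 k hx) (sP_1 k hx) ?_
  have h2 := pw2 k
  have h0 : 0 ≤ ((k : ℝ) + 1) ^ 2 * k.factorial := by positivity
  push_cast
  have e : ((k : ℝ) + 1 + 2) * (5 / 2 * ((k : ℝ) + 1) * k.factorial) +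
      3 / 4 * (10 * ((k : ℝ) + 1) ^ 2 * k.factorial) =
      5 * (((k : ℝ) + 1) * k.factorial) + 10 * (((k : ℝ) + 1) ^ 2 * k.factorial) := by ring
  rw [e]
  linarith

theorem sPP_1 (k : ℕ) {x : ℝ} (hx : |x| ≤ 3 / 4) :
    |(derivative (sP (k + 1 + 2) (sP (k + 1) (P k)))).eval x| ≤
      90 * ((k : ℝ) + 1) ^ 3 * k.factorial := by
  rw [e1]
  refine est (by positivity) hx (sP_1 k hx) (sP_2 k hx) ?_
  have h2 := pw3 k
  have h0 : 0 ≤ ((k : ℝ) + 1) ^ 3 * k.factorial := by positivity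
  push_cast
  have e : ((k : ℝ) + 1 + 2 + 1) * (10 * ((k : ℝ) + 1) ^ 2 * k.factorial) +
      3 / 4 * (65 * ((k : ℝ) + 1) ^ 3 * k.factorial) =
      30 * (((k : ℝ) + 1) ^ 2 * k.factorial) + 235 / 4 * (((k : ℝ) + 1) ^ 3 * k.factorial) := by
    ring
  rw [e]
  linarith

theorem sPd_0 (k : ℕ) {x : ℝ} (hx : |x| ≤ 3 / 4) :
    |(sP (k + 1 + 1) (derivative (P k))).eval x| ≤ 10 * ((k : ℝ) + 1) ^ 2 * k.factorial := by
  rw [e0]
  refine est (by positivity) hx (P_d1 k hx) (P_d2 k hx) ?_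
  have h2 := pw2 k
  have h0 : 0 ≤ ((k : ℝ) + 1) ^ 2 * k.factorial := by positivity
  push_cast
  have e : ((k : ℝ) + 1 + 1) * (2 * ((k : ℝ) + 1) * k.factorial) +
      3 / 4 * (7 * ((k : ℝ) + 1) ^ 2 * k.factorial) =
      2 * (((k : ℝ) + 1) * k.factorial) + 29 / 4 * (((k : ℝ) + 1) ^ 2 * k.factorial) := by ring
  rw [e]
  linarith

theorem sPd_1 (k : ℕ) {x : ℝ} (hx : |x| ≤ 3 / 4) :
    |(derivative (sP (k + 1 + 1) (derivative (P k)))).eval x| ≤
      65 * ((k : ℝ) + 1) ^ 3 * k.factorial := by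
  rw [e1]
  refine est (by positivity) hx (P_d2 k hx) (P_d3 k hx) ?_
  have h2 := pw3 k
  have h0 : 0 ≤ ((k : ℝ) + 1) ^ 3 * k.factorial := by positivity
  push_cast
  have e : ((k : ℝ) + 1 + 1 + 1) * (7 * ((k : ℝ) + 1) ^ 2 * k.factorial) +
      3 / 4 * (58 * ((k : ℝ) + 1) ^ 3 * k.factorial) =
      14 * (((k : ℝ) + 1) ^ 2 * k.factorial) + 101 / 2 * (((k : ℝ) + 1) ^ 3 * k.factorial) := by
    ring
  rw [e]
  linarith

end PC992CC
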