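import Mathlib
import Pool.Agent.Work.MP_992d6e_an.Mult

/-!
MP_992d6e_an, CC/PhB: bounds for the functions `PC992.Phi m q e y = ‖y‖^(-m) q(<e,y>/‖y‖)` on the
ball of radius `δ` around a unit vector `ω` with `|<e,ω>| ≤ 7/10`.

PROOF. Let `‖y - ω‖ ≤ δ`. Then `1 - δ ≤ ‖y‖`, so `‖y‖ ≥ 39/40`, and
`|<e,y>| / ‖y‖ ≤ (7/10 + δ) / (1 - δ) ≤ (29/40) / (39/40) = 29/39 ≤ 3/4`. For `j ≤ m + 2`:
`‖y‖^j ≥ (1 - δ)^j ≥ 1 - j δ ≥ 1/2` (Bernoulli, `one_add_mul_le_pow`), so `(‖y‖^j)⁻¹ ≤ 2`.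
`Phi_bound` follows.
`Phi_lip`: by `PC992.Phi_hasFDerivAt` the derivative of `Phi m q e` at `y` (in the ball) is
`Phi (m+2) (sP m q) e y • innerSL ℝ y + Phi (m+1) (derivative q) e y • innerSL ℝ e`, of norm at most
`|Phi (m+2) (sP m q) e y| * ‖y‖ + |Phi (m+1) q' e y| = (‖y‖^(m+1))⁻¹ * (|(sP m q)(u)| + |q'(u)|)`
with `u = <e,y>/‖y‖`, `|u| ≤ 3/4`; and `|(sP m q)(u)| = |m q(u) + u q'(u)| ≤ m B₀ + B₁`. So it is at
most `2 * (m * B₀ + 2 * B₁)`. Use `Convex.norm_image_sub_le_of_norm_hasFDerivWithin_le` on the convex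
set `Metric.closedBall ω δ` (all its points are nonzero).
-/

namespace PC992CC

open Polynomial PC992

private theorem norm_low {ω y : E} (hω : ‖ω‖ = 1) {δ : ℝ} (hy : ‖y - ω‖ ≤ δ) :
    1 - δ ≤ ‖y‖ := by
  have h1 : ‖ω‖ ≤ ‖y‖ + ‖y - ω‖ := by
    calc ‖ω‖ = ‖y - (y - ω)‖ := by congr 1; abel
      _ ≤ ‖y‖ + ‖y - ω‖ := norm_sub_le _ _
  rw [hω] at h1
  linarith

private theorem pow_low {m : ℕ} {ω y : E} (hω : ‖ω‖ = 1) {δ : ℝ} (hδ : δ ≤ 1 / 40)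
    (hm : ((m : ℝ) + 2) * δ ≤ 1 / 2) (hy : ‖y - ω‖ ≤ δ) {j : ℕ} (hj : j ≤ m + 2) :
    (‖y‖ ^ j)⁻¹ ≤ 2 := by
  have hδ0 : 0 ≤ δ := le_trans (norm_nonneg _) hy
  have h1 := norm_low hω hy
  have h2 : 1 + (j : ℝ) * (-δ) ≤ (1 + (-δ)) ^ j := one_add_mul_le_pow (by linarith) j
  have h3 : (1 + (-δ)) ^ j ≤ ‖y‖ ^ j := pow_le_pow_left₀ (by linarith) (by linarith) j
  have h4 : (j : ℝ) ≤ (m : ℝ) + 2 := by exact_mod_cast hj
  have h5 : (j : ℝ) * δ ≤ ((m : ℝ) + 2) * δ := mul_le_mul_of_nonneg_right h4 hδ0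
  have h6 : (1 : ℝ) / 2 ≤ ‖y‖ ^ j := by nlinarith
  calc (‖y‖ ^ j)⁻¹ ≤ ((1 : ℝ) / 2)⁻¹ := inv_anti₀ (by norm_num) h6
    _ = 2 := by norm_num

private theorem arg_le {e ω y : E} (he : ‖e‖ = 1) (hω : ‖ω‖ = 1)
    (heω : |inner ℝ e ω| ≤ 7 / 10) {δ : ℝ} (hδ : δ ≤ 1 / 40) (hy : ‖y - ω‖ ≤ δ) :
    |inner ℝ e y / ‖y‖| ≤ 3 / 4 := by
  have hδ0 : 0 ≤ δ := le_trans (norm_nonneg _) hy
  have h1 := norm_low hω hy
  have hpos : 0 < ‖y‖ := by linarith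
  have h2 : inner ℝ e y = inner ℝ e ω + inner ℝ e (y - ω) := by
    rw [← inner_add_right]
    congr 1
    abel
  have h3 : |inner ℝ e (y - ω)| ≤ δ := by
    calc |inner ℝ e (y - ω)| ≤ ‖e‖ * ‖y - ω‖ := abs_real_inner_le_norm _ _
      _ ≤ δ := by rw [he, one_mul]; exact hy
  have h4 : |inner ℝ e y| ≤ 7 / 10 + δ := by
    rw [h2]
    exact (abs_add_le _ _).trans (add_le_add heω h3)
  rw [abs_div, abs_norm, div_le_iff₀ hpos]
  linarith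

private theorem ne_zero' {ω y : E} (hω : ‖ω‖ = 1) {δ : ℝ} (hδ : δ ≤ 1 / 40)
    (hy : ‖y - ω‖ ≤ δ) : y ≠ 0 := by
  have h1 := norm_low hω hy
  rintro rfl
  rw [norm_zero] at h1
  linarith

theorem Phi_bound (m : ℕ) (q : Polynomial ℝ) {e ω y : E} (he : ‖e‖ = 1) (hω : ‖ω‖ = 1)
    (heω : |inner ℝ e ω| ≤ 7 / 10) {δ B₀ : ℝ} (hδ : δ ≤ 1 / 40)
    (hm : ((m : ℝ) + 2) * δ ≤ 1 / 2) (h0 : ∀ x : ℝ, |x| ≤ 3 / 4 → |q.eval x| ≤ B₀)
    (hy : ‖y - ω‖ ≤ δ) : |Phi m q e y| ≤ 2 * B₀ := by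
  have hp := pow_low (j := m) hω hδ hm hy (by omega)
  have ha := h0 _ (arg_le he hω heω hδ hy)
  have hB : 0 ≤ B₀ := le_trans (abs_nonneg _) ha
  unfold Phi
  rw [abs_mul, abs_of_nonneg (inv_nonneg.2 (pow_nonneg (norm_nonneg y) m))]
  exact mul_le_mul hp ha (abs_nonneg _) (by norm_num)

theorem Phi_lip (m : ℕ) (q : Polynomial ℝ) {e ω y : E} (he : ‖e‖ = 1) (hω : ‖ω‖ = 1)
    (heω : |inner ℝ e ω| ≤ 7 / 10) {δ B₀ B₁ : ℝ} (hδ : δ ≤ 1 / 40)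
    (hm : ((m : ℝ) + 2) * δ ≤ 1 / 2) (h0 : ∀ x : ℝ, |x| ≤ 3 / 4 → |q.eval x| ≤ B₀)
    (h1 : ∀ x : ℝ, |x| ≤ 3 / 4 → |(derivative q).eval x| ≤ B₁)
    (hy : ‖y - ω‖ ≤ δ) :
    |Phi m q e y - Phi m q e ω| ≤ 2 * (m * B₀ + 2 * B₁) * ‖y - ω‖ := by
  have hδ0 : 0 ≤ δ := le_trans (norm_nonneg _) hy
  have hder : ∀ z ∈ Metric.closedBall ω δ, HasFDerivWithinAt (Phi m q e)
      (Phi (m + 2) (sP m q) e z • innerSL ℝ z +
        Phi (m + 1) (derivative q) e z • innerSL ℝ e) (Metric.closedBall ω δ) z := by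
    intro z hz
    have hz' : ‖z - ω‖ ≤ δ := by rwa [← dist_eq_norm, ← Metric.mem_closedBall]
    exact (Phi_hasFDerivAt m q e (ne_zero' hω hδ hz')).hasFDerivWithinAt
  have hbd : ∀ z ∈ Metric.closedBall ω δ, ‖Phi (m + 2) (sP m q) e z • innerSL ℝ z +
        Phi (m + 1) (derivative q) e z • innerSL ℝ e‖ ≤ 2 * (m * B₀ + 2 * B₁) := by
    intro z hz
    have hz' : ‖z - ω‖ ≤ δ := by rwa [← dist_eq_norm, ← Metric.mem_closedBall]
    have hz0 : z ≠ 0 := ne_zero' hω hδ hz'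
    have hr : ‖z‖ ≠ 0 := norm_ne_zero_iff.mpr hz0
    have hp := pow_low (j := m + 1) hω hδ hm hz' (by omega)
    have hu := arg_le he hω heω hδ hz'
    have ha := h0 _ hu
    have hb := h1 _ hu
    set u := inner ℝ e z / ‖z‖ with hudef
    have hB0 : 0 ≤ B₀ := le_trans (abs_nonneg _) ha
    have hB1 : 0 ≤ B₁ := le_trans (abs_nonneg _) hb
    have hs : |(sP m q).eval u| ≤ m * B₀ + B₁ := by
      have e1 : (sP m q).eval u = -(m : ℝ) * q.eval u - u * (derivative q).eval u := by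
        simp [sP]
      rw [e1]
      have t1 : |-(m : ℝ) * q.eval u| ≤ m * B₀ := by
        rw [abs_mul, abs_neg, abs_of_nonneg (Nat.cast_nonneg m)]
        exact mul_le_mul_of_nonneg_left ha (Nat.cast_nonneg m)
      have t2 : |u * (derivative q).eval u| ≤ B₁ := by
        rw [abs_mul]
        calc |u| * |(derivative q).eval u| ≤ 1 * B₁ :=
              mul_le_mul (by linarith) hb (abs_nonneg _) (by norm_num)
          _ = B₁ := one_mul _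
      exact (abs_sub _ _).trans (add_le_add t1 t2)
    have n1 : ‖Phi (m + 2) (sP m q) e z • innerSL ℝ z‖ =
        (‖z‖ ^ (m + 1))⁻¹ * |(sP m q).eval u| := by
      rw [norm_smul, innerSL_apply_norm, Real.norm_eq_abs]
      unfold Phi
      rw [abs_mul, abs_of_nonneg (inv_nonneg.2 (pow_nonneg (norm_nonneg z) _)), ← hudef]
      rw [pow_succ ‖z‖ (m + 1)]
      field_simp
    have n2 : ‖Phi (m + 1) (derivative q) e z • innerSL ℝ e‖ =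
        (‖z‖ ^ (m + 1))⁻¹ * |(derivative q).eval u| := by
      rw [norm_smul, innerSL_apply_norm, Real.norm_eq_abs, he, mul_one]
      unfold Phi
      rw [abs_mul, abs_of_nonneg (inv_nonneg.2 (pow_nonneg (norm_nonneg z) _)), ← hudef]
    calc _ ≤ _ := norm_add_le _ _
      _ = (‖z‖ ^ (m + 1))⁻¹ * (|(sP m q).eval u| + |(derivative q).eval u|) := by
        rw [n1, n2]; ring
      _ ≤ 2 * ((m * B₀ + B₁) + B₁) :=
        mul_le_mul hp (add_le_add hs hb) (by positivity) (by norm_num)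
      _ = 2 * (m * B₀ + 2 * B₁) := by ring
  have hmy : y ∈ Metric.closedBall ω δ := by
    rw [Metric.mem_closedBall, dist_eq_norm]
    exact hy
  have hmω : ω ∈ Metric.closedBall ω δ := Metric.mem_closedBall_self hδ0
  have key := Convex.norm_image_sub_le_of_norm_hasFDerivWithin_le (𝕜 := ℝ) hder hbd
    (convex_closedBall ω δ) hmω hmy
  rwa [Real.norm_eq_abs] at key

end PC992CC
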