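import Mathlib
import Pool.Agent.Work.MP_992d6e_an.CC.PhB
import Pool.Agent.Work.MP_992d6e_an.CC.HvP

/-!
MP_992d6e_an, CC/HvA: the Hessian of an axial multipole varies slowly near a unit vector.

PROOF. `Ek k e = Phi m q e` with `m = k + 1`, `q = P k` (`PC992.Ek_eq_Phi`). Put `N = k + 1`,
`B = k!`, `δ = 1 / (40 N)`, `d = ‖y - ω‖ ≤ δ`. By `PC992.Phi_fderiv2`, for `y ≠ 0`
`D²(y)(v,w) = (A₁ <y,v> + A₂ <e,v>) <y,w> + A₃ <v,w> + (A₄ <y,v> + A₅ <e,v>) <e,w>` with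
`A₁ = Phi (m+4) (sP (m+2) (sP m q)) e y`, `A₂ = Phi (m+3) (derivative (sP m q)) e y`,
`A₃ = Phi (m+2) (sP m q) e y`, `A₄ = Phi (m+3) (sP (m+1) (derivative q)) e y`,
`A₅ = Phi (m+2) (derivative (derivative q)) e y`. `Phi_bound`, `Phi_lip` apply to all of them
(with `m+4`, `m+3`, `m+2` in the place of `m`: `(m + 4 + 2) δ = (k+7)/(40(k+1)) ≤ 7/40 ≤ 1/2`,
`δ ≤ 1/40`), with the bounds of `HvP` and `LegC`:
`|A₁(y)| ≤ 30 N²B`, `|A₁(y) - A₁(ω)| ≤ 2 ((N+4) 15 N²B + 2 * 90 N³B) d ≤ 510 N³B d`;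
`|A₂(y)| ≤ 20 N²B`, `|A₂(y) - A₂(ω)| ≤ 2 ((N+3) 10 N²B + 2 * 65 N³B) d ≤ 340 N³B d`;
`|A₃(y) - A₃(ω)| ≤ 2 ((N+2) (5/2) N B + 2 * 10 N²B) d ≤ 55 N³B d`;
`|A₄(y)| ≤ 20 N²B`, `|A₄(y) - A₄(ω)| ≤ 340 N³B d`;
`|A₅(y) - A₅(ω)| ≤ 2 ((N+2) 7 N²B + 2 * 58 N³B) d ≤ 274 N³B d` (using `N ≥ 1`).
With `‖ω‖ = ‖e‖ = 1`, `‖y‖ ≤ 2`, the difference `D²(y)(v,w) - D²(ω)(v,w)` is the sum of
`(A₁(y)-A₁(ω)) <ω,v> <ω,w> + A₁(y) (<y,v><y,w> - <ω,v><ω,w>)`: at most `(510 + 30 * 3) N³B d`;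
`(A₂(y)-A₂(ω)) <e,v> <ω,w> + A₂(y) <e,v> <y-ω,w>`: at most `(340 + 20) N³B d`;
`(A₃(y)-A₃(ω)) <v,w>`: at most `55 N³B d`;
`(A₄(y)-A₄(ω)) <ω,v> <e,w> + A₄(y) <y-ω,v> <e,w>`: at most `(340 + 20) N³B d`;
`(A₅(y)-A₅(ω)) <e,v> <e,w>`: at most `274 N³B d` (all times `‖v‖ ‖w‖`).
Sum: `1649 N³B d ≤ 3000 N³B d`. Conclude with `ContinuousLinearMap.opNorm_le_bound` twice.
-/

namespace PC992CC

open Polynomial PC992

private theorem mul3 {x s t X S T : ℝ} (hx : |x| ≤ X) (hs : |s| ≤ S) (ht : |t| ≤ T) :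
    |x * s * t| ≤ X * S * T := by
  rw [abs_mul, abs_mul]
  have hX : 0 ≤ X := (abs_nonneg _).trans hx
  have hS : 0 ≤ S := (abs_nonneg _).trans hs
  exact mul_le_mul (mul_le_mul hx hs (abs_nonneg _) hX) ht (abs_nonneg _) (mul_nonneg hX hS)

/-- the algebraic part: differences of the five coefficients give the bound -/
private theorem alg {a1 a1' a2 a2' a3 a3' a4 a4' a5 a5' ov ow hv hw ev ew vw U V W d : ℝ}
    (hd : 0 ≤ d) (hd1 : d ≤ 1) (hV : 0 ≤ V) (hW : 0 ≤ W) (hU : 0 ≤ U)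
    (hov : |ov| ≤ V) (how : |ow| ≤ W) (hhv : |hv| ≤ d * V) (hhw : |hw| ≤ d * W)
    (hev : |ev| ≤ V) (hew : |ew| ≤ W) (hvw : |vw| ≤ V * W)
    (b1 : |a1| ≤ 30 * U) (b2 : |a2| ≤ 20 * U) (b4 : |a4| ≤ 20 * U)
    (l1 : |a1 - a1'| ≤ 510 * U * d) (l2 : |a2 - a2'| ≤ 340 * U * d) (l3 : |a3 - a3'| ≤ 55 * U * d)
    (l4 : |a4 - a4'| ≤ 340 * U * d) (l5 : |a5 - a5'| ≤ 274 * U * d) :
    |(((a1 * (ov + hv) + a2 * ev) * (ow + hw) + a3 * vw + (a4 * (ov + hv) + a5 * ev) * ew) -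
      ((a1' * ov + a2' * ev) * ow + a3' * vw + (a4' * ov + a5' * ev) * ew))| ≤
      3000 * U * d * V * W := by
  have e : ((a1 * (ov + hv) + a2 * ev) * (ow + hw) + a3 * vw + (a4 * (ov + hv) + a5 * ev) * ew) -
      ((a1' * ov + a2' * ev) * ow + a3' * vw + (a4' * ov + a5' * ev) * ew) =
      (a1 - a1') * ov * ow + a1 * hv * ow + a1 * ov * hw + a1 * hv * hw + (a2 - a2') * ev * ow +
      a2 * ev * hw + (a3 - a3') * vw * 1 + (a4 - a4') * ov * ew + a4 * hv * ew +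
      (a5 - a5') * ev * ew := by ring
  rw [e]
  have m1 := mul3 l1 hov how
  have m2 := mul3 b1 hhv how
  have m3 := mul3 b1 hov hhw
  have m4 := mul3 b1 hhv hhw
  have m5 := mul3 l2 hev how
  have m6 := mul3 b2 hev hhw
  have m7 := mul3 l3 hvw (le_of_eq (abs_one (α := ℝ)))
  have m8 := mul3 l4 hov hew
  have m9 := mul3 b4 hhv hew
  have m10 := mul3 l5 hev hew
  have hT : 0 ≤ U * d * V * W := by positivity
  have hdd : U * d * V * W * d ≤ U * d * V * W := mul_le_of_le_one_right hT hd1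
  have t : ∀ x y : ℝ, |x + y| ≤ |x| + |y| := abs_add_le
  have n1 := t ((a1 - a1') * ov * ow + a1 * hv * ow + a1 * ov * hw + a1 * hv * hw +
    (a2 - a2') * ev * ow + a2 * ev * hw + (a3 - a3') * vw * 1 + (a4 - a4') * ov * ew + a4 * hv * ew)
    ((a5 - a5') * ev * ew)
  have n2 := t ((a1 - a1') * ov * ow + a1 * hv * ow + a1 * ov * hw + a1 * hv * hw +
    (a2 - a2') * ev * ow + a2 * ev * hw + (a3 - a3') * vw * 1 + (a4 - a4') * ov * ew) (a4 * hv * ew)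
  have n3 := t ((a1 - a1') * ov * ow + a1 * hv * ow + a1 * ov * hw + a1 * hv * hw +
    (a2 - a2') * ev * ow + a2 * ev * hw + (a3 - a3') * vw * 1) ((a4 - a4') * ov * ew)
  have n4 := t ((a1 - a1') * ov * ow + a1 * hv * ow + a1 * ov * hw + a1 * hv * hw +
    (a2 - a2') * ev * ow + a2 * ev * hw) ((a3 - a3') * vw * 1)
  have n5 := t ((a1 - a1') * ov * ow + a1 * hv * ow + a1 * ov * hw + a1 * hv * hw +
    (a2 - a2') * ev * ow) (a2 * ev * hw)
  have n6 := t ((a1 - a1') * ov * ow + a1 * hv * ow + a1 * ov * hw + a1 * hv * hw)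
    ((a2 - a2') * ev * ow)
  have n7 := t ((a1 - a1') * ov * ow + a1 * hv * ow + a1 * ov * hw) (a1 * hv * hw)
  have n8 := t ((a1 - a1') * ov * ow + a1 * hv * ow) (a1 * ov * hw)
  have n9 := t ((a1 - a1') * ov * ow) (a1 * hv * ow)
  have f1 : 510 * U * d * V * W = 510 * (U * d * V * W) := by ring
  have f2 : 30 * U * (d * V) * W = 30 * (U * d * V * W) := by ring
  have f3 : 30 * U * V * (d * W) = 30 * (U * d * V * W) := by ring
  have f4 : 30 * U * (d * V) * (d * W) = 30 * (U * d * V * W * d) := by ring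
  have f5 : 340 * U * d * V * W = 340 * (U * d * V * W) := by ring
  have f6 : 20 * U * V * (d * W) = 20 * (U * d * V * W) := by ring
  have f7 : 55 * U * d * (V * W) * 1 = 55 * (U * d * V * W) := by ring
  have f9 : 20 * U * (d * V) * W = 20 * (U * d * V * W) := by ring
  have f10 : 274 * U * d * V * W = 274 * (U * d * V * W) := by ring
  have f11 : 3000 * U * d * V * W = 3000 * (U * d * V * W) := by ring
  rw [f1] at m1
  rw [f2] at m2
  rw [f3] at m3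
  rw [f4] at m4
  rw [f5] at m5 m8
  rw [f6] at m6
  rw [f7] at m7
  rw [f9] at m9
  rw [f10] at m10
  rw [f11]
  linarith

theorem hess_var (k : ℕ) {e ω y : E} (he : ‖e‖ = 1) (hω : ‖ω‖ = 1)
    (heω : |inner ℝ e ω| ≤ 7 / 10) (hy : ‖y - ω‖ ≤ 1 / (40 * ((k : ℝ) + 1))) :
    ‖fderiv ℝ (fderiv ℝ (Ek k e)) y - fderiv ℝ (fderiv ℝ (Ek k e)) ω‖ ≤
      3000 * ((k : ℝ) + 1) ^ 3 * k.factorial * ‖y - ω‖ := by
  have hk : (0 : ℝ) ≤ k := Nat.cast_nonneg k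
  set N : ℝ := (k : ℝ) + 1 with hN
  have hN1 : 1 ≤ N := by rw [hN]; linarith
  set B : ℝ := (k.factorial : ℝ) with hB
  have hB0 : 0 ≤ B := by rw [hB]; positivity
  set δ : ℝ := 1 / (40 * N) with hδ
  have hδ1 : δ ≤ 1 / 40 := by
    rw [hδ]
    exact one_div_le_one_div_of_le (by norm_num) (by linarith)
  have hδN : N * δ = 1 / 40 := by
    rw [hδ]
    field_simp
  have hδ0 : 0 < δ := by rw [hδ]; positivity
  set d : ℝ := ‖y - ω‖ with hd
  have hd0 : 0 ≤ d := norm_nonneg _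
  have hd1 : d ≤ 1 := by linarith
  have hω0 : ω ≠ 0 := by
    rintro rfl
    simp at hω
  have hy0 : y ≠ 0 := by
    rintro rfl
    rw [hd, zero_sub, norm_neg, hω] at hy
    linarith
  have hm : ∀ j : ℕ, (j : ℝ) ≤ 4 → (((k + 1 + j : ℕ) : ℝ) + 2) * δ ≤ 1 / 2 := by
    intro j hj
    have h1 : (((k + 1 + j : ℕ) : ℝ) + 2) ≤ 7 * N := by
      push_cast
      rw [hN]
      linarith
    calc (((k + 1 + j : ℕ) : ℝ) + 2) * δ ≤ 7 * N * δ := mul_le_mul_of_nonneg_right h1 hδ0.le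
      _ = 7 * (N * δ) := by ring
      _ ≤ 1 / 2 := by rw [hδN]; norm_num
  have hN2 : N ^ 2 * B ≤ N ^ 3 * B := mul_le_mul_of_nonneg_right (pow_le_pow_right₀ hN1 (by norm_num)) hB0
  have hN0 : 0 ≤ N ^ 2 * B := by positivity
  have hN3 : 0 ≤ N ^ 3 * B := by positivity
  have p4 := hm 4 (by norm_num)
  have p3 := hm 3 (by norm_num)
  have p2 := hm 2 (by norm_num)
  -- the five coefficients
  have b1 := Phi_bound (k + 1 + 4) (sP (k + 1 + 2) (sP (k + 1) (P k))) he hω heω hδ1 p4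
    (fun x hx => sPP_0 k hx) hy
  have l1 := Phi_lip (k + 1 + 4) (sP (k + 1 + 2) (sP (k + 1) (P k))) he hω heω hδ1 p4
    (fun x hx => sPP_0 k hx) (fun x hx => sPP_1 k hx) hy
  have b2 := Phi_bound (k + 1 + 3) (derivative (sP (k + 1) (P k))) he hω heω hδ1 p3
    (fun x hx => sP_1 k hx) hy
  have l2 := Phi_lip (k + 1 + 3) (derivative (sP (k + 1) (P k))) he hω heω hδ1 p3
    (fun x hx => sP_1 k hx) (fun x hx => sP_2 k hx) hy
  have l3 := Phi_lip (k + 1 + 2) (sP (k + 1) (P k)) he hω heω hδ1 p2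
    (fun x hx => sP_0 k hx) (fun x hx => sP_1 k hx) hy
  have b4 := Phi_bound (k + 1 + 3) (sP (k + 1 + 1) (derivative (P k))) he hω heω hδ1 p3
    (fun x hx => sPd_0 k hx) hy
  have l4 := Phi_lip (k + 1 + 3) (sP (k + 1 + 1) (derivative (P k))) he hω heω hδ1 p3
    (fun x hx => sPd_0 k hx) (fun x hx => sPd_1 k hx) hy
  have l5 := Phi_lip (k + 1 + 2) (derivative (derivative (P k))) he hω heω hδ1 p2
    (fun x hx => P_d2 k hx) (fun x hx => P_d3 k hx) hy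
  set U : ℝ := N ^ 3 * B with hU
  set A1 := Phi (k + 1 + 4) (sP (k + 1 + 2) (sP (k + 1) (P k))) e with hA1
  set A2 := Phi (k + 1 + 3) (derivative (sP (k + 1) (P k))) e with hA2
  set A3 := Phi (k + 1 + 2) (sP (k + 1) (P k)) e with hA3
  set A4 := Phi (k + 1 + 3) (sP (k + 1 + 1) (derivative (P k))) e with hA4
  set A5 := Phi (k + 1 + 2) (derivative (derivative (P k))) e with hA5
  have b1' : |A1 y| ≤ 30 * U := by linarith
  have b2' : |A2 y| ≤ 20 * U := by linarith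
  have b4' : |A4 y| ≤ 20 * U := by linarith
  have gen : ∀ {x c0 c1 c : ℝ} {j : ℕ}, 0 ≤ c0 → (j : ℝ) ≤ 4 →
      |x| ≤ 2 * (((k + 1 + j : ℕ) : ℝ) * (c0 * N ^ 2 * B) + 2 * (c1 * N ^ 3 * B)) * d →
      2 * ((1 + j) * c0 + 2 * c1) ≤ c → |x| ≤ c * U * d := by
    intro x c0 c1 c j h0 hj h1 h2
    refine h1.trans (mul_le_mul_of_nonneg_right ?_ hd0)
    have h3 : ((k + 1 + j : ℕ) : ℝ) ≤ (1 + j) * N := by
      push_cast
      have : (0 : ℝ) ≤ j := Nat.cast_nonneg j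
      rw [hN]
      nlinarith
    have h4 : ((k + 1 + j : ℕ) : ℝ) * (c0 * N ^ 2 * B) ≤ (1 + j) * N * (c0 * N ^ 2 * B) :=
      mul_le_mul_of_nonneg_right h3 (by positivity)
    have h5 : (1 + j) * N * (c0 * N ^ 2 * B) = (1 + j) * c0 * U := by rw [hU]; ring
    have h6 : 2 * ((1 + j) * c0 + 2 * c1) * U ≤ c * U := mul_le_mul_of_nonneg_right h2 hN3
    have h7 : c1 * N ^ 3 * B = c1 * U := by rw [hU]; ring
    rw [h7]
    linarith
  have l1' : |A1 y - A1 ω| ≤ 510 * U * d := gen (j := 4) (by norm_num) (by norm_num) l1 (by norm_num)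
  have l2' : |A2 y - A2 ω| ≤ 340 * U * d := gen (j := 3) (by norm_num) (by norm_num) l2 (by norm_num)
  have l3' : |A3 y - A3 ω| ≤ 55 * U * d := by
    refine l3.trans (mul_le_mul_of_nonneg_right ?_ hd0)
    have h3 : ((k + 1 + 2 : ℕ) : ℝ) ≤ 3 * N := by
      push_cast
      rw [hN]
      linarith
    have h4 : ((k + 1 + 2 : ℕ) : ℝ) * (5 / 2 * N * B) ≤ 3 * N * (5 / 2 * N * B) :=
      mul_le_mul_of_nonneg_right h3 (by positivity)
    have h5 : 3 * N * (5 / 2 * N * B) = 15 / 2 * (N ^ 2 * B) := by ring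
    have h6 : 10 * N ^ 2 * B = 10 * (N ^ 2 * B) := by ring
    rw [h6]
    linarith
  have l4' : |A4 y - A4 ω| ≤ 340 * U * d := gen (j := 3) (by norm_num) (by norm_num) l4 (by norm_num)
  have l5' : |A5 y - A5 ω| ≤ 274 * U * d := gen (j := 2) (by norm_num) (by norm_num) l5 (by norm_num)
  -- the norm
  have hfin : 3000 * N ^ 3 * B * d = 3000 * U * d := by rw [hU]; ring
  rw [hfin]
  refine ContinuousLinearMap.opNorm_le_bound₂ _ (by positivity) fun v w => ?_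
  rw [Real.norm_eq_abs]
  have hsub : (fderiv ℝ (fderiv ℝ (Ek k e)) y - fderiv ℝ (fderiv ℝ (Ek k e)) ω) v w =
      fderiv ℝ (fderiv ℝ (Ek k e)) y v w - fderiv ℝ (fderiv ℝ (Ek k e)) ω v w := rfl
  rw [hsub, Ek_eq_Phi, Phi_fderiv2 (k + 1) (P k) e hy0, Phi_fderiv2 (k + 1) (P k) e hω0]
  have hyv : ∀ v : E, (inner ℝ y v : ℝ) = inner ℝ ω v + inner ℝ (y - ω) v := fun v => by
    rw [inner_sub_left]
    ring
  rw [hyv v, hyv w]
  have c1 : |(inner ℝ ω v : ℝ)| ≤ ‖v‖ := by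
    have := abs_real_inner_le_norm ω v
    rwa [hω, one_mul] at this
  have c2 : |(inner ℝ ω w : ℝ)| ≤ ‖w‖ := by
    have := abs_real_inner_le_norm ω w
    rwa [hω, one_mul] at this
  have c3 : |(inner ℝ e v : ℝ)| ≤ ‖v‖ := by
    have := abs_real_inner_le_norm e v
    rwa [he, one_mul] at this
  have c4 : |(inner ℝ e w : ℝ)| ≤ ‖w‖ := by
    have := abs_real_inner_le_norm e w
    rwa [he, one_mul] at this
  exact alg hd0 hd1 (norm_nonneg v) (norm_nonneg w) hN3 c1 c2 (abs_real_inner_le_norm _ _)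
    (abs_real_inner_le_norm _ _) c3 c4 (abs_real_inner_le_norm _ _) b1' b2' b4' l1' l2' l3' l4' l5'

end PC992CC
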