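import Mathlib
import Pool.Agent.Work.MP_992d6e_an.CC.Defs
import Pool.Agent.Work.MP_992d6e_an.CC.LegC
import Pool.Agent.Work.MP_992d6e_an.CC.HvA
import Pool.Agent.Work.MP_992d6e_an.CC.HessN

/-!
MP_992d6e_an, CC/MdlA: the unit critical points of the two-term model satisfy `CD` with `R = 1`.

PROOF. Put `lam = -(α (a+1) P_a(u)) = σ (a+2) P_(a+1)(v)` and `ω = u e + v f + y g`.
(1) `P_crit_value a`: `(a!)² ≤ (2a+1) P_a(u)² ≤ (a+1)² P_a(u)²`, so `a! ≤ (a+1) |P_a(u)|` and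
`|α| a! ≤ |lam|`. `P_crit_value (a+1)`: `((a+1)!)² ≤ (2a+3) P_(a+1)(v)² ≤ (a+2)² P_(a+1)(v)²`, so
`|σ| (a+1)! ≤ |lam|`. In particular `lam ≠ 0` (`α ≠ 0`).
(2) `‖ω‖ = 1`, `<e,ω> = u`, `<f,ω> = v` (as in `PC992.model_point`), `‖e‖ = ‖f‖ = 1`. Put
`A = fderiv ℝ (fderiv ℝ V) ω`, `V x = α Ek a e x + σ Ek (a+1) f x`; `hess_model`, `form_upper`,
`form_lower`: `‖A‖ ≤ (2a+2)|lam|`, `|lam|/70 ‖z‖ ≤ ‖A z‖`.
(3) Let `ρ = 1 / (1800000 (a+2)^3)` and `‖x - ω‖ ≤ ρ * 1`. Then `‖x - ω‖ ≤ 1/(40(a+2))`, which is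
also `≤ 1/(40(a+1))`; `x ≠ 0`; so `V` is `ContDiffAt ℝ 2` at `x` (`PC992.Ek_contDiffAt`) and by
`PC992.fderiv2_comb` and `hess_var` for `a` and `a+1`:
`‖D²V(x) - D²V(ω)‖ ≤ |α| 3000 (a+1)^3 a! ‖x-ω‖ + |σ| 3000 (a+2)^3 (a+1)! ‖x-ω‖
≤ 6000 (a+2)^3 |lam| ‖x-ω‖ ≤ |lam| / 300`.
(4) Witness of `CD`: `σ_CD = |lam|/71`, `σ' = |lam|/70`, `κ = 71 (2a+3)`, this `ρ`,
`τ = |lam|/300 < |lam|/284 = σ_CD/4`; `‖A‖ ≤ (2a+2)|lam| < (2a+3)|lam| = κ σ_CD`;
`Bd a * ρ = 3*10^8 (a+2)^4 / (1.8*10^6 (a+2)^3) = (500/3)(a+2) > 142 a + 213 = κ`.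
-/

namespace PC992CC

open Polynomial PC992

theorem model_point_cd (a : ℕ) (ha : 1 ≤ a) {e f g : E} (hfr : Frame e f g)
    {α σ u v y : ℝ} (hα : α ≠ 0) (hu7 : |u| ≤ 7 / 10) (hv7 : |v| ≤ 7 / 10)
    (hu : (derivative (P a)).eval u = 0) (hv : (derivative (P (a + 1))).eval v = 0)
    (hy : u ^ 2 + v ^ 2 + y ^ 2 = 1)
    (hrel : α * (a + 1) * (P a).eval u + σ * (a + 2) * (P (a + 1)).eval v = 0) :
    CD (fun x => α * Ek a e x + σ * Ek (a + 1) f x) (u • e + v • f + y • g) 1 (Bd a) := by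
  have ha0 : (0 : ℝ) ≤ a := Nat.cast_nonneg a
  have hfr' := hfr
  obtain ⟨he, hf, hg, hef, heg, hfg, hspan⟩ := hfr'
  have hfe : inner ℝ f e = (0 : ℝ) := by rw [real_inner_comm, hef]
  have hge : inner ℝ g e = (0 : ℝ) := by rw [real_inner_comm, heg]
  have hgf : inner ℝ g f = (0 : ℝ) := by rw [real_inner_comm, hfg]
  set ω : E := u • e + v • f + y • g with hωdef
  have nrm : ∀ x : E, inner ℝ x x = (1 : ℝ) → ‖x‖ = 1 := fun x h => by
    have : ‖x‖ ^ 2 = 1 := by rw [← real_inner_self_eq_norm_sq, h]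
    nlinarith [norm_nonneg x]
  have hωω : inner ℝ ω ω = (1 : ℝ) := by
    simp only [hωdef, inner_add_left, inner_add_right, real_inner_smul_left,
      real_inner_smul_right, he, hf, hg, hef, heg, hfg, hfe, hge, hgf]
    linarith [hy]
  have hω := nrm ω hωω
  have he1 := nrm e he
  have hf1 := nrm f hf
  have heω : inner ℝ e ω = u := by
    simp only [hωdef, inner_add_right, real_inner_smul_right, he, hef, heg]
    ring
  have hfω : inner ℝ f ω = v := by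
    simp only [hωdef, inner_add_right, real_inner_smul_right, hf, hfe, hfg]
    ring
  set p : ℝ := (P a).eval u with hp
  set q : ℝ := (P (a + 1)).eval v with hq
  set lam : ℝ := -(α * (a + 1) * p) with hlam
  have hlam2 : lam = σ * (a + 2) * q := by
    rw [hlam]
    linarith
  -- (1)
  have k1 : |α| * (a.factorial : ℝ) ≤ |lam| := by
    have h1 := P_crit_value a ha (hu7.trans (by norm_num)) hu
    have h2 : (a.factorial : ℝ) ^ 2 ≤ ((a + 1) * |p|) ^ 2 := by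
      rw [mul_pow, sq_abs]
      refine h1.trans (mul_le_mul_of_nonneg_right ?_ (sq_nonneg _))
      nlinarith
    have h3 : (a.factorial : ℝ) ≤ (a + 1) * |p| := le_of_sq_le_sq h2 (by positivity)
    have h4 : |lam| = |α| * ((a + 1) * |p|) := by
      rw [hlam, abs_neg, abs_mul, abs_mul, abs_of_nonneg (by positivity : (0 : ℝ) ≤ (a : ℝ) + 1)]
      ring
    rw [h4]
    exact mul_le_mul_of_nonneg_left h3 (abs_nonneg _)
  have k2 : |σ| * ((a + 1).factorial : ℝ) ≤ |lam| := by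
    have h1 := P_crit_value (a + 1) (by omega) (hv7.trans (by norm_num)) hv
    have h2 : ((a + 1).factorial : ℝ) ^ 2 ≤ ((a + 2) * |q|) ^ 2 := by
      rw [mul_pow, sq_abs]
      refine h1.trans (mul_le_mul_of_nonneg_right ?_ (sq_nonneg _))
      push_cast
      nlinarith
    have h3 : ((a + 1).factorial : ℝ) ≤ (a + 2) * |q| := le_of_sq_le_sq h2 (by positivity)
    have h4 : |lam| = |σ| * ((a + 2) * |q|) := by
      rw [hlam2, abs_mul, abs_mul, abs_of_nonneg (by positivity : (0 : ℝ) ≤ (a : ℝ) + 2)]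
      ring
    rw [h4]
    exact mul_le_mul_of_nonneg_left h3 (abs_nonneg _)
  have hL : 0 < |lam| := by
    refine lt_of_lt_of_le ?_ k1
    have : (0 : ℝ) < a.factorial := by exact_mod_cast a.factorial_pos
    exact mul_pos (abs_pos.2 hα) this
  -- (2)
  have hform := fun z w => hess_model a hfr hu7 hv7 hu hv hy hrel hωdef z w
  have hup := form_upper a hfr hu7 hv7 hy hωdef _ hform
  have hlo := form_lower a ha hfr hu7 hv7 hy hωdef _ hform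
  rw [← hp, ← hlam] at hup
  -- (3)
  have h2a : (0 : ℝ) < (a : ℝ) + 2 := by linarith
  set ρ : ℝ := 1 / (1800000 * ((a : ℝ) + 2) ^ 3) with hρ
  have hρ0 : 0 < ρ := by rw [hρ]; positivity
  have hρc : ρ * ((a : ℝ) + 2) ^ 3 = 1 / 1800000 := by
    rw [hρ]
    field_simp
  have hcube : (a : ℝ) + 2 ≤ ((a : ℝ) + 2) ^ 3 := by
    have : (1 : ℝ) ≤ ((a : ℝ) + 2) ^ 2 := by nlinarith
    nlinarith
  have hρa : ρ * ((a : ℝ) + 2) ≤ 1 / 1800000 := by
    rw [← hρc]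
    exact mul_le_mul_of_nonneg_left hcube hρ0.le
  have hρ1 : ρ < 1 := by nlinarith
  have hρ40 : ρ ≤ 1 / (40 * ((a : ℝ) + 2)) := by
    rw [le_div_iff₀ (by positivity)]
    linarith
  have hω0 : ω ≠ 0 := by
    rintro h
    rw [h] at hω
    simp at hω
  have hx : ∀ x : E, ‖x - ω‖ ≤ ρ * 1 →
      ContDiffAt ℝ 2 (fun x => α * Ek a e x + σ * Ek (a + 1) f x) x ∧
      ‖fderiv ℝ (fderiv ℝ (fun x => α * Ek a e x + σ * Ek (a + 1) f x)) x -
        fderiv ℝ (fderiv ℝ (fun x => α * Ek a e x + σ * Ek (a + 1) f x)) ω‖ ≤ |lam| / 300 := by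
    intro x hx
    rw [mul_one] at hx
    have hx0 : x ≠ 0 := by
      rintro rfl
      rw [zero_sub, norm_neg, hω] at hx
      linarith
    have hF : ContDiffAt ℝ 2 (Ek a e) x := Ek_contDiffAt a e hx0 2
    have hG : ContDiffAt ℝ 2 (Ek (a + 1) f) x := Ek_contDiffAt (a + 1) f hx0 2
    have hFω : ContDiffAt ℝ 2 (Ek a e) ω := Ek_contDiffAt a e hω0 2
    have hGω : ContDiffAt ℝ 2 (Ek (a + 1) f) ω := Ek_contDiffAt (a + 1) f hω0 2
    refine ⟨(contDiffAt_const.mul hF).add (contDiffAt_const.mul hG), ?_⟩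
    rw [fderiv2_comb hF hG, fderiv2_comb hFω hGω]
    have e1 : α • fderiv ℝ (fderiv ℝ (Ek a e)) x + σ • fderiv ℝ (fderiv ℝ (Ek (a + 1) f)) x -
        (α • fderiv ℝ (fderiv ℝ (Ek a e)) ω + σ • fderiv ℝ (fderiv ℝ (Ek (a + 1) f)) ω) =
        α • (fderiv ℝ (fderiv ℝ (Ek a e)) x - fderiv ℝ (fderiv ℝ (Ek a e)) ω) +
        σ • (fderiv ℝ (fderiv ℝ (Ek (a + 1) f)) x - fderiv ℝ (fderiv ℝ (Ek (a + 1) f)) ω) := by
      rw [smul_sub, smul_sub]
      abel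
    rw [e1]
    have g1 := hess_var a he1 hω (by rw [heω]; exact hu7) (y := x) (hx.trans (hρ40.trans (by
      refine one_div_le_one_div_of_le (by positivity) ?_
      linarith)))
    have g2 := hess_var (a + 1) hf1 hω (by rw [hfω]; exact hv7) (y := x) (hx.trans (hρ40.trans (by
      refine one_div_le_one_div_of_le (by positivity) ?_
      push_cast
      linarith)))
    have c1 : 3000 * ((a : ℝ) + 1) ^ 3 * a.factorial * ‖x - ω‖ ≤
        3000 * ((a : ℝ) + 2) ^ 3 * ρ * a.factorial := by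
      have h1 : ((a : ℝ) + 1) ^ 3 ≤ ((a : ℝ) + 2) ^ 3 := by gcongr; norm_num
      calc 3000 * ((a : ℝ) + 1) ^ 3 * a.factorial * ‖x - ω‖
          ≤ 3000 * ((a : ℝ) + 2) ^ 3 * a.factorial * ρ := by gcongr
        _ = 3000 * ((a : ℝ) + 2) ^ 3 * ρ * a.factorial := by ring
    have c2 : 3000 * (((a + 1 : ℕ) : ℝ) + 1) ^ 3 * (a + 1).factorial * ‖x - ω‖ ≤
        3000 * ((a : ℝ) + 2) ^ 3 * ρ * (a + 1).factorial := by
      have h1 : (((a + 1 : ℕ) : ℝ) + 1) = (a : ℝ) + 2 := by push_cast; ring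
      rw [h1]
      calc 3000 * ((a : ℝ) + 2) ^ 3 * (a + 1).factorial * ‖x - ω‖
          ≤ 3000 * ((a : ℝ) + 2) ^ 3 * (a + 1).factorial * ρ := by gcongr
        _ = 3000 * ((a : ℝ) + 2) ^ 3 * ρ * (a + 1).factorial := by ring
    have c0 : 3000 * ((a : ℝ) + 2) ^ 3 * ρ = 1 / 600 := by
      have : 3000 * ((a : ℝ) + 2) ^ 3 * ρ = 3000 * (ρ * ((a : ℝ) + 2) ^ 3) := by ring
      rw [this, hρc]
      norm_num
    rw [c0] at c1 c2
    have d1 := mul_le_mul_of_nonneg_left (g1.trans c1) (abs_nonneg α)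
    have d2 := mul_le_mul_of_nonneg_left (g2.trans c2) (abs_nonneg σ)
    have d3 : |α| * (1 / 600 * (a.factorial : ℝ)) = 1 / 600 * (|α| * a.factorial) := by ring
    have d4 : |σ| * (1 / 600 * ((a + 1).factorial : ℝ)) = 1 / 600 * (|σ| * (a + 1).factorial) := by ring
    rw [d3] at d1
    rw [d4] at d2
    refine ContinuousLinearMap.opNorm_le_bound₂ _ (by positivity) fun z w => ?_
    rw [Real.norm_eq_abs]
    have n1 := (fderiv ℝ (fderiv ℝ (Ek a e)) x - fderiv ℝ (fderiv ℝ (Ek a e)) ω).le_opNorm₂ z w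
    have n2 := (fderiv ℝ (fderiv ℝ (Ek (a + 1) f)) x -
      fderiv ℝ (fderiv ℝ (Ek (a + 1) f)) ω).le_opNorm₂ z w
    rw [Real.norm_eq_abs] at n1 n2
    have n3 : (α • (fderiv ℝ (fderiv ℝ (Ek a e)) x - fderiv ℝ (fderiv ℝ (Ek a e)) ω) +
        σ • (fderiv ℝ (fderiv ℝ (Ek (a + 1) f)) x - fderiv ℝ (fderiv ℝ (Ek (a + 1) f)) ω)) z w =
        α * (fderiv ℝ (fderiv ℝ (Ek a e)) x - fderiv ℝ (fderiv ℝ (Ek a e)) ω) z w +
        σ * (fderiv ℝ (fderiv ℝ (Ek (a + 1) f)) x - fderiv ℝ (fderiv ℝ (Ek (a + 1) f)) ω) z w := rfl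
    rw [n3]
    refine (abs_add_le _ _).trans ?_
    rw [abs_mul, abs_mul]
    have m1 := mul_le_mul_of_nonneg_left n1 (abs_nonneg α)
    have m2 := mul_le_mul_of_nonneg_left n2 (abs_nonneg σ)
    have hzw : 0 ≤ ‖z‖ * ‖w‖ := by positivity
    have m3 : |α| * ‖fderiv ℝ (fderiv ℝ (Ek a e)) x - fderiv ℝ (fderiv ℝ (Ek a e)) ω‖ * (‖z‖ * ‖w‖) ≤
        |lam| / 600 * (‖z‖ * ‖w‖) := mul_le_mul_of_nonneg_right (by linarith) hzw
    have m4 : |σ| * ‖fderiv ℝ (fderiv ℝ (Ek (a + 1) f)) x - fderiv ℝ (fderiv ℝ (Ek (a + 1) f)) ω‖ *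
        (‖z‖ * ‖w‖) ≤ |lam| / 600 * (‖z‖ * ‖w‖) := mul_le_mul_of_nonneg_right (by linarith) hzw
    have m5 : |lam| / 300 * ‖z‖ * ‖w‖ = |lam| / 600 * (‖z‖ * ‖w‖) + |lam| / 600 * (‖z‖ * ‖w‖) := by ring
    rw [m5]
    refine (add_le_add m1 m2).trans (le_trans (le_of_eq ?_) (add_le_add m3 m4))
    ring
  -- (4)
  refine ⟨|lam| / 71, |lam| / 70, 71 * (2 * a + 3), ρ, |lam| / 300, by positivity, by linarith,
    by linarith, hρ0, hρ1, ?_, by linarith, ?_, ?_, hx⟩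
  · have e1 : Bd a * ρ = 500 / 3 * ((a : ℝ) + 2) := by
      have : Bd a * ρ = 3 * 10 ^ 8 * ((a : ℝ) + 2) * (ρ * ((a : ℝ) + 2) ^ 3) := by
        unfold Bd
        ring
      rw [this, hρc]
      ring
    rw [e1]
    linarith
  · intro z
    exact hlo z
  · have e1 : 71 * (2 * (a : ℝ) + 3) * (|lam| / 71) = (2 * a + 3) * |lam| := by ring
    rw [e1]
    refine hup.trans_lt ?_
    nlinarith

end PC992CC
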