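import Mathlib
import Pool.Agent.Work.MP_992d6e_an.CC.Defs

/-!
MP_992d6e_an, CC/Rsc: rescaling of the condition `CD` (cf. `PC992.NDC.rescale`).

PROOF. Put `W y = c * V (τ • y)` and `s = |c * τ * τ| > 0`. By `PC992.fderiv2_scale`,
`fderiv ℝ (fderiv ℝ W) z = (c * τ * τ) • fderiv ℝ (fderiv ℝ V) (τ • z)` for all `z`. If
`(σ, σ', κ, ρ, τ0)` is a witness for `CD W y R M` then `(σ / s, σ' / s, κ, ρ, τ0 / s)` is a witness
for `CD V (τ • y) (τ * R) M`: `‖D²W(y) v‖ = s * ‖D²V(τ • y) v‖`, `‖D²W(y)‖ = s * ‖D²V(τ • y)‖`,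
`κ * (σ / s) = κ * σ / s`, and `(τ0 / s) < (σ / s) / 4`. If `‖z - τ • y‖ ≤ ρ * (τ * R)` put
`w = τ⁻¹ • z`; then `‖w - y‖ = τ⁻¹ * ‖z - τ • y‖ ≤ ρ * R`, `τ • w = z`, so
`‖D²W(w) - D²W(y)‖ = s * ‖D²V(z) - D²V(τ • y)‖ ≤ τ0`, and `V = fun z => c⁻¹ * W (τ⁻¹ • z)` is
`ContDiffAt ℝ 2` at `z` as in the proof of `PC992.NDC.rescale`.
-/

namespace PC992CC

open Filter Topology PC992

private theorem ns {F : Type*} [NormedAddCommGroup F] [NormedSpace ℝ F] (a : ℝ) (x : F) :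
    ‖a • x‖ = |a| * ‖x‖ := by
  rw [norm_smul, Real.norm_eq_abs]

theorem CD.rescale {V : E → ℝ} {c τ : ℝ} (hc : c ≠ 0) (hτ : 0 < τ) {y : E} {R M : ℝ}
    (h : CD (fun y => c * V (τ • y)) y R M) : CD V (τ • y) (τ * R) M := by
  obtain ⟨σ, σ', κ, ρ, τ0, h1, h2, h3, h4, h5, h6, h7, h8, h9, h10⟩ := h
  have hτ0 : τ ≠ 0 := hτ.ne'
  have hs : 0 < |c * τ * τ| := abs_pos.2 (mul_ne_zero (mul_ne_zero hc hτ0) hτ0)
  have hd : ∀ z : E, fderiv ℝ (fderiv ℝ (fun y => c * V (τ • y))) z =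
      (c * τ * τ) • fderiv ℝ (fderiv ℝ V) (τ • z) := fun z => fderiv2_scale V c τ z
  have hn : ∀ L : E →L[ℝ] E →L[ℝ] ℝ, ‖(c * τ * τ) • L‖ = |c * τ * τ| * ‖L‖ := fun L =>
    ns (c * τ * τ) L
  refine ⟨σ / |c * τ * τ|, σ' / |c * τ * τ|, κ, ρ, τ0 / |c * τ * τ|, div_pos h1 hs,
    div_lt_div_of_pos_right h2 hs, h3, h4, h5, h6, ?_, ?_, ?_, ?_⟩
  · calc τ0 / |c * τ * τ| < σ / 4 / |c * τ * τ| := div_lt_div_of_pos_right h7 hs
      _ = σ / |c * τ * τ| / 4 := by ring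
  · intro v
    have h8' := h8 v
    rw [hd, smul_apply, ns] at h8'
    rw [div_mul_eq_mul_div, div_le_iff₀ hs]
    linarith [mul_comm |c * τ * τ| ‖fderiv ℝ (fderiv ℝ V) (τ • y) v‖]
  · rw [hd, hn] at h9
    rw [← mul_div_assoc, lt_div_iff₀ hs]
    linarith [mul_comm |c * τ * τ| ‖fderiv ℝ (fderiv ℝ V) (τ • y)‖]
  · intro z hz
    have hw : ‖τ⁻¹ • z - y‖ ≤ ρ * R := by
      have e : τ⁻¹ • z - y = τ⁻¹ • (z - τ • y) := by
        rw [smul_sub, inv_smul_smul₀ hτ0]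
      rw [e, norm_smul, Real.norm_eq_abs, abs_of_pos (inv_pos.2 hτ), inv_mul_le_iff₀ hτ]
      linarith
    obtain ⟨g1, g2⟩ := h10 _ hw
    have hz' : τ • (τ⁻¹ • z) = z := smul_inv_smul₀ hτ0 z
    refine ⟨?_, ?_⟩
    · have hinv : ContDiffAt ℝ 2 (fun z : E => τ⁻¹ • z) z := contDiffAt_id.const_smul τ⁻¹
      have h4 : ContDiffAt ℝ 2 (fun z : E => c⁻¹ * (c * V (τ • (τ⁻¹ • z)))) z :=
        contDiffAt_const.mul (ContDiffAt.comp (g := fun y => c * V (τ • y))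
          (f := fun z : E => τ⁻¹ • z) z g1 hinv)
      have h5 : (fun z : E => c⁻¹ * (c * V (τ • (τ⁻¹ • z)))) = V := by
        funext z
        rw [smul_inv_smul₀ hτ0, ← mul_assoc, inv_mul_cancel₀ hc, one_mul]
      rwa [h5] at h4
    · rw [hd, hd, hz'] at g2
      have g3 : ‖(c * τ * τ) • (fderiv ℝ (fderiv ℝ V) z - fderiv ℝ (fderiv ℝ V) (τ • y))‖ ≤ τ0 := by
        rw [smul_sub]
        exact g2
      rw [hn] at g3
      rw [le_div_iff₀ hs]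
      linarith [mul_comm |c * τ * τ| ‖fderiv ℝ (fderiv ℝ V) z - fderiv ℝ (fderiv ℝ V) (τ • y)‖]

end PC992CC
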