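import Mathlib
import Pool.Agent.Work.MP_992d6e_an.CC.Rsc
import Pool.Agent.Work.MP_992d6e_an.CC.MdlA

/-!
MP_992d6e_an, CC/MdlB: the two-term model with `CD` at all the critical points.

PROOF. Copy the proof of `PC992.model` (`Model.lean`), with one more conclusion in `hmem`: for
`p = (u, v) ∈ T`, `s² = 1`, `t = tt p > 0`, `yy = s √(1 - u² - v²)`, `ω = u e + v f + yy g`, the point
`φ (p, s) = t • ω` satisfies `CD V (t • ω) ‖t • ω‖ (Bd a)`, `V x = α Ek a e x + σ Ek (a+1) f x`.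
For this: `‖ω‖ = 1`, so `‖t • ω‖ = t = t * 1`. By `PC992.Ek_smul`
`t^(a+2) * V (t • x) = (α t) Ek a e x + σ Ek (a+1) f x` for all `x` (`t > 0`). Apply
`model_point_cd` with `α t` in the place of `α` (the relation `α (a+1) P_a(u) t + σ (a+2) P_(a+1)(v)
= 0` is the hypothesis used for `model_point`), and then `CD.rescale` with `c = t^(a+2)`, `τ = t`.
The case `K a * K (a+1) = 0` is `S = ∅` as before.
-/

namespace PC992CC

open Filter Topology Polynomial PC992

private theorem scaled_cd (a : ℕ) (ha : 1 ≤ a) {e f g : E} (hfr : Frame e f g)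
    {α σ u v y t : ℝ} (hα : α ≠ 0) (ht : 0 < t) (hu7 : |u| ≤ 7 / 10) (hv7 : |v| ≤ 7 / 10)
    (hu : (derivative (P a)).eval u = 0) (hv : (derivative (P (a + 1))).eval v = 0)
    (hy : u ^ 2 + v ^ 2 + y ^ 2 = 1)
    (hrel : α * (a + 1) * (P a).eval u * t + σ * (a + 2) * (P (a + 1)).eval v = 0) :
    CD (fun x => α * Ek a e x + σ * Ek (a + 1) f x) (t • (u • e + v • f + y • g))
      ‖t • (u • e + v • f + y • g)‖ (Bd a) := by
  have h1 : CD (fun x => (α * t) * Ek a e x + σ * Ek (a + 1) f x) (u • e + v • f + y • g) 1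
      (Bd a) := by
    refine model_point_cd a ha hfr (mul_ne_zero hα ht.ne') hu7 hv7 hu hv hy ?_
    linarith [hrel]
  obtain ⟨he, hf, hg, hef, heg, hfg, hspan⟩ := hfr
  have hfe : inner ℝ f e = (0 : ℝ) := by rw [real_inner_comm, hef]
  have hge : inner ℝ g e = (0 : ℝ) := by rw [real_inner_comm, heg]
  have hgf : inner ℝ g f = (0 : ℝ) := by rw [real_inner_comm, hfg]
  have hωω : inner ℝ (u • e + v • f + y • g) (u • e + v • f + y • g) = (1 : ℝ) := by
    simp only [inner_add_left, inner_add_right, real_inner_smul_left,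
      real_inner_smul_right, he, hf, hg, hef, heg, hfg, hfe, hge, hgf]
    linarith [hy]
  have hω : ‖u • e + v • f + y • g‖ = 1 := by
    have : ‖u • e + v • f + y • g‖ ^ 2 = 1 := by rw [← real_inner_self_eq_norm_sq, hωω]
    nlinarith [norm_nonneg (u • e + v • f + y • g)]
  have hn : ‖t • (u • e + v • f + y • g)‖ = t * 1 := by
    rw [norm_smul, Real.norm_of_nonneg ht.le, hω]
  rw [hn]
  refine CD.rescale (c := t ^ (a + 2)) (pow_ne_zero _ ht.ne') ht ?_
  have hfun : (fun x : E => t ^ (a + 2) *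
      (fun x => α * Ek a e x + σ * Ek (a + 1) f x) (t • x)) =
      fun x => (α * t) * Ek a e x + σ * Ek (a + 1) f x := by
    funext x
    have ht0 : t ≠ 0 := ht.ne'
    simp only [Ek_smul a e x ht, Ek_smul (a + 1) f x ht]
    rw [show a + 2 = (a + 1) + 1 by ring, pow_succ t (a + 1)]
    field_simp
  rw [hfun]
  exact h1

theorem model_cd (a : ℕ) {e f g : E} (hfr : Frame e f g) {α : ℝ} (hα : α ≠ 0) :
    ∃ σ : ℝ, σ ≠ 0 ∧ ∃ S : Finset E, K a * K (a + 1) ≤ S.card ∧
      ∀ x ∈ S, x ≠ 0 ∧ x ∈ NDC (fun x => α * Ek a e x + σ * Ek (a + 1) f x) ∧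
        CD (fun x => α * Ek a e x + σ * Ek (a + 1) f x) x ‖x‖ (Bd a) := by
  classical
  by_cases hK : K a * K (a + 1) = 0
  · exact ⟨1, one_ne_zero, ∅, by simp [hK], by simp⟩
  have ha : 1 ≤ a := by
    by_contra h
    have : a = 0 := by omega
    subst this
    exact hK (by simp [K])
  obtain ⟨U, hUc, hU⟩ := crit_count a
  obtain ⟨W, hWc, hW⟩ := crit_count (a + 1)
  obtain ⟨he, hf, hg, hef, heg, hfg, hspan⟩ := hfr
  have hfe : inner ℝ f e = (0 : ℝ) := by rw [real_inner_comm, hef]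
  have hge : inner ℝ g e = (0 : ℝ) := by rw [real_inner_comm, heg]
  have hgf : inner ℝ g f = (0 : ℝ) := by rw [real_inner_comm, hfg]
  -- choice of the sign
  let Tp := (U ×ˢ W).filter (fun p => 0 < α * (P a).eval p.1 * (P (a + 1)).eval p.2)
  let Tn := (U ×ˢ W).filter (fun p => ¬ 0 < α * (P a).eval p.1 * (P (a + 1)).eval p.2)
  have hcard : Tp.card + Tn.card = K a * K (a + 1) := by
    rw [Finset.card_filter_add_card_filter_not, Finset.card_product, hUc, hWc]
  obtain ⟨σ, hσ, T, hT2, hT⟩ : ∃ σ : ℝ, σ ≠ 0 ∧ ∃ T : Finset (ℝ × ℝ),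
      K a * K (a + 1) ≤ 2 * T.card ∧ ∀ p ∈ T, p ∈ U ×ˢ W ∧
        α * (P a).eval p.1 * (σ * (P (a + 1)).eval p.2) < 0 := by
    rcases le_total Tn.card Tp.card with h | h
    · refine ⟨-1, by norm_num, Tp, by omega, fun p hp => ?_⟩
      rw [Finset.mem_filter] at hp
      exact ⟨hp.1, by linarith [hp.2]⟩
    · refine ⟨1, by norm_num, Tn, by omega, fun p hp => ?_⟩
      rw [Finset.mem_filter] at hp
      refine ⟨hp.1, ?_⟩
      have h1 := hp.2
      rw [not_lt] at h1
      have hp' := Finset.mem_product.mp hp.1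
      have h2 := (hU _ hp'.1).2.2
      have h3 := (hW _ hp'.2).2.2
      have h4 : α * (P a).eval p.1 * (P (a + 1)).eval p.2 ≠ 0 := by positivity
      rcases h1.lt_or_eq with h5 | h5
      · linarith
      · exact absurd h5 h4
  -- the points
  let tt : ℝ × ℝ → ℝ := fun p =>
    - (σ * (a + 2) * (P (a + 1)).eval p.2) / (α * (a + 1) * (P a).eval p.1)
  let φ : (ℝ × ℝ) × ℝ → E := fun p =>
    tt p.1 • (p.1.1 • e + p.1.2 • f + (p.2 * √(1 - p.1.1 ^ 2 - p.1.2 ^ 2)) • g)
  have htt : ∀ p ∈ T, 0 < tt p := by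
    intro p hp
    have h1 := (hT p hp).2
    have hp' := Finset.mem_product.mp (hT p hp).1
    have h2 := (hU _ hp'.1).2.2
    have h3 : α * (P a).eval p.1 ≠ 0 := by positivity
    have h4 : tt p = (-(α * (P a).eval p.1 * (σ * (P (a + 1)).eval p.2))) * (a + 2) /
        ((α * (P a).eval p.1) ^ 2 * (a + 1)) := by
      simp only [tt]
      field_simp
    rw [h4]
    have : 0 < (α * (P a).eval p.1) ^ 2 := by positivity
    apply div_pos
    · apply mul_pos
      · linarith
      · positivity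
    · positivity
  have hrad : ∀ p ∈ T, 0 < 1 - p.1 ^ 2 - p.2 ^ 2 := by
    intro p hp
    have hp' := Finset.mem_product.mp (hT p hp).1
    have h2 := (hU _ hp'.1).1
    have h3 := (hW _ hp'.2).1
    rw [abs_lt] at h2 h3
    nlinarith
  have hmem : ∀ p ∈ T, ∀ s : ℝ, s ^ 2 = 1 → φ (p, s) ≠ 0 ∧
      φ (p, s) ∈ NDC (fun x => α * Ek a e x + σ * Ek (a + 1) f x) ∧
      CD (fun x => α * Ek a e x + σ * Ek (a + 1) f x) (φ (p, s)) ‖φ (p, s)‖ (Bd a) := by
    intro p hp s hs
    have hp' := Finset.mem_product.mp (hT p hp).1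
    have h2 := hU _ hp'.1
    have h3 := hW _ hp'.2
    have hr := hrad p hp
    have hs0 : s ≠ 0 := by
      rintro rfl
      norm_num at hs
    have hy0 : s * √(1 - p.1 ^ 2 - p.2 ^ 2) ≠ 0 := by
      have := Real.sqrt_pos.mpr hr
      positivity
    have hsq : √(1 - p.1 ^ 2 - p.2 ^ 2) ^ 2 = 1 - p.1 ^ 2 - p.2 ^ 2 := Real.sq_sqrt hr.le
    have key := model_point a ha ⟨he, hf, hg, hef, heg, hfg, hspan⟩ hα hσ h2.2.1 h2.2.2
      h3.2.1 h3.2.2 (y := s * √(1 - p.1 ^ 2 - p.2 ^ 2)) (t := tt p)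
      (by rw [mul_pow, hsq, hs]; ring) hy0 (htt p hp) (by
        simp only [tt]
        have h20 := h2.2.2
        field_simp
        ring)
    have hcd : CD (fun x => α * Ek a e x + σ * Ek (a + 1) f x) (φ (p, s)) ‖φ (p, s)‖ (Bd a) :=
      scaled_cd a ha ⟨he, hf, hg, hef, heg, hfg, hspan⟩ hα (htt p hp) h2.1.le h3.1.le h2.2.1
        h3.2.1 (y := s * √(1 - p.1 ^ 2 - p.2 ^ 2)) (by rw [mul_pow, hsq, hs]; ring) (by
        simp only [tt]
        have h20 := h2.2.2
        field_simp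
        ring)
    refine ⟨?_, key, hcd⟩
    intro h0
    have h1 : inner ℝ g (φ (p, s)) = (0 : ℝ) := by rw [h0]; simp
    simp only [φ, inner_add_right, real_inner_smul_right, hge, hgf, hg] at h1
    have h4 := htt p hp
    have : tt p * (s * √(1 - p.1 ^ 2 - p.2 ^ 2)) = 0 := by linarith
    rcases mul_eq_zero.mp this with h5 | h5
    · exact h4.ne' h5
    · exact hy0 h5
  -- injectivity
  have hinj : Set.InjOn φ ((T ×ˢ ({1, -1} : Finset ℝ) : Finset ((ℝ × ℝ) × ℝ)) : Set _) := by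
    rintro ⟨⟨u, v⟩, s⟩ h1 ⟨⟨u', v'⟩, s'⟩ h2 heq
    have m1 := Finset.mem_product.mp (Finset.mem_coe.mp h1)
    have m2 := Finset.mem_product.mp (Finset.mem_coe.mp h2)
    simp only [Finset.mem_insert, Finset.mem_singleton] at m1 m2
    have t1 := htt _ m1.1
    have t2 := htt _ m2.1
    have r1 := hrad _ m1.1
    have r2 := hrad _ m2.1
    have s1 : s ^ 2 = 1 := by rcases m1.2 with h | h <;> rw [h] <;> norm_num
    have s2 : s' ^ 2 = 1 := by rcases m2.2 with h | h <;> rw [h] <;> norm_num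
    have ie := congrArg (fun x => inner ℝ e x) heq
    have jf := congrArg (fun x => inner ℝ f x) heq
    have kg := congrArg (fun x => inner ℝ g x) heq
    simp only [φ, inner_add_right, real_inner_smul_right, he, hef, heg, hfe, hf, hfg, hge, hgf,
      hg] at ie jf kg
    have q1 : √(1 - u ^ 2 - v ^ 2) ^ 2 = 1 - u ^ 2 - v ^ 2 := Real.sq_sqrt r1.le
    have q2 : √(1 - u' ^ 2 - v' ^ 2) ^ 2 = 1 - u' ^ 2 - v' ^ 2 := Real.sq_sqrt r2.le
    have ie' : tt (u, v) * u = tt (u', v') * u' := by linarith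
    have jf' : tt (u, v) * v = tt (u', v') * v' := by linarith
    have kg' : tt (u, v) * (s * √(1 - u ^ 2 - v ^ 2)) =
        tt (u', v') * (s' * √(1 - u' ^ 2 - v' ^ 2)) := by linarith
    have hts : tt (u, v) ^ 2 = tt (u', v') ^ 2 := by
      have e1 : tt (u, v) ^ 2 = (tt (u, v) * u) ^ 2 + (tt (u, v) * v) ^ 2 +
          (tt (u, v) * (s * √(1 - u ^ 2 - v ^ 2))) ^ 2 := by
        rw [mul_pow, mul_pow, mul_pow, mul_pow, q1, s1]
        ring
      have e2 : tt (u', v') ^ 2 = (tt (u', v') * u') ^ 2 + (tt (u', v') * v') ^ 2 +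
          (tt (u', v') * (s' * √(1 - u' ^ 2 - v' ^ 2))) ^ 2 := by
        rw [mul_pow, mul_pow, mul_pow, mul_pow, q2, s2]
        ring
      rw [e1, e2, ie', jf', kg']
    have ht : tt (u, v) = tt (u', v') := by nlinarith
    rw [ht] at ie' jf' kg'
    have hu : u = u' := mul_left_cancel₀ t2.ne' ie'
    have hv : v = v' := mul_left_cancel₀ t2.ne' jf'
    subst hu
    subst hv
    have hs : s = s' := by
      have h5 := mul_left_cancel₀ t2.ne' kg'
      exact mul_right_cancel₀ (Real.sqrt_pos.mpr r1).ne' h5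
    rw [hs]
  refine ⟨σ, hσ, (T ×ˢ ({1, -1} : Finset ℝ)).image φ, ?_, ?_⟩
  · rw [Finset.card_image_of_injOn hinj, Finset.card_product]
    have : ({1, -1} : Finset ℝ).card = 2 := by
      rw [Finset.card_pair]
      norm_num
    rw [this]
    omega
  · intro x hx
    rw [Finset.mem_image] at hx
    obtain ⟨⟨p, s⟩, hps, rfl⟩ := hx
    rw [Finset.mem_product] at hps
    apply hmem p hps.1 s
    have := hps.2
    simp only [Finset.mem_insert, Finset.mem_singleton] at this
    rcases this with h | h <;> rw [h] <;> norm_num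

end PC992CC
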