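import Mathlib
import Pool.Agent.Work.MP_992d6e_an.Chain
import Pool.Agent.Work.MP_992d6e_an.CC.PstB
import Pool.Agent.Work.MP_992d6e_an.CC.MdlB

/-!
MP_992d6e_an, CC/ChC: the induction over the multipole levels, with `CD`.

PROOF. Copy the proof of `PC992.chain` (`Chain.lean`) with `model_cd` for `model`,
`persist_finset_cd` for `persist_finset` and one more conclusion. Induction hypothesis:
`CD (H c M) x ‖x‖ (Bd M)`; by `CD.mono` and `Bd_mono` also with `Bd (M+1)`; the same for `model_cd M`.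
* `S`, `F τ`: `persist_finset_cd` with `R x = ‖x‖`, `r τ y = ‖y‖`, constant `Bd (M+1)`. `0 < ‖x‖`;
`TC2 l F (H c M) y` for all `y` with `‖y - x‖ < ‖x‖` because then `y ≠ 0` (the old proof of `TC2`
only uses `y ≠ 0`); for `R₁ > ‖x‖` eventually `‖p.2‖ ≤ R₁` (continuity of the norm and
`Filter.Eventually.prod_inr`).
* `S'`, `G τ`: the same. If `CD (G τ) y ‖y‖ B` then by `hGF : G τ = fun y => τ^(M+1) * F τ (τ • y)`
and `CD.rescale`, `CD (F τ) (τ • y) (τ * ‖y‖) B`, and `τ * ‖y‖ = ‖τ • y‖`.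
-/

namespace PC992CC

open Filter Topology Polynomial PC992

private theorem ne_of_close {x y : E} (h : ‖y - x‖ < ‖x‖) : y ≠ 0 := by
  rintro rfl
  rw [zero_sub, norm_neg] at h
  exact lt_irrefl _ h

private theorem ev_norm_le {l : Filter ℝ} {x : E} {R₁ : ℝ} (h : ‖x‖ < R₁) :
    ∀ᶠ p : ℝ × E in l ×ˢ 𝓝 x, ‖p.2‖ ≤ R₁ := by
  have h1 : ∀ᶠ y in 𝓝 x, ‖y‖ ≤ R₁ := by
    filter_upwards [(isOpen_lt continuous_norm continuous_const).mem_nhds
      (show x ∈ {y : E | ‖y‖ < R₁} from h)] with y hy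
    exact le_of_lt hy
  exact h1.prod_inr l

theorem chain_cd (M : ℕ) : ∃ c : ℕ → ℝ, c M ≠ 0 ∧ ∃ S : Finset E, NN M ≤ S.card ∧
    ∀ x ∈ S, x ≠ 0 ∧ x ∈ NDC (H c M) ∧ CD (H c M) x ‖x‖ (Bd M) := by
  classical
  induction M with
  | zero => exact ⟨fun _ => 1, one_ne_zero, ∅, by simp [NN], by simp⟩
  | succ M ih =>
    obtain ⟨c, hcM, S, hScard, hS⟩ := ih
    obtain ⟨σ, hσ, S', hS'card, hS'⟩ := model_cd M (frame_ax M) hcM
    obtain ⟨δ, hδ, hδS⟩ := exists_small S (fun x hx => (hS x hx).1)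
    obtain ⟨R, hR, hRS⟩ := exists_big S'
    set f := ax (M + 1) with hf
    let F : ℝ → E → ℝ := fun τ x => H c M x + (σ * τ) * Ek (M + 1) f x
    let G : ℝ → E → ℝ := fun τ y =>
      (∑ k ∈ Finset.range (M + 1), (c k * τ ^ (M - k)) * Ek k (ax k) y) + σ * Ek (M + 1) f y
    have hTF : ∀ x : E, x ≠ 0 → TC2 (𝓝[>] (0 : ℝ)) F (H c M) x := by
      intro x hx0
      have h1 : TC2 (𝓝[>] (0 : ℝ)) (fun _ => H c M) (H c M) x :=
        TC2.const (H_contDiffAt c M hx0)
      have h2 : TC2 (𝓝[>] (0 : ℝ)) (fun _ => Ek (M + 1) f) (Ek (M + 1) f) x :=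
        TC2.const (Ek_contDiffAt (M + 1) f hx0 2)
      have h3 : Tendsto (fun τ : ℝ => σ * τ) (𝓝[>] (0 : ℝ)) (𝓝 0) := by
        have : Tendsto (fun τ : ℝ => σ * τ) (𝓝 0) (𝓝 (σ * 0)) :=
          (continuous_const.mul continuous_id).tendsto 0
        rw [mul_zero] at this
        exact this.mono_left nhdsWithin_le_nhds
      have h4 := h1.add (h2.mul h3)
      have h5 : (fun x => H c M x + 0 * Ek (M + 1) f x) = H c M := by
        funext y
        ring
      rw [h5] at h4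
      exact h4
    have hF : ∀ x ∈ S, 0 < ‖x‖ ∧ x ∈ NDC (H c M) ∧ CD (H c M) x ‖x‖ (Bd (M + 1)) ∧
        (∀ y : E, ‖y - x‖ < ‖x‖ → TC2 (𝓝[>] (0 : ℝ)) F (H c M) y) ∧
        {x : E | δ < ‖x‖} ∈ 𝓝 x ∧
        ∀ R₁ > ‖x‖, ∀ᶠ p : ℝ × E in 𝓝[>] (0 : ℝ) ×ˢ 𝓝 x, ‖p.2‖ ≤ R₁ := by
      intro x hx
      exact ⟨norm_pos_iff.2 (hS x hx).1, (hS x hx).2.1,
        (hS x hx).2.2.mono le_rfl (Bd_mono (Nat.le_succ M)),
        fun y hy => hTF y (ne_of_close hy),
        (isOpen_lt continuous_const continuous_norm).mem_nhds (hδS x hx),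
        fun R₁ hR₁ => ev_norm_le hR₁⟩
    have hTG : ∀ y : E, y ≠ 0 →
        TC2 (𝓝[>] (0 : ℝ)) G (fun x => c M * Ek M (ax M) x + σ * Ek (M + 1) f x) y := by
      intro y hy0
      have h1 : ∀ k ∈ Finset.range (M + 1), TC2 (𝓝[>] (0 : ℝ))
          (fun τ x => (c k * τ ^ (M - k)) * Ek k (ax k) x)
          (fun x => (if k = M then c M else 0) * Ek k (ax k) x) y := by
        intro k hk
        rw [Finset.mem_range] at hk
        refine TC2.mul ?_ (TC2.const (Ek_contDiffAt k (ax k) hy0 2))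
        by_cases hkM : k = M
        · subst hkM
          simp
        · rw [if_neg hkM]
          have h0 : M - k ≠ 0 := by omega
          have : Tendsto (fun τ : ℝ => c k * τ ^ (M - k)) (𝓝 0) (𝓝 (c k * 0 ^ (M - k))) :=
            (continuous_const.mul (continuous_pow _)).tendsto 0
          rw [zero_pow h0, mul_zero] at this
          exact this.mono_left nhdsWithin_le_nhds
      have h2 : TC2 (𝓝[>] (0 : ℝ)) (fun _ x => σ * Ek (M + 1) f x)
          (fun x => σ * Ek (M + 1) f x) y :=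
        TC2.const (contDiffAt_const.mul (Ek_contDiffAt (M + 1) f hy0 2))
      have h3 := (TC2.sum (Finset.range (M + 1)) h1).add h2
      have h4 : (fun x => (∑ k ∈ Finset.range (M + 1),
          (if k = M then c M else 0) * Ek k (ax k) x) + σ * Ek (M + 1) f x) =
          fun x => c M * Ek M (ax M) x + σ * Ek (M + 1) f x := by
        funext x
        congr 1
        rw [Finset.sum_eq_single M]
        · simp
        · intro k _ hk
          simp [hk]
        · intro h
          exact absurd (Finset.mem_range.mpr (Nat.lt_succ_self M)) h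
      rw [h4] at h3
      exact h3
    have hG : ∀ y ∈ S', 0 < ‖y‖ ∧
        y ∈ NDC (fun x => c M * Ek M (ax M) x + σ * Ek (M + 1) f x) ∧
        CD (fun x => c M * Ek M (ax M) x + σ * Ek (M + 1) f x) y ‖y‖ (Bd (M + 1)) ∧
        (∀ z : E, ‖z - y‖ < ‖y‖ →
          TC2 (𝓝[>] (0 : ℝ)) G (fun x => c M * Ek M (ax M) x + σ * Ek (M + 1) f x) z) ∧
        {y : E | y ≠ 0 ∧ ‖y‖ < R} ∈ 𝓝 y ∧
        ∀ R₁ > ‖y‖, ∀ᶠ p : ℝ × E in 𝓝[>] (0 : ℝ) ×ˢ 𝓝 y, ‖p.2‖ ≤ R₁ := by
      intro y hy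
      have hy0 := (hS' y hy).1
      exact ⟨norm_pos_iff.2 hy0, (hS' y hy).2.1,
        (hS' y hy).2.2.mono le_rfl (Bd_mono (Nat.le_succ M)),
        fun z hz => hTG z (ne_of_close hz),
        (isOpen_ne.inter (isOpen_lt continuous_norm
        continuous_const)).mem_nhds ⟨hy0, hRS y hy⟩,
        fun R₁ hR₁ => ev_norm_le hR₁⟩
    have e1 := persist_finset_cd S {x : E | δ < ‖x‖} (fun x => ‖x‖) (fun _ y => ‖y‖) hF
    have e2 := persist_finset_cd S' {y : E | y ≠ 0 ∧ ‖y‖ < R} (fun x => ‖x‖)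
      (fun _ y => ‖y‖) hG
    have e3 : ∀ᶠ τ : ℝ in 𝓝[>] (0 : ℝ), 0 < τ := eventually_mem_nhdsWithin
    have e4 : ∀ᶠ τ : ℝ in 𝓝[>] (0 : ℝ), τ < δ / R :=
      mem_nhdsWithin_of_mem_nhds (Iio_mem_nhds (by positivity))
    obtain ⟨τ, ⟨T1, hT1c, hT1⟩, ⟨T2, hT2c, hT2⟩, hτ, hτR⟩ := (e1.and (e2.and (e3.and e4))).exists
    have hτ0 : τ ≠ 0 := hτ.ne'
    have hGF : G τ = fun y => τ ^ (M + 1) * F τ (τ • y) := by
      funext y
      simp only [G, F, H]
      rw [mul_add, Finset.mul_sum]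
      congr 1
      · apply Finset.sum_congr rfl
        intro k hk
        rw [Finset.mem_range] at hk
        rw [Ek_smul k (ax k) y hτ]
        have : τ ^ (M + 1) = τ ^ (M - k) * τ ^ (k + 1) := by
          rw [← pow_add]
          congr 1
          omega
        rw [this]
        field_simp
      · rw [Ek_smul (M + 1) f y hτ, pow_succ τ (M + 1)]
        field_simp
    have hinj : Set.InjOn (fun y : E => τ • y) (T2 : Set E) := by
      intro a _ b _ h
      exact smul_right_injective E hτ0 h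
    have hnew : ∀ x ∈ T2.image (fun y : E => τ • y), x ≠ 0 ∧ ‖x‖ < δ ∧ x ∈ NDC (F τ) ∧
        CD (F τ) x ‖x‖ (Bd (M + 1)) := by
      intro x hx
      obtain ⟨y, hy, rfl⟩ := Finset.mem_image.mp hx
      obtain ⟨⟨hy0, hyR⟩, hyN, hyC⟩ := hT2 y hy
      refine ⟨smul_ne_zero hτ0 hy0, ?_, ?_, ?_⟩
      · show ‖τ • y‖ < δ
        rw [norm_smul, Real.norm_of_nonneg hτ.le]
        calc τ * ‖y‖ ≤ τ * R := by
              apply mul_le_mul_of_nonneg_left hyR.le hτ.le
          _ < δ / R * R := by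
              apply mul_lt_mul_of_pos_right hτR hR
          _ = δ := by field_simp
      · rw [hGF] at hyN
        exact NDC.rescale (pow_ne_zero _ hτ0) hτ0 hyN
      · rw [hGF] at hyC
        have hn : ‖τ • y‖ = τ * ‖y‖ := by rw [norm_smul, Real.norm_of_nonneg hτ.le]
        show CD (F τ) (τ • y) ‖τ • y‖ (Bd (M + 1))
        rw [hn]
        exact CD.rescale (pow_ne_zero _ hτ0) hτ hyC
    have hdisj : Disjoint T1 (T2.image (fun y : E => τ • y)) := by
      rw [Finset.disjoint_left]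
      intro x h1 h2
      have h3 := (hT1 x h1).1
      have h4 := (hnew x h2).2.1
      simp only [Set.mem_setOf_eq] at h3
      linarith
    have hFH : F τ = H (Function.update c (M + 1) (σ * τ)) (M + 1) := by
      funext x
      simp only [F, H]
      rw [Finset.sum_range_succ _ (M + 1)]
      congr 1
      · apply Finset.sum_congr rfl
        intro k hk
        rw [Finset.mem_range] at hk
        rw [Function.update_of_ne (by omega)]
      · rw [Function.update_self]
    refine ⟨Function.update c (M + 1) (σ * τ), ?_, T1 ∪ T2.image (fun y : E => τ • y), ?_, ?_⟩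
    · rw [Function.update_self]
      exact mul_ne_zero hσ hτ0
    · rw [Finset.card_union_of_disjoint hdisj, Finset.card_image_of_injOn hinj, hT1c, hT2c]
      have : NN (M + 1) = NN M + K M * K (M + 1) := by
        unfold NN
        rw [Finset.sum_range_succ]
      omega
    · intro x hx
      rw [← hFH]
      rcases Finset.mem_union.mp hx with h | h
      · obtain ⟨h1, h2, h2'⟩ := hT1 x h
        refine ⟨?_, h2, h2'⟩
        simp only [Set.mem_setOf_eq] at h1
        intro h0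
        rw [h0, norm_zero] at h1
        linarith
      · exact ⟨(hnew x h).1, (hnew x h).2.2.1, (hnew x h).2.2.2⟩

end PC992CC
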