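import Mathlib
import Pool.Agent.Work.MP_992d6e_an.Final
import Pool.Agent.Work.MP_992d6e_an.CC.ChC

/-!
MP_992d6e_an, CC/ReC: realisation by point charges, with `CD`.

PROOF. Copy the proof of `PC992.realise` (`Final.lean`) with `chain_cd` for `chain` and
`persist_finset_cd` for `persist_finset`, with `R x = ‖x‖`, `r h y = ‖y‖ + (M + 1) * h` and the
constant `Bd M`. `TC2 l F (H c M) y` holds for all `y ≠ 0` (`fd_conv` only needs `y ≠ 0`), in
particular for `‖y - x‖ < ‖x‖`. For `R₁ > ‖x‖`: eventually for `p` in `𝓝[>] 0 ×ˢ 𝓝 x`,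
`‖p.2‖ + (M + 1) * p.1 ≤ R₁`, because this function tends to `‖x‖`. So the new points have
`CD (F h) x (‖x‖ + (M+1) * h) (Bd M)`. The point `pos 0 0 = -((1 * h) • ax 0)` belongs to
`A ⊆ D = range a`, so `infDist x (range a) ≤ dist x (pos 0 0) ≤ ‖x‖ + h ≤ ‖x‖ + (M+1) * h`
(`Metric.infDist_le_dist_of_mem`), and `CD.mono` gives the claim.
-/

namespace PC992CC

open Filter Topology Polynomial PC992 N62f3cee0

theorem realise_cd (M n : ℕ) (hn : 2 * (M + 1) ≤ n) :
    ∃ (q : Fin n → ℝ) (a : Fin n → E), Function.Injective a ∧ ∃ S : Finset E, NN M ≤ S.card ∧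
      ∀ x ∈ S, x ∈ NDC (potential q a) ∧ x ∉ Set.range a ∧
        CD (potential q a) x (Metric.infDist x (Set.range a)) (Bd M) := by
  classical
  obtain ⟨c, -, S, hSc, hS⟩ := chain_cd M
  obtain ⟨δ, hδ, hδS⟩ := exists_small S (fun x hx => (hS x hx).1)
  have hax : ∀ k, ‖ax k‖ = 1 := by
    intro k
    have h := (frame_ax k).he
    rw [real_inner_self_eq_norm_sq] at h
    nlinarith [norm_nonneg (ax k)]
  let F : ℝ → E → ℝ := fun h x => ∑ k ∈ Finset.range (M + 1), c k * ((h ^ k)⁻¹ *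
      ∑ j ∈ Finset.range (k + 1), (-1) ^ (k - j) * (k.choose j : ℝ) *
        ‖x + (((j : ℝ) + 1) * h) • ax k‖⁻¹)
  have hTC : ∀ y : E, y ≠ 0 → TC2 (𝓝[>] (0 : ℝ)) F (H c M) y := by
    intro y hy
    exact TC2.sum _ fun k _ => TC2.mul tendsto_const_nhds (fd_conv k (hax k) hy)
  have hF : ∀ x ∈ S, 0 < ‖x‖ ∧ x ∈ NDC (H c M) ∧ CD (H c M) x ‖x‖ (Bd M) ∧
      (∀ y : E, ‖y - x‖ < ‖x‖ → TC2 (𝓝[>] (0 : ℝ)) F (H c M) y) ∧
      {x : E | δ < ‖x‖} ∈ 𝓝 x ∧
      ∀ R₁ > ‖x‖, ∀ᶠ p : ℝ × E in (𝓝[>] (0 : ℝ)) ×ˢ 𝓝 x, ‖p.2‖ + ((M : ℝ) + 1) * p.1 ≤ R₁ := by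
    intro x hx
    refine ⟨norm_pos_iff.2 (hS x hx).1, (hS x hx).2.1, (hS x hx).2.2, ?_,
      (isOpen_lt continuous_const continuous_norm).mem_nhds (hδS x hx), ?_⟩
    · intro y hy
      apply hTC
      rintro rfl
      rw [zero_sub, norm_neg] at hy
      exact lt_irrefl _ hy
    · intro R₁ hR₁
      have hc : Filter.Tendsto (fun p : ℝ × E => ‖p.2‖ + ((M : ℝ) + 1) * p.1)
          ((𝓝[>] (0 : ℝ)) ×ˢ 𝓝 x) (𝓝 (‖x‖ + ((M : ℝ) + 1) * 0)) := by
        have h1 : Filter.Tendsto (fun p : ℝ × E => ‖p.2‖ + ((M : ℝ) + 1) * p.1)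
            (𝓝 ((0 : ℝ), x)) (𝓝 (‖x‖ + ((M : ℝ) + 1) * 0)) := by
          have : Continuous fun p : ℝ × E => ‖p.2‖ + ((M : ℝ) + 1) * p.1 := by fun_prop
          exact this.tendsto ((0 : ℝ), x)
        refine h1.mono_left ?_
        rw [nhds_prod_eq]
        exact Filter.prod_mono nhdsWithin_le_nhds le_rfl
      rw [mul_zero, add_zero] at hc
      exact (hc.eventually_lt_const hR₁).mono fun p hp => hp.le
  have e1 := persist_finset_cd S {x : E | δ < ‖x‖} (fun x => ‖x‖)
    (fun (h : ℝ) (y : E) => ‖y‖ + ((M : ℝ) + 1) * h) hF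
  have e2 : ∀ᶠ h : ℝ in 𝓝[>] (0 : ℝ), 0 < h := eventually_mem_nhdsWithin
  have e3 : ∀ᶠ h : ℝ in 𝓝[>] (0 : ℝ), h < δ / (M + 1) :=
    mem_nhdsWithin_of_mem_nhds (Iio_mem_nhds (by positivity))
  obtain ⟨h, ⟨T, hTc, hT⟩, hh, hhδ⟩ := (e1.and (e2.and e3)).exists
  -- positions
  let pos : ℕ → ℕ → E := fun k j => -((((j : ℝ) + 1) * h) • ax k)
  let A : Finset E := (Finset.range (M + 1)).image (pos 0) ∪ (Finset.range (M + 1)).image (pos 1)
  have hposA : ∀ k ≤ M, ∀ j ≤ k, pos k j ∈ A := by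
    intro k hk j hj
    have hjM : j ∈ Finset.range (M + 1) := Finset.mem_range.mpr (by omega)
    rcases Nat.even_or_odd k with he | ho
    · apply Finset.mem_union_left
      refine Finset.mem_image.mpr ⟨j, hjM, ?_⟩
      simp [pos, ax, he]
    · apply Finset.mem_union_right
      refine Finset.mem_image.mpr ⟨j, hjM, ?_⟩
      simp [pos, ax, Nat.not_even_iff_odd.mpr ho]
  have hAcard : A.card ≤ n := by
    refine le_trans (Finset.card_union_le _ _) ?_
    have h1 := Finset.card_image_le (s := Finset.range (M + 1)) (f := pos 0)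
    have h2 := Finset.card_image_le (s := Finset.range (M + 1)) (f := pos 1)
    rw [Finset.card_range] at h1 h2
    omega
  have hAnorm : ∀ t ∈ A, ‖t‖ ≤ δ := by
    intro t ht
    have key : ∀ k, ∀ j ∈ Finset.range (M + 1), ‖pos k j‖ ≤ δ := by
      intro k j hj
      rw [Finset.mem_range] at hj
      have hj' : (j : ℝ) + 1 ≤ M + 1 := by
        have : j ≤ M := by omega
        have : (j : ℝ) ≤ M := by exact_mod_cast this
        linarith
      simp only [pos]
      rw [norm_neg, norm_smul, hax, mul_one, Real.norm_of_nonneg (by positivity)]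
      calc ((j : ℝ) + 1) * h ≤ (M + 1) * h := mul_le_mul_of_nonneg_right hj' hh.le
        _ ≤ (M + 1) * (δ / (M + 1)) := mul_le_mul_of_nonneg_left hhδ.le (by positivity)
        _ = δ := by field_simp
    rcases Finset.mem_union.mp ht with h1 | h1
    · obtain ⟨j, hj, rfl⟩ := Finset.mem_image.mp h1
      exact key 0 j hj
    · obtain ⟨j, hj, rfl⟩ := Finset.mem_image.mp h1
      exact key 1 j hj
  have hTA : ∀ x ∈ T, x ∉ A := by
    intro x hx hxA
    have h1 := (hT x hx).1
    have h2 := hAnorm x hxA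
    simp only [Set.mem_setOf_eq] at h1
    linarith
  -- padding
  obtain ⟨B, hAB, hBc⟩ := Infinite.exists_superset_card_eq (A ∪ T) (n + T.card) (by
    rw [Finset.card_union_of_disjoint (Finset.disjoint_left.mpr fun x h1 h2 => hTA x h2 h1)]
    omega)
  let D : Finset E := B \ T
  have hDc : D.card = n := by
    have : T ⊆ B := fun x hx => hAB (Finset.mem_union_right _ hx)
    rw [Finset.card_sdiff_of_subset this, hBc]
    omega
  have hAD : A ⊆ D := by
    intro x hx
    rw [Finset.mem_sdiff]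
    exact ⟨hAB (Finset.mem_union_left _ hx), fun h => hTA x h hx⟩
  let μ : E → ℝ := fun t => ∑ k ∈ Finset.range (M + 1), ∑ j ∈ Finset.range (k + 1),
    if pos k j = t then c k * ((h ^ k)⁻¹ * ((-1) ^ (k - j) * (k.choose j : ℝ))) else 0
  obtain ⟨q, a, hinj, hra, hpot⟩ := enumerate D n hDc μ
  have hpotF : potential q a = F h := by
    rw [hpot]
    funext x
    simp only [μ, F]
    calc ∑ t ∈ D, (∑ k ∈ Finset.range (M + 1), ∑ j ∈ Finset.range (k + 1),
          if pos k j = t then c k * ((h ^ k)⁻¹ * ((-1) ^ (k - j) * (k.choose j : ℝ))) else 0) *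
            ‖x - t‖⁻¹
        = ∑ k ∈ Finset.range (M + 1), ∑ j ∈ Finset.range (k + 1), ∑ t ∈ D,
          (if pos k j = t then c k * ((h ^ k)⁻¹ * ((-1) ^ (k - j) * (k.choose j : ℝ))) else 0) *
            ‖x - t‖⁻¹ := by
          simp only [Finset.sum_mul]
          rw [Finset.sum_comm]
          apply Finset.sum_congr rfl
          intro k _
          rw [Finset.sum_comm]
      _ = ∑ k ∈ Finset.range (M + 1), ∑ j ∈ Finset.range (k + 1),
          (c k * ((h ^ k)⁻¹ * ((-1) ^ (k - j) * (k.choose j : ℝ)))) * ‖x - pos k j‖⁻¹ := by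
          apply Finset.sum_congr rfl
          intro k hk
          apply Finset.sum_congr rfl
          intro j hj
          rw [Finset.mem_range] at hk hj
          have hmem : pos k j ∈ D := hAD (hposA k (by omega) j (by omega))
          rw [Finset.sum_eq_single (pos k j)]
          · simp
          · intro t _ ht
            rw [if_neg (Ne.symm ht), zero_mul]
          · intro hno
            exact absurd hmem hno
      _ = _ := by
          apply Finset.sum_congr rfl
          intro k _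
          rw [Finset.mul_sum, Finset.mul_sum]
          apply Finset.sum_congr rfl
          intro j _
          simp only [pos, sub_neg_eq_add]
          ring
  refine ⟨q, a, hinj, T, by omega, fun x hx => ⟨?_, ?_, ?_⟩⟩
  · rw [hpotF]
    exact (hT x hx).2.1
  · rw [hra]
    intro h1
    have := Finset.mem_coe.mp h1
    rw [Finset.mem_sdiff] at this
    exact this.2 hx
  · rw [hpotF]
    refine (hT x hx).2.2.mono ?_ le_rfl
    have hmem : pos 0 0 ∈ Set.range a := by
      rw [hra]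
      exact Finset.mem_coe.2 (hAD (hposA 0 (Nat.zero_le M) 0 le_rfl))
    refine (Metric.infDist_le_dist_of_mem hmem).trans ?_
    have h1 : dist x (pos 0 0) ≤ ‖x‖ + h := by
      rw [dist_eq_norm]
      refine (norm_sub_le _ _).trans ?_
      simp only [pos]
      rw [norm_neg, norm_smul, hax, mul_one, Real.norm_of_nonneg (by positivity)]
      simp
    have hM0 : (0 : ℝ) ≤ M := Nat.cast_nonneg M
    have h2 : h ≤ ((M : ℝ) + 1) * h := by nlinarith [mul_nonneg hM0 hh.le]
    linarith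

end PC992CC
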