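import Mathlib
import Pool.Agent.Work.MP_992d6e_an.CC.ReC
import Pool.Agent.Work.MP_992d6e_an.CC.LsC
import Pool.Agent.Work.MP_992d6e_an.CC.CleC

/-!
MP_992d6e_an, CC/Fin: assembly.
-/

namespace PC992CC

open Filter Topology PC992 N62f3cee0

theorem cubic_cond (n : ℕ) (hn : 1 ≤ n) :
    ∃ (q : Fin n → ℝ) (a : Fin n → E), Function.Injective a ∧ (∀ j, q j ≠ 0) ∧
      (∀ x ∈ equilibria q a, HasNondegenerateHessianAt (potential q a) x) ∧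
      ∃ T : Finset E, 2 * (n - 16) ^ 3 ≤ 243 * T.card ∧
        ∀ x ∈ T, x ∈ equilibria q a ∧ PC992WC.CondLE q a (3 * 10 ^ 8 * (n : ℝ) ^ 4) x := by
  classical
  rcases Nat.lt_or_ge n 17 with hlt | hge
  · obtain ⟨q, a, h1, h2, h3, -⟩ := PC992.cubic n hn
    refine ⟨q, a, h1, h2, h3, ∅, ?_, by simp⟩
    have h0 : n - 16 = 0 := by omega
    simp [h0]
  · obtain ⟨m, rfl⟩ : ∃ m, n = m + 1 := ⟨n - 1, by omega⟩
    obtain ⟨M, hM1, hM2⟩ : ∃ M, 2 * (M + 1) ≤ m ∧ m ≤ 2 * M + 3 :=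
      ⟨(m - 2) / 2, by omega, by omega⟩
    obtain ⟨q, a, ha, S, hSc, hS⟩ := realise_cd M m hM1
    obtain ⟨q', a', h1, h2, h3, T, hTc, hT⟩ := last_step_cd (by omega) q a ha S hS
    refine ⟨q', a', h1, h2, h3, T, ?_, fun x hx => ⟨(hT x hx).1, ?_⟩⟩
    · have hM6 : 6 ≤ M := by omega
      have h5 := NN_lower M hM6
      have e1 : m + 1 - 16 ≤ 2 * (M - 6) := by omega
      have e2 : (m + 1 - 16) ^ 3 ≤ (2 * (M - 6)) ^ 3 := Nat.pow_le_pow_left e1 3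
      have e3 : (2 * (M - 6)) ^ 3 = 8 * (M - 6) ^ 3 := by ring
      omega
    · apply condLE_of_cd (Nat.succ_pos m)
      exact (hT x hx).2.mono le_rfl (Bd_le (by omega))

end PC992CC
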